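import Mathlib
import Pool.Agent.Y359.PE.Step

/-!
# Conditional entropies by counting
-/

set_option autoImplicit false

namespace Pool.Agent.T2H12.KF

open Finset
open scoped Classical
open Pool.Agent.Y359.PE

variable {α β γ δ ε M : Type*}

/-- the entropy of `g` given `f` -/
noncomputable def ce (S : Finset α) (f : α → β) (g : α → γ) : ℝ :=
  h S (fun x => (f x, g x)) - h S f

lemma h_le_pair (S : Finset α) (f : α → β) (g : α → γ) : h S f ≤ h S (fun x => (f x, g x)) := by
  have h1 := chain S f g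
  have h2 : 0 ≤ (∑ x ∈ S, h (cl S f x) g) / S.card :=
    div_nonneg (sum_nonneg fun x _ => h_nonneg _ _) (by positivity)
  linarith

lemma ce_nonneg (S : Finset α) (f : α → β) (g : α → γ) : 0 ≤ ce S f g := by
  unfold ce
  linarith [h_le_pair S f g]

/-- finer functions have larger entropy -/
lemma h_mono (S : Finset α) (f : α → β) (g : α → γ)
    (hfg : ∀ x ∈ S, ∀ y ∈ S, g x = g y → f x = f y) : h S f ≤ h S g := by
  have h1 := h_le_pair S f g
  refine h1.trans (le_of_eq (h_congr fun x hx y hy => ?_))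
  rw [Prod.mk.injEq]
  exact ⟨fun h2 => h2.2, fun h2 => ⟨hfg x hx y hy h2, h2⟩⟩

lemma ce_le_h (S : Finset α) (f : α → β) (g : α → γ) : ce S f g ≤ h S g := by
  have h1 := submod S (fun _ => ()) f g (fun _ _ _ _ _ => rfl)
  have h2 : h S (fun _ : α => ()) = 0 := h_const _ _ fun _ _ _ _ => rfl
  have h3 : h S (fun x => ((), g x)) = h S g := h_congr fun x _ y _ => by
    rw [Prod.mk.injEq]
    tauto
  unfold ce
  linarith

/-- conditioning on less gives more -/
lemma ce_anti (S : Finset α) (f : α → β) (g : α → γ) (k : α → δ)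
    (hgf : ∀ x ∈ S, ∀ y ∈ S, g x = g y → f x = f y) : ce S g k ≤ ce S f k :=
  submod S f g k hgf

lemma ce_mono (S : Finset α) (f : α → β) (g : α → γ) (k : α → δ)
    (hgk : ∀ x ∈ S, ∀ y ∈ S, f x = f y → k x = k y → g x = g y) : ce S f g ≤ ce S f k := by
  unfold ce
  have := h_mono S (fun x => (f x, g x)) (fun x => (f x, k x)) (by
    intro x hx y hy hxy
    rw [Prod.mk.injEq] at hxy ⊢
    exact ⟨hxy.1, hgk x hx y hy hxy.1 hxy.2⟩)
  linarith

lemma ce_const (S : Finset α) (f : α → β) (g : α → γ)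
    (hg : ∀ x ∈ S, ∀ y ∈ S, f x = f y → g x = g y) : ce S f g = 0 := by
  unfold ce
  rw [sub_eq_zero]
  refine h_congr fun x hx y hy => ?_
  rw [Prod.mk.injEq]
  exact ⟨fun h1 => h1.1, fun h1 => ⟨h1, hg x hx y hy h1⟩⟩

/-- the chain rule for conditional entropies -/
lemma ce_chain (S : Finset α) (f : α → β) (g : α → γ) (k : α → δ) :
    ce S f (fun x => (g x, k x)) = ce S f g + ce S (fun x => (f x, g x)) k := by
  unfold ce
  have h1 : h S (fun x => (f x, (g x, k x))) = h S (fun x => ((f x, g x), k x)) :=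
    h_congr fun x _ y _ => by
      simp only [Prod.mk.injEq]
      tauto
  rw [h1]
  ring

/-- the entropy given `r` and `z` is the mean of the entropies given `z` on the classes of `r` -/
lemma ce_avg (S : Finset α) (r : α → β) (z : α → γ) (k : α → δ) :
    (S.card : ℝ) * ce S (fun x => (r x, z x)) k = ∑ x ∈ S, ce (cl S r x) z k := by
  rcases S.eq_empty_or_nonempty with h0 | hS
  · subst h0
    simp
  have hc : (0 : ℝ) < S.card := by exact_mod_cast card_pos.2 hS
  have h1 := chain S r (fun x => (z x, k x))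
  have h2 := chain S r z
  have h3 : h S (fun x => ((r x, z x), k x)) = h S (fun x => (r x, (z x, k x))) :=
    h_congr fun x _ y _ => by
      simp only [Prod.mk.injEq]
      tauto
  unfold ce
  rw [h3, sum_sub_distrib]
  have h4 : (S.card : ℝ) * (h S (fun x => (r x, (z x, k x))) - h S r) =
      ∑ x ∈ S, h (cl S r x) (fun x => (z x, k x)) := by
    rw [h1, mul_div_cancel₀ _ hc.ne']
  have h5 : (S.card : ℝ) * (h S (fun x => (r x, z x)) - h S r) =
      ∑ x ∈ S, h (cl S r x) z := by
    rw [h2, mul_div_cancel₀ _ hc.ne']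
  linarith

lemma ce_congr_left (S : Finset α) (f : α → β) (g : α → γ) (k : α → δ)
    (hfg : ∀ x ∈ S, ∀ y ∈ S, (f x = f y ↔ g x = g y)) : ce S f k = ce S g k := by
  unfold ce
  rw [h_congr hfg]
  congr 1
  refine h_congr fun x hx y hy => ?_
  rw [Prod.mk.injEq, Prod.mk.injEq, hfg x hx y hy]

/-- **The kernel bound**: conditional entropies are at most cross entropies. -/
lemma ce_le_kernel (S : Finset α) (z : α → β) (b : α → γ) (w : α → ℝ) (hw : ∀ x ∈ S, 0 < w x)
    (hwc : ∀ x ∈ S, ∀ y ∈ S, z x = z y → b x = b y → w x = w y)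
    (B : Finset γ) (W : β → γ → ℝ) (hW0 : ∀ t c, 0 ≤ W t c) (hb : ∀ x ∈ S, b x ∈ B)
    (hwW : ∀ x ∈ S, w x = W (z x) (b x)) (h1 : ∀ t, ∑ c ∈ B, W t c ≤ 1) :
    (S.card : ℝ) * ce S z b ≤ ∑ x ∈ S, -Real.log (w x) := by
  rcases S.eq_empty_or_nonempty with h0 | hS
  · subst h0
    simp
  have hc : (0 : ℝ) < S.card := by exact_mod_cast card_pos.2 hS
  have e1 : (S.card : ℝ) * ce S z b = ∑ x ∈ S, (Real.log (fc S z x) -
      Real.log (fc S (fun x => (z x, b x)) x)) := by
    unfold ce h
    rw [← sub_div, mul_div_cancel₀ _ hc.ne', ← sum_sub_distrib]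
    refine sum_congr rfl fun x _ => ?_
    ring
  rw [e1]
  have e2 : ∀ x ∈ S, Real.log (fc S z x) - Real.log (fc S (fun x => (z x, b x)) x) ≤
      -Real.log (w x) + ((fc S z x : ℝ) * w x / fc S (fun x => (z x, b x)) x - 1) := by
    intro x hx
    have a1 := fc_posR (f := z) hx
    have a2 := fc_posR (f := fun x => (z x, b x)) hx
    have a3 := hw x hx
    have a4 := Real.log_le_sub_one_of_pos (show 0 < (fc S z x : ℝ) * w x /
      fc S (fun x => (z x, b x)) x by positivity)
    rw [Real.log_div (by positivity) a2.ne', Real.log_mul a1.ne' a3.ne'] at a4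
    linarith
  refine (sum_le_sum e2).trans ?_
  rw [sum_add_distrib, sum_sub_distrib, sum_const, nsmul_eq_mul, mul_one]
  have e3 : ∑ x ∈ S, (fc S z x : ℝ) * w x / fc S (fun x => (z x, b x)) x ≤ S.card := by
    rw [← avg_cl S z fun x => (fc S z x : ℝ) * w x / fc S (fun x => (z x, b x)) x]
    have e4 : ∀ x ∈ S, (∑ y ∈ cl S z x, (fc S z y : ℝ) * w y /
        fc S (fun x => (z x, b x)) y) / fc S z x ≤ 1 := by
      intro x hx
      have a1 := fc_posR (f := z) hx
      rw [div_le_one a1]
      have e5 : ∀ y ∈ cl S z x, (fc S z y : ℝ) * w y / fc S (fun x => (z x, b x)) y =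
          ∑ c ∈ B, if b y = c then (fc S z x : ℝ) * W (z x) c *
            (1 / fc S (fun x => (z x, b x)) y) else 0 := by
        intro y hy
        obtain ⟨hyS, hyz⟩ := mem_cl.1 hy
        rw [Finset.sum_ite_eq, if_pos (hb y hyS), hwW y hyS, fc_congr hyz, hyz]
        ring
      rw [sum_congr rfl e5, sum_comm]
      calc ∑ c ∈ B, ∑ y ∈ cl S z x, (if b y = c then (fc S z x : ℝ) * W (z x) c *
            (1 / fc S (fun x => (z x, b x)) y) else 0)
          ≤ ∑ c ∈ B, (fc S z x : ℝ) * W (z x) c := by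
            refine sum_le_sum fun c _ => ?_
            rw [← sum_filter, ← mul_sum]
            have e6 := sum_inv_le S (fun x => (z x, b x)) ((cl S z x).filter fun y => b y = c)
              (fun y hy => (mem_cl.1 (mem_filter.1 hy).1).1) (by
                intro u hu v hv
                obtain ⟨hu1, hu2⟩ := mem_filter.1 hu
                obtain ⟨hv1, hv2⟩ := mem_filter.1 hv
                rw [Prod.mk.injEq]
                exact ⟨(mem_cl.1 hu1).2.trans (mem_cl.1 hv1).2.symm, hu2.trans hv2.symm⟩)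
            have e7 : 0 ≤ (fc S z x : ℝ) * W (z x) c := mul_nonneg a1.le (hW0 _ _)
            exact mul_le_of_le_one_right e7 e6
        _ = (fc S z x : ℝ) * ∑ c ∈ B, W (z x) c := by rw [mul_sum]
        _ ≤ (fc S z x : ℝ) * 1 := mul_le_mul_of_nonneg_left (h1 _) a1.le
        _ = _ := mul_one _
    refine (sum_le_sum e4).trans (le_of_eq ?_)
    rw [sum_const, nsmul_eq_mul, mul_one]
  linarith

/-! ### Product sets -/

lemma fc_prod (A : Finset α) (B : Finset β) (F : α → γ) (F' : β → δ) (s : α × β) :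
    fc (A ×ˢ B) (fun x => (F x.1, F' x.2)) s = fc A F s.1 * fc B F' s.2 := by
  unfold fc
  rw [cl_prod, card_product]

lemma h_prod (A : Finset α) (B : Finset β) (hA : A.Nonempty) (hB : B.Nonempty) (F : α → γ)
    (F' : β → δ) : h (A ×ˢ B) (fun x => (F x.1, F' x.2)) = h A F + h B F' := by
  have hAc : (0 : ℝ) < A.card := by exact_mod_cast card_pos.2 hA
  have hBc : (0 : ℝ) < B.card := by exact_mod_cast card_pos.2 hB
  unfold h
  rw [sum_product, card_product]
  have e1 : ∀ x ∈ A, ∀ y ∈ B, Real.log ((A.card * B.card : ℕ) : ℝ) -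
      Real.log (fc (A ×ˢ B) (fun x => (F x.1, F' x.2)) (x, y)) =
      (Real.log A.card - Real.log (fc A F x)) + (Real.log B.card - Real.log (fc B F' y)) := by
    intro x hx y hy
    rw [fc_prod]
    push_cast
    rw [Real.log_mul hAc.ne' hBc.ne', Real.log_mul (fc_posR hx).ne' (fc_posR hy).ne']
    ring
  rw [sum_congr rfl fun x hx => sum_congr rfl fun y hy => e1 x hx y hy]
  simp only [sum_add_distrib, sum_const, nsmul_eq_mul, ← mul_sum]
  push_cast
  field_simp

lemma h_fst (A : Finset α) (B : Finset β) (hA : A.Nonempty) (hB : B.Nonempty) (F : α → γ) :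
    h (A ×ˢ B) (fun x => F x.1) = h A F := by
  have h1 := h_prod A B hA hB F (fun _ => ())
  have h2 : h B (fun _ : β => ()) = 0 := h_const _ _ fun _ _ _ _ => rfl
  rw [h2, add_zero] at h1
  rw [← h1]
  refine h_congr fun x _ y _ => ?_
  simp

lemma h_snd (A : Finset α) (B : Finset β) (hA : A.Nonempty) (hB : B.Nonempty) (F : β → γ) :
    h (A ×ˢ B) (fun x => F x.2) = h B F := by
  have h1 := h_prod A B hA hB (fun _ => ()) F
  have h2 : h A (fun _ : α => ()) = 0 := h_const _ _ fun _ _ _ _ => rfl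
  rw [h2, zero_add] at h1
  rw [← h1]
  refine h_congr fun x _ y _ => ?_
  simp

lemma h_inj (S : Finset α) (f : α → β) (hf : ∀ x ∈ S, ∀ y ∈ S, f x = f y → x = y) :
    h S f = Real.log S.card := by
  rcases S.eq_empty_or_nonempty with h0 | hS
  · subst h0
    simp [h]
  have hc : (0 : ℝ) < S.card := by exact_mod_cast card_pos.2 hS
  unfold h
  have e1 : ∀ x ∈ S, Real.log S.card - Real.log (fc S f x) = Real.log S.card := by
    intro x hx
    have : cl S f x = {x} := by
      ext y
      rw [mem_cl, mem_singleton]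
      constructor
      · rintro ⟨h1, h2⟩
        exact hf y h1 x hx h2
      · rintro rfl
        exact ⟨hx, rfl⟩
    unfold fc
    rw [this, card_singleton, Nat.cast_one, Real.log_one, sub_zero]
  rw [sum_congr rfl e1, sum_const, nsmul_eq_mul, mul_div_cancel_left₀ _ hc.ne']

end Pool.Agent.T2H12.KF
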