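import Mathlib
import Pool.Agent.T2H12.KF.CEnt

/-!
# The loss of information in a sum of two independent variables

If `a` is mostly zero, the bit `a = 0` is almost determined by `a + b`, up to a small proportion of
the entropies of the bit and of `b`.
-/

set_option autoImplicit false

namespace Pool.Agent.T2H12.KF

open Finset
open scoped Classical
open Pool.Agent.Y359.PE

variable {α β M : Type*} [AddCommGroup M]

/-- the entropy of the bit `a = 0` given the sum -/
noncomputable def hb (U : Finset α) (V : Finset β) (a : α → M) (b : β → M) : ℝ :=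
  ce (U ×ˢ V) (fun s => a s.1 + b s.2) (fun s => decide (a s.1 = 0))

lemma hb_le_bit (U : Finset α) (V : Finset β) (hU : U.Nonempty) (hV : V.Nonempty) (a : α → M)
    (b : β → M) : hb U V a b ≤ h U (fun x => decide (a x = 0)) := by
  unfold hb
  refine (ce_le_h _ _ _).trans (le_of_eq ?_)
  exact h_fst U V hU hV (fun x => decide (a x = 0))

lemma ce_fst (U : Finset α) (V : Finset β) (hU : U.Nonempty) (hV : V.Nonempty) (a : α → M)
    (b : β → M) : ce (U ×ˢ V) (fun s => a s.1 + b s.2) (fun s => a s.1) =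
      h U a + h V b - h (U ×ˢ V) (fun s => a s.1 + b s.2) := by
  unfold ce
  rw [← h_prod U V hU hV a b]
  congr 1
  refine h_congr fun x _ y _ => ?_
  rw [Prod.mk.injEq, Prod.mk.injEq]
  beta_reduce
  constructor
  · rintro ⟨h1, h2⟩
    rw [h2] at h1
    exact ⟨h2, add_left_cancel h1⟩
  · rintro ⟨h1, h2⟩
    rw [h1, h2]
    exact ⟨rfl, rfl⟩

lemma hb_le_snd (U : Finset α) (V : Finset β) (hU : U.Nonempty) (hV : V.Nonempty) (a : α → M)
    (b : β → M) : hb U V a b ≤ h V b := by
  have h1 : hb U V a b ≤ ce (U ×ˢ V) (fun s => a s.1 + b s.2) (fun s => a s.1) := by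
    unfold hb
    refine ce_mono _ _ _ _ fun x _ y _ _ hxy => ?_
    show decide (a x.1 = 0) = decide (a y.1 = 0)
    have hxy' : a x.1 = a y.1 := hxy
    rw [hxy']
  rw [ce_fst U V hU hV] at h1
  have h2 := cell_left U V hV a b
  linarith

/-- the loss is at most the loss of the bit and of the exceptional part -/
lemma loss_le_hb (U : Finset α) (V : Finset β) (hU : U.Nonempty) (hV : V.Nonempty) (a : α → M)
    (b : β → M) : h U a + h V b - h (U ×ˢ V) (fun s => a s.1 + b s.2) ≤
      hb U V a b + (nz U a : ℝ) / U.card * h V b := by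
  have hUc : (0 : ℝ) < U.card := by exact_mod_cast card_pos.2 hU
  have hVc : (0 : ℝ) < V.card := by exact_mod_cast card_pos.2 hV
  set S := U ×ˢ V with hS
  set z : α × β → M := fun s => a s.1 + b s.2 with hz
  set d : α × β → Bool := fun s => decide (a s.1 = 0) with hd
  rw [← ce_fst U V hU hV]
  have e1 : ce S z (fun s => a s.1) = ce S z (fun s => (d s, a s.1)) := by
    unfold ce
    congr 1
    refine h_congr fun x _ y _ => ?_
    simp only [Prod.mk.injEq]
    constructor
    · rintro ⟨h1, h2⟩
      refine ⟨h1, ?_, h2⟩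
      simp only [hd, h2]
    · rintro ⟨h1, _, h2⟩
      exact ⟨h1, h2⟩
  rw [e1, ce_chain]
  have e2 : ce S (fun x => (z x, d x)) (fun s => a s.1) =
      ce S (fun x => (d x, z x)) (fun s => a s.1) :=
    ce_congr_left _ _ _ _ fun x _ y _ => by
      simp only [Prod.mk.injEq]
      tauto
  have e3 := ce_avg S d z (fun s => a s.1)
  have hSc : (S.card : ℝ) = U.card * V.card := by
    rw [hS, card_product]
    push_cast
    rfl
  have e4 : ∀ s ∈ S, ce (cl S d s) z (fun s => a s.1) ≤ if a s.1 ≠ 0 then h V b else 0 := by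
    intro s hs
    have hs' := mem_product.1 hs
    split_ifs with c
    · have e5 : cl S d s = (U.filter fun x => a x ≠ 0) ×ˢ V := by
        ext t
        rw [mem_cl, hS, mem_product, mem_product, mem_filter]
        simp only [hd, decide_eq_decide]
        tauto
      have hU1 : (U.filter fun x => a x ≠ 0).Nonempty := ⟨s.1, mem_filter.2 ⟨hs'.1, c⟩⟩
      rw [e5, ce_fst _ V hU1 hV]
      have := cell_left (U.filter fun x => a x ≠ 0) V hV a b
      linarith
    · refine le_of_eq (ce_const _ _ _ fun x hx y hy _ => ?_)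
      rw [not_not] at c
      have hx2 := (mem_cl.1 hx).2
      have hy2 := (mem_cl.1 hy).2
      simp only [hd, decide_eq_decide] at hx2 hy2
      rw [hx2.2 c, hy2.2 c]
  have e6 : (S.card : ℝ) * ce S (fun x => (d x, z x)) (fun s => a s.1) ≤
      nz U a * V.card * h V b := by
    rw [e3]
    refine (sum_le_sum e4).trans (le_of_eq ?_)
    rw [hS, sum_product]
    have e9 : ∀ x ∈ U, ∑ _y ∈ V, (if a x ≠ 0 then h V b else 0) =
        if a x ≠ 0 then V.card * h V b else 0 := by
      intro x _
      split_ifs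
      · rw [sum_const, nsmul_eq_mul]
      · rw [sum_const_zero]
    rw [sum_congr rfl e9, ← sum_filter, sum_const, nsmul_eq_mul]
    unfold nz
    ring
  have e7 : ce S (fun x => (z x, d x)) (fun s => a s.1) ≤ (nz U a : ℝ) / U.card * h V b := by
    rw [e2, div_mul_eq_mul_div, le_div_iff₀ hUc]
    rw [hSc] at e6
    have : V.card * (ce S (fun x => (d x, z x)) (fun s => a s.1) * U.card) ≤
        V.card * (nz U a * h V b) := by linarith
    exact le_of_mul_le_mul_left this hVc
  have e8 : ce S z d = hb U V a b := rfl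
  linarith

/-- the entropy of the bit from above -/
lemma bit_le (U : Finset α) (a : α → M) (hU : U.Nonempty) (hP : 0 < nz U a) :
    h U (fun x => decide (a x = 0)) ≤
      (nz U a : ℝ) / U.card * (1 + Real.log (U.card / nz U a)) := by
  have hN : (0 : ℝ) < U.card := by exact_mod_cast card_pos.2 hU
  have hPr : (0 : ℝ) < nz U a := by exact_mod_cast hP
  unfold h
  rw [div_mul_eq_mul_div]
  refine div_le_div_of_nonneg_right ?_ hN.le
  have e1 : ∀ x ∈ U, Real.log U.card - Real.log (fc U (fun x => decide (a x = 0)) x) ≤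
      (if a x ≠ 0 then Real.log (U.card / nz U a) else 0) +
      (if a x = 0 then (nz U a : ℝ) / ((U.card : ℝ) - nz U a) else 0) := by
    intro x hx
    have hfc := fc_posR (f := fun x => decide (a x = 0)) hx
    by_cases c : a x = 0
    · rw [if_neg (not_not.2 c), if_pos c, zero_add]
      have e2 : (fc U (fun x => decide (a x = 0)) x : ℝ) = U.card - nz U a := by
        have e3 : fc U (fun x => decide (a x = 0)) x + nz U a = U.card := by
          unfold fc nz
          rw [← card_filter_add_card_filter_not (s := U) (fun x => a x = 0)]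
          congr 2
          ext y
          rw [mem_cl, mem_filter, decide_eq_decide]
          simp [c]
        have e4 : (fc U (fun x => decide (a x = 0)) x : ℝ) + nz U a = U.card := by
          exact_mod_cast e3
        linarith
      rw [e2] at hfc ⊢
      rw [← Real.log_div hN.ne' hfc.ne']
      have e5 := Real.log_le_sub_one_of_pos (show 0 < (U.card : ℝ) / (U.card - nz U a) by positivity)
      refine e5.trans (le_of_eq ?_)
      rw [div_sub_one hfc.ne']
      congr 1
      ring
    · rw [if_pos c, if_neg c, add_zero]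
      have e2 : fc U (fun x => decide (a x = 0)) x = nz U a := by
        unfold fc nz
        congr 1
        ext y
        rw [mem_cl, mem_filter, decide_eq_decide]
        simp [c]
      rw [e2, Real.log_div hN.ne' hPr.ne']
  refine (sum_le_sum e1).trans ?_
  rw [sum_add_distrib, ← sum_filter, ← sum_filter, sum_const, sum_const, nsmul_eq_mul,
    nsmul_eq_mul]
  have e6 : ((U.filter fun x => a x = 0).card : ℝ) = U.card - nz U a := by
    have : (U.filter fun x => a x = 0).card + nz U a = U.card :=
      card_filter_add_card_filter_not _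
    have e4 : ((U.filter fun x => a x = 0).card : ℝ) + nz U a = U.card := by exact_mod_cast this
    linarith
  rw [e6]
  have e7 : ((U.card : ℝ) - nz U a) * (nz U a / ((U.card : ℝ) - nz U a)) ≤ nz U a := by
    rcases eq_or_ne ((U.card : ℝ) - nz U a) 0 with h0 | h0
    · rw [h0, zero_mul]
      exact hPr.le
    · rw [mul_div_cancel₀ _ h0]
  have e8 : ((U.filter fun x => a x ≠ 0).card : ℝ) = nz U a := rfl
  rw [e8]
  linarith

lemma h_bit_eq (U : Finset α) (a : α → M) : h U (fun x => decide (a x = 0)) =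
    h U (fun x => if a x = 0 then (0 : ℤ) else 1) := by
  refine h_congr fun x _ y _ => ?_
  rw [decide_eq_decide]
  by_cases c1 : a x = 0 <;> by_cases c2 : a y = 0 <;> simp [c1, c2]

/-- the entropy of the bit from below -/
lemma bit_ge (U : Finset α) (a : α → M) (hU : U.Nonempty) (hP : 0 < nz U a) :
    (nz U a : ℝ) / U.card * Real.log (U.card / nz U a) ≤ h U (fun x => decide (a x = 0)) := by
  have hN : (0 : ℝ) < U.card := by exact_mod_cast card_pos.2 hU
  have hPr : (0 : ℝ) < nz U a := by exact_mod_cast hP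
  rw [h_bit_eq]
  have e1 : nz U (fun x => if a x = 0 then (0 : ℤ) else 1) = nz U a := by
    unfold nz
    congr 1
    ext x
    simp
  have e2 := nz_log_le U (fun x => if a x = 0 then (0 : ℤ) else 1) hU
    (θ := nz U a / U.card) (by positivity) (by
      rw [e1, div_mul_cancel₀ _ hN.ne'])
  rw [e1, one_div_div] at e2
  rw [div_mul_eq_mul_div, div_le_iff₀ hN]
  linarith

lemma snd_ge (V : Finset β) (b : β → M) (hV : V.Nonempty) (hP : 0 < nz V b) :
    (nz V b : ℝ) / V.card * Real.log (V.card / nz V b) ≤ h V b := by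
  refine (bit_ge V b hV hP).trans (h_mono _ _ _ fun x _ y _ hxy => ?_)
  show decide (b x = 0) = decide (b y = 0)
  rw [hxy]

/-- **The small case.** -/
lemma hb_small (U : Finset α) (V : Finset β) (hU : U.Nonempty) (hV : V.Nonempty) (a : α → M)
    (b : β → M) (hP : 0 < nz U a) (hQ : 0 < nz V b) {η ζ : ℝ} (hη : η = (nz U a : ℝ) / U.card)
    (hζ : ζ = (nz V b : ℝ) / V.card) (hηζ : η * ζ ≤ 1 / 2) :
    hb U V a b ≤ η * ζ * Real.log (1 / (η * ζ)) + 2 * (η * ζ) + Real.log 2 * (η + ζ) := by
  have hN : (0 : ℝ) < U.card := by exact_mod_cast card_pos.2 hU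
  have hN' : (0 : ℝ) < V.card := by exact_mod_cast card_pos.2 hV
  have hPr : (0 : ℝ) < nz U a := by exact_mod_cast hP
  have hQr : (0 : ℝ) < nz V b := by exact_mod_cast hQ
  have hη0 : 0 < η := by rw [hη]; positivity
  have hζ0 : 0 < ζ := by rw [hζ]; positivity
  set ρ := η * ζ with hρ
  have hρ0 : 0 < ρ := mul_pos hη0 hζ0
  let W : M → Bool → ℝ := fun t c => if t = 0 then (if c = true then 1 - ρ else ρ) else 1 / 2
  have hW0 : ∀ t c, 0 < W t c := by
    intro t c
    simp only [W]
    split_ifs
    · linarith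
    · exact hρ0
    · norm_num
  have key := ce_le_kernel (U ×ˢ V) (fun s => a s.1 + b s.2) (fun s => decide (a s.1 = 0))
    (fun s => W (a s.1 + b s.2) (decide (a s.1 = 0))) (fun x _ => hW0 _ _) (by
      intro x _ y _ h1 h2
      show W (a x.1 + b x.2) (decide (a x.1 = 0)) = W (a y.1 + b y.2) (decide (a y.1 = 0))
      have h1' : a x.1 + b x.2 = a y.1 + b y.2 := h1
      have h2' : decide (a x.1 = 0) = decide (a y.1 = 0) := h2
      rw [h1', h2']) Finset.univ W (fun t c => (hW0 t c).le) (fun x _ => mem_univ _)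
    (fun x _ => rfl) (by
      intro t
      rw [Fintype.sum_bool]
      by_cases c1 : t = 0
      · have w1 : W t true = 1 - ρ := by simp [W, c1]
        have w2 : W t false = ρ := by simp [W, c1]
        rw [w1, w2]
        linarith
      · have w1 : W t true = 1 / 2 := by simp [W, c1]
        have w2 : W t false = 1 / 2 := by simp [W, c1]
        rw [w1, w2]
        norm_num)
  have hl2 : 0 ≤ Real.log 2 := Real.log_nonneg (by norm_num)
  have hlρ : 0 ≤ Real.log (1 / ρ) := Real.log_nonneg (by
    rw [le_div_iff₀ hρ0]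
    linarith)
  have e1 : ∀ x ∈ U, ∀ y ∈ V, -Real.log (W (a x + b y) (decide (a x = 0))) ≤
      (if a x ≠ 0 then 1 else 0) * (if b y ≠ 0 then 1 else 0) * Real.log (1 / ρ) + 2 * ρ +
      Real.log 2 * ((if a x ≠ 0 then 1 else 0) + (if b y ≠ 0 then 1 else 0)) := by
    intro x _ y _
    by_cases cz : a x + b y = 0
    · by_cases ca : a x = 0
      · have cb : b y = 0 := by rwa [ca, zero_add] at cz
        have w1 : W (a x + b y) (decide (a x = 0)) = 1 - ρ := by
          simp [W, ca, cb]
        rw [w1, if_neg (not_not.2 ca), if_neg (not_not.2 cb)]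
        have e2 := Real.log_le_sub_one_of_pos (show (0 : ℝ) < 1 / (1 - ρ) by
          have : 0 < 1 - ρ := by linarith
          positivity)
        rw [Real.log_div one_ne_zero (by linarith), Real.log_one] at e2
        have e3 : 1 / (1 - ρ) - 1 ≤ 2 * ρ := by
          rw [sub_le_iff_le_add, div_le_iff₀ (by linarith)]
          nlinarith only [hηζ, hρ0]
        linarith
      · have cb : b y ≠ 0 := by
          intro cb
          rw [cb, add_zero] at cz
          exact ca cz
        have w1 : W (a x + b y) (decide (a x = 0)) = ρ := by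
          simp [W, cz, ca]
        rw [w1, if_pos ca, if_pos cb, one_div, Real.log_inv]
        have : 0 ≤ Real.log 2 * (1 + 1) := by positivity
        linarith
    · have e4 : W (a x + b y) (decide (a x = 0)) = 1 / 2 := if_neg cz
      rw [e4, one_div, Real.log_inv, neg_neg]
      have e5 : (1 : ℝ) ≤ (if a x ≠ 0 then 1 else 0) + (if b y ≠ 0 then 1 else 0) := by
        by_cases ca : a x = 0
        · have cb : b y ≠ 0 := by
            intro cb
            exact cz (by rw [ca, cb, add_zero])
          rw [if_neg (not_not.2 ca), if_pos cb]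
          norm_num
        · rw [if_pos ca]
          have : (0 : ℝ) ≤ (if b y ≠ 0 then 1 else 0) := by split_ifs <;> norm_num
          linarith
      have e6 : (0 : ℝ) ≤ (if a x ≠ 0 then 1 else 0) * (if b y ≠ 0 then 1 else 0) *
          Real.log (1 / ρ) := by
        refine mul_nonneg (mul_nonneg ?_ ?_) hlρ <;> split_ifs <;> norm_num
      have e7 := mul_le_mul_of_nonneg_left e5 hl2
      linarith
  have e8 : ∑ s ∈ U ×ˢ V, -Real.log (W (a s.1 + b s.2) (decide (a s.1 = 0))) ≤
      nz U a * nz V b * Real.log (1 / ρ) + U.card * V.card * (2 * ρ) +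
      Real.log 2 * (nz U a * V.card + U.card * nz V b) := by
    rw [sum_product]
    refine (sum_le_sum fun x hx => sum_le_sum fun y hy => e1 x hx y hy).trans (le_of_eq ?_)
    have su : ∑ x ∈ U, (if a x ≠ 0 then (1 : ℝ) else 0) = nz U a := by
      rw [← sum_filter, sum_const, nsmul_eq_mul, mul_one]
      rfl
    have sv : ∑ x ∈ V, (if b x ≠ 0 then (1 : ℝ) else 0) = nz V b := by
      rw [← sum_filter, sum_const, nsmul_eq_mul, mul_one]
      rfl
    have inner : ∀ x ∈ U, ∑ y ∈ V, ((if a x ≠ 0 then (1 : ℝ) else 0) *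
        (if b y ≠ 0 then 1 else 0) * Real.log (1 / ρ) + 2 * ρ +
        Real.log 2 * ((if a x ≠ 0 then 1 else 0) + (if b y ≠ 0 then 1 else 0))) =
        (if a x ≠ 0 then (1 : ℝ) else 0) * (nz V b * Real.log (1 / ρ) + Real.log 2 * V.card) +
        (V.card * (2 * ρ) + Real.log 2 * nz V b) := by
      intro x _
      have e20 : ∀ y ∈ V, ((if a x ≠ 0 then (1 : ℝ) else 0) *
        (if b y ≠ 0 then 1 else 0) * Real.log (1 / ρ) + 2 * ρ +
        Real.log 2 * ((if a x ≠ 0 then 1 else 0) + (if b y ≠ 0 then 1 else 0))) =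
        ((if a x ≠ 0 then (1 : ℝ) else 0) * Real.log (1 / ρ) + Real.log 2) *
          (if b y ≠ 0 then 1 else 0) + (2 * ρ + Real.log 2 * (if a x ≠ 0 then 1 else 0)) := by
        intro y _
        ring
      rw [sum_congr rfl e20, sum_add_distrib, ← mul_sum, sv, sum_const, nsmul_eq_mul]
      ring
    rw [sum_congr rfl inner, sum_add_distrib, ← sum_mul, su, sum_const, nsmul_eq_mul]
    ring
  have e9 := key.trans e8
  rw [card_product] at e9
  push_cast at e9
  have e10 : hb U V a b = ce (U ×ˢ V) (fun s => a s.1 + b s.2) (fun s => decide (a s.1 = 0)) := rfl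
  rw [← e10] at e9
  have e11 : (nz U a : ℝ) = η * U.card := by rw [hη, div_mul_cancel₀ _ hN.ne']
  have e12 : (nz V b : ℝ) = ζ * V.card := by rw [hζ, div_mul_cancel₀ _ hN'.ne']
  rw [e11, e12] at e9
  have e13 : (U.card : ℝ) * V.card * hb U V a b ≤ (U.card : ℝ) * V.card *
      (ρ * Real.log (1 / ρ) + 2 * ρ + Real.log 2 * (η + ζ)) := by
    refine e9.trans (le_of_eq ?_)
    rw [hρ]
    ring
  exact le_of_mul_le_mul_left e13 (mul_pos hN hN')

lemma log_two_le_one : Real.log 2 ≤ 1 := by
  have := Real.log_le_sub_one_of_pos (show (0 : ℝ) < 2 by norm_num)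
  linarith

/-- the number `x (1 + log (1/x))` is at most `2 √x` -/
lemma ent_le_sqrt {x : ℝ} (hx : 0 < x) : x * (1 + Real.log (1 / x)) ≤ 2 * Real.sqrt x := by
  have hs : 0 < Real.sqrt x := Real.sqrt_pos.2 hx
  have h1 : Real.log (1 / x) = 2 * Real.log (1 / Real.sqrt x) := by
    rw [Real.log_div one_ne_zero hx.ne', Real.log_div one_ne_zero hs.ne', Real.log_one]
    have : Real.log x = 2 * Real.log (Real.sqrt x) := by
      rw [Real.log_sqrt hx.le]
      ring
    rw [this]
    ring
  have h2 := Real.log_le_sub_one_of_pos (show 0 < 1 / Real.sqrt x by positivity)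
  have h3 : x = Real.sqrt x * Real.sqrt x := (Real.mul_self_sqrt hx.le).symm
  have h4 : x * (1 / Real.sqrt x) = Real.sqrt x := by
    nth_rewrite 1 [h3]
    field_simp
  have h5 : x * (1 + Real.log (1 / x)) ≤ x * (1 + 2 * (1 / Real.sqrt x - 1)) := by
    refine mul_le_mul_of_nonneg_left ?_ hx.le
    rw [h1]
    linarith
  have h6 : x * (1 + 2 * (1 / Real.sqrt x - 1)) = 2 * (x * (1 / Real.sqrt x)) - x := by ring
  rw [h6, h4] at h5
  linarith

/-- **The bit lemma.** -/
theorem bit_lemma {δ : ℝ} (hδ : 0 < δ) (hδ1 : δ ≤ 1) : ∃ C : ℝ, 1 ≤ C ∧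
    ∀ {α β M : Type} [AddCommGroup M] (U : Finset α) (V : Finset β), U.Nonempty → V.Nonempty →
    ∀ (a : α → M) (b : β → M), hb U V a b ≤
      δ * (h U (fun x => decide (a x = 0)) + h V b) + C * ((nz U a : ℝ) / U.card) * h V b := by
  set τ : ℝ := Real.exp (-(8 / δ)) with hτ
  have hτ0 : 0 < τ := Real.exp_pos _
  have h8 : 8 ≤ 8 / δ := by
    rw [le_div_iff₀ hδ]
    linarith
  have hτ1 : τ ≤ δ / 8 := by
    have h1 := Real.add_one_le_exp (8 / δ)
    rw [hτ, Real.exp_neg]
    have h2 : 8 / δ ≤ Real.exp (8 / δ) := by linarith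
    have h3 : 0 < 8 / δ := by positivity
    calc (Real.exp (8 / δ))⁻¹ ≤ (8 / δ)⁻¹ := inv_anti₀ h3 h2
      _ = δ / 8 := by rw [inv_div]
  have hlogτ : Real.log (1 / τ) = 8 / δ := by
    rw [one_div, Real.log_inv, hτ, Real.log_exp, neg_neg]
  set τ₁ : ℝ := (δ * τ / 2) ^ 2 with hτ₁
  have hτ₁0 : 0 < τ₁ := by positivity
  have hδτ : δ * τ ≤ 1 := by nlinarith
  have hτ₁τ : τ₁ ≤ τ := by
    rw [hτ₁]
    have h1 : δ * τ / 2 ≤ 1 := by linarith
    have h2 : δ * τ / 2 ≤ τ := by nlinarith
    have h3 : 0 ≤ δ * τ / 2 := by positivity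
    nlinarith
  have hτ18 : τ ≤ 1 / 8 := by linarith
  refine ⟨1 / τ₁, ?_, ?_⟩
  · rw [le_div_iff₀ hτ₁0]
    linarith
  intro α β M _ U V hU hV a b
  have hN : (0 : ℝ) < U.card := by exact_mod_cast card_pos.2 hU
  have hN' : (0 : ℝ) < V.card := by exact_mod_cast card_pos.2 hV
  set H1 := h U (fun x => decide (a x = 0)) with hH1
  set H2 := h V b with hH2
  have hH10 : 0 ≤ H1 := h_nonneg _ _
  have hH20 : 0 ≤ H2 := h_nonneg _ _
  set η : ℝ := (nz U a : ℝ) / U.card with hη
  have hη0' : 0 ≤ η := by positivity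
  have b1 : hb U V a b ≤ H1 := hb_le_bit U V hU hV a b
  have b2 : hb U V a b ≤ H2 := hb_le_snd U V hU hV a b
  have hD : 0 ≤ δ * (H1 + H2) := by positivity
  have hE : 0 ≤ 1 / τ₁ * η * H2 := by positivity
  rcases le_or_gt τ₁ η with hbig | hsmall
  · -- the bit is often nonzero
    have h1 : 1 ≤ 1 / τ₁ * η := by
      rw [one_div_mul_eq_div, le_div_iff₀ hτ₁0]
      linarith
    have h2 := mul_le_mul_of_nonneg_right h1 hH20
    linarith
  rcases Nat.eq_zero_or_pos (nz U a) with hP0 | hP
  · -- the bit is constant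
    have h1 : H1 = 0 := by
      refine h_const _ _ fun x hx y hy => ?_
      have hz : ∀ x ∈ U, a x = 0 := by
        intro x hx
        by_contra hne
        have : 0 < nz U a := card_pos.2 ⟨x, mem_filter.2 ⟨hx, hne⟩⟩
        omega
      rw [hz x hx, hz y hy]
    linarith
  have hPr : (0 : ℝ) < nz U a := by exact_mod_cast hP
  have hη0 : 0 < η := by positivity
  by_cases hatom : ∃ y ∈ V, (1 - τ) * V.card ≤ (fc V b y : ℝ)
  · -- `b` has an atom
    obtain ⟨y, hy, hy1⟩ := hatom
    set b' : β → M := fun v => b v - b y with hb'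
    have hH2' : h V b' = H2 := h_congr fun x _ x' _ => by
      show b x - b y = b x' - b y ↔ b x = b x'
      exact sub_left_inj
    have hbb : hb U V a b = hb U V a b' := by
      unfold hb
      refine ce_congr_left _ _ _ _ fun x _ x' _ => ?_
      show a x.1 + b x.2 = a x'.1 + b x'.2 ↔ a x.1 + (b x.2 - b y) = a x'.1 + (b x'.2 - b y)
      rw [← add_sub_assoc, ← add_sub_assoc, sub_left_inj]
    rcases Nat.eq_zero_or_pos (nz V b') with hQ0 | hQ
    · have h1 : H2 = 0 := by
        rw [← hH2']
        refine h_const _ _ fun x hx x' hx' => ?_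
        have hz : ∀ x ∈ V, b' x = 0 := by
          intro x hx
          by_contra hne
          have : 0 < nz V b' := card_pos.2 ⟨x, mem_filter.2 ⟨hx, hne⟩⟩
          omega
        rw [hz x hx, hz x' hx']
      linarith
    have hQr : (0 : ℝ) < nz V b' := by exact_mod_cast hQ
    set ζ : ℝ := (nz V b' : ℝ) / V.card with hζ
    have hζ0 : 0 < ζ := by positivity
    have hζ1 : ζ ≤ τ := by
      rw [hζ, div_le_iff₀ hN']
      have e1 : fc V b y + nz V b' = V.card := by
        unfold fc nz cl
        rw [← card_filter_add_card_filter_not (s := V) (fun x => b x = b y)]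
        congr 2
        ext x
        simp only [mem_filter, hb', sub_ne_zero, ne_eq]
      have e2 : (fc V b y : ℝ) + nz V b' = V.card := by exact_mod_cast e1
      linarith
    have hηlt : η ≤ τ := hsmall.le.trans hτ₁τ
    have hηζ : η * ζ ≤ 1 / 2 := by
      have : η * ζ ≤ τ * 1 := mul_le_mul hηlt (by linarith) hζ0.le hτ0.le
      linarith
    have key := hb_small U V hU hV a b' hP hQ rfl rfl hηζ
    rw [← hbb] at key
    have g1 := bit_ge U a hU hP
    have g2 := snd_ge V b' hV hQ
    rw [hH2'] at g2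
    have i1 : (U.card : ℝ) / nz U a = 1 / η := by rw [hη, one_div_div]
    have i2 : (V.card : ℝ) / nz V b' = 1 / ζ := by rw [hζ, one_div_div]
    rw [i1] at g1
    rw [i2] at g2
    change η * Real.log (1 / η) ≤ H1 at g1
    change ζ * Real.log (1 / ζ) ≤ H2 at g2
    have l1 : 8 / δ ≤ Real.log (1 / η) := by
      rw [← hlogτ]
      exact Real.log_le_log (by positivity) (one_div_le_one_div_of_le hη0 hηlt)
    have l2 : 8 / δ ≤ Real.log (1 / ζ) := by
      rw [← hlogτ]
      exact Real.log_le_log (by positivity) (one_div_le_one_div_of_le hζ0 hζ1)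
    have m1 : η ≤ δ / 8 * H1 := by
      have : η * (8 / δ) ≤ H1 := (mul_le_mul_of_nonneg_left l1 hη0.le).trans g1
      have h3 : η * (8 / δ) * (δ / 8) = η := by field_simp
      have h4 := mul_le_mul_of_nonneg_right this (show 0 ≤ δ / 8 by positivity)
      rw [h3] at h4
      linarith
    have m2 : ζ ≤ δ / 8 * H2 := by
      have : ζ * (8 / δ) ≤ H2 := (mul_le_mul_of_nonneg_left l2 hζ0.le).trans g2
      have h3 : ζ * (8 / δ) * (δ / 8) = ζ := by field_simp
      have h4 := mul_le_mul_of_nonneg_right this (show 0 ≤ δ / 8 by positivity)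
      rw [h3] at h4
      linarith
    have lsplit : Real.log (1 / (η * ζ)) = Real.log (1 / η) + Real.log (1 / ζ) := by
      rw [← Real.log_mul (by positivity) (by positivity), one_div_mul_one_div]
    have n1 : η * ζ * Real.log (1 / (η * ζ)) ≤ δ / 8 * (H1 + H2) := by
      rw [lsplit]
      have q1 : ζ * (η * Real.log (1 / η)) ≤ δ / 8 * H1 :=
        mul_le_mul (hζ1.trans hτ1) g1 (by
          have : 0 ≤ Real.log (1 / η) := le_trans (by positivity) l1
          positivity) (by positivity)
      have q2 : η * (ζ * Real.log (1 / ζ)) ≤ δ / 8 * H2 :=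
        mul_le_mul (hηlt.trans hτ1) g2 (by
          have : 0 ≤ Real.log (1 / ζ) := le_trans (by positivity) l2
          positivity) (by positivity)
      have q3 : η * ζ * (Real.log (1 / η) + Real.log (1 / ζ)) =
        ζ * (η * Real.log (1 / η)) + η * (ζ * Real.log (1 / ζ)) := by ring
      rw [q3]
      linarith
    have n2 : 2 * (η * ζ) ≤ 2 * (δ / 8 * H1) := by
      have : η * ζ ≤ η * 1 := mul_le_mul_of_nonneg_left (by linarith) hη0.le
      linarith
    have n3 : Real.log 2 * (η + ζ) ≤ δ / 8 * (H1 + H2) := by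
      have : Real.log 2 * (η + ζ) ≤ 1 * (η + ζ) :=
        mul_le_mul_of_nonneg_right log_two_le_one (by positivity)
      linarith
    have hf : hb U V a b ≤ δ * (H1 + H2) := by
      have p1 : 0 ≤ δ * H1 := by positivity
      have p2 : 0 ≤ δ * H2 := by positivity
      linarith only [key, n1, n2, n3, p1, p2]
    linarith only [hf, hE]
  · -- `b` has no atom
    push Not at hatom
    have h1 : τ ≤ H2 := by
      have e1 : (V.card : ℝ) * τ ≤ ∑ x ∈ V, (Real.log V.card - Real.log (fc V b x)) := by
        rw [← nsmul_eq_mul, ← sum_const]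
        refine sum_le_sum fun x hx => ?_
        have e2 := Real.log_le_log (fc_posR hx) (hatom x hx).le
        rw [Real.log_mul (by linarith) hN'.ne'] at e2
        have e3 := Real.log_le_sub_one_of_pos (show 0 < 1 - τ by linarith)
        linarith
      rw [hH2]
      unfold h
      rw [le_div_iff₀ hN']
      linarith
    have h2 : H1 ≤ δ * τ := by
      refine (bit_le U a hU hP).trans ?_
      have i1 : (U.card : ℝ) / nz U a = 1 / η := by rw [hη, one_div_div]
      rw [i1]
      change η * (1 + Real.log (1 / η)) ≤ _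
      refine (ent_le_sqrt hη0).trans ?_
      have e1 : Real.sqrt η ≤ Real.sqrt τ₁ := Real.sqrt_le_sqrt hsmall.le
      have e2 : Real.sqrt τ₁ = δ * τ / 2 := by
        rw [hτ₁, Real.sqrt_sq (by positivity)]
      linarith
    have h3 : δ * τ ≤ δ * H2 := mul_le_mul_of_nonneg_left h1 hδ.le
    have h4 : 0 ≤ δ * H1 := by positivity
    linarith

/-- **The loss lemma**, with an arbitrary reference value. -/
theorem loss_lemma {δ : ℝ} (hδ : 0 < δ) (hδ1 : δ ≤ 1) : ∃ C : ℝ, 1 ≤ C ∧
    ∀ {α β M : Type} [AddCommGroup M] (U : Finset α) (V : Finset β), U.Nonempty → V.Nonempty →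
    ∀ (a : α → M) (b : β → M) (a₀ : M),
      h U a + h V b - h (U ×ˢ V) (fun s => a s.1 + b s.2) ≤ δ * (h U a + h V b) +
        C * (((U.filter fun x => a x ≠ a₀).card : ℝ) / U.card) * h V b := by
  obtain ⟨C, hC1, hC⟩ := bit_lemma hδ hδ1
  refine ⟨C + 1, by linarith, ?_⟩
  intro α β M _ U V hU hV a b a₀
  set a' : α → M := fun x => a x - a₀ with ha'
  have e1 : h U a' = h U a := h_congr fun x _ y _ => by
    show a x - a₀ = a y - a₀ ↔ a x = a y
    exact sub_left_inj
  have e2 : h (U ×ˢ V) (fun s => a' s.1 + b s.2) = h (U ×ˢ V) (fun s => a s.1 + b s.2) :=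
    h_congr fun x _ y _ => by
      show a x.1 - a₀ + b x.2 = a y.1 - a₀ + b y.2 ↔ a x.1 + b x.2 = a y.1 + b y.2
      rw [sub_add_eq_add_sub, sub_add_eq_add_sub, sub_left_inj]
  have e3 : nz U a' = (U.filter fun x => a x ≠ a₀).card := by
    unfold nz
    congr 1
    ext x
    simp only [mem_filter, ha', ne_eq, sub_eq_zero]
  have h1 := loss_le_hb U V hU hV a' b
  have h2 := hC U V hU hV a' b
  have h3 : h U (fun x => decide (a' x = 0)) ≤ h U a := by
    rw [← e1]
    refine h_mono _ _ _ fun x _ y _ hxy => ?_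
    show decide (a' x = 0) = decide (a' y = 0)
    rw [hxy]
  rw [e1, e2] at h1
  rw [e3] at h1 h2
  have h4 := mul_le_mul_of_nonneg_left h3 hδ.le
  set r : ℝ := ((U.filter fun x => a x ≠ a₀).card : ℝ) / U.card
  have h5 : (C + 1) * r * h V b = C * r * h V b + r * h V b := by ring
  linarith

end Pool.Agent.T2H12.KF
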