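import Mathlib
import Pool.Agent.T2H12.KF.Bit

/-!
# The loss of a pair of finite sets of integers
-/

set_option autoImplicit false

namespace Pool.Agent.T2H12.KF

open Finset
open scoped Classical
open Pool.Agent.Y359.PE

/-- the loss of entropy in the sum of independent uniformly distributed elements -/
noncomputable def lo (U V : Finset ℤ) : ℝ :=
  Real.log U.card + Real.log V.card - h (U ×ˢ V) (fun s => s.1 + s.2)

lemma h_id {α : Type*} (U : Finset α) : h U (fun x => x) = Real.log U.card :=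
  h_inj U _ fun _ _ _ _ hxy => hxy

lemma sum_log_cl {α β : Type*} (U : Finset α) (f : α → β) :
    ∑ x ∈ U, Real.log (cl U f x).card = U.card * (Real.log U.card - h U f) := by
  rcases U.eq_empty_or_nonempty with h0 | hU
  · subst h0
    simp
  have hc : (0 : ℝ) < U.card := by exact_mod_cast card_pos.2 hU
  have e1 : (U.card : ℝ) * h U f = ∑ x ∈ U, (Real.log U.card - Real.log (fc U f x)) := by
    unfold h
    rw [mul_div_cancel₀ _ hc.ne']
  rw [mul_sub, e1, sum_sub_distrib, sum_const, nsmul_eq_mul]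
  have e2 : ∑ x ∈ U, Real.log (fc U f x) = ∑ x ∈ U, Real.log (cl U f x).card := rfl
  rw [e2]
  ring

lemma lo_le_left {U V : Finset ℤ} (hU : U.Nonempty) (hV : V.Nonempty) :
    lo U V ≤ Real.log U.card := by
  have h1 := cell_right U V hU (fun x : ℤ => x) (fun x : ℤ => x)
  rw [h_id] at h1
  unfold lo
  linarith

lemma lo_le_right {U V : Finset ℤ} (hU : U.Nonempty) (hV : V.Nonempty) :
    lo U V ≤ Real.log V.card := by
  have h1 := cell_left U V hV (fun x : ℤ => x) (fun x : ℤ => x)
  rw [h_id] at h1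
  unfold lo
  linarith

lemma h_le_log_card {α β : Type*} (S : Finset α) (f : α → β) : h S f ≤ Real.log S.card := by
  rw [← h_id S]
  refine h_mono S _ _ fun x _ y _ hxy => ?_
  have hxy' : x = y := hxy
  rw [hxy']

/-- **One digit.** -/
theorem lo_step (q : ℕ) (U V : Finset ℤ) (hU : U.Nonempty) (hV : V.Nonempty) :
    (U.card : ℝ) * V.card * lo U V ≤
      U.card * V.card * (h U (fun x => (x : ZMod q)) + h V (fun x => (x : ZMod q)) -
        h (U ×ˢ V) (fun s => ((s.1 : ZMod q) + (s.2 : ZMod q)))) +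
      ∑ x ∈ U, ∑ y ∈ V, lo (cl U (fun x => (x : ZMod q)) x) (cl V (fun x => (x : ZMod q)) y) := by
  have hUc : (0 : ℝ) < U.card := by exact_mod_cast card_pos.2 hU
  have hVc : (0 : ℝ) < V.card := by exact_mod_cast card_pos.2 hV
  set c : ℤ → ZMod q := fun x => (x : ZMod q) with hc
  set S := U ×ˢ V with hS
  set z : ℤ × ℤ → ℤ := fun s => s.1 + s.2 with hz
  have hSc : (S.card : ℝ) = U.card * V.card := by
    rw [hS, card_product]
    push_cast
    rfl
  have hSc0 : (0 : ℝ) < S.card := by
    rw [hSc]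
    positivity
  have e1 : h S (fun s => (c (z s), z s)) = h S z := h_congr fun x _ y _ => by
    rw [Prod.mk.injEq]
    exact ⟨fun h1 => h1.2, fun h1 => ⟨by rw [h1], h1⟩⟩
  have e2 : ce S (fun s => (c s.1, c s.2)) z ≤ ce S (fun s => c (z s)) z := by
    refine ce_anti _ _ _ _ fun x _ y _ hxy => ?_
    rw [Prod.mk.injEq] at hxy
    simp only [hz, hc, Int.cast_add] at hxy ⊢
    rw [hxy.1, hxy.2]
  have e3 : ce S (fun s => c (z s)) z = h S z - h S (fun s => c (z s)) := by
    unfold ce
    rw [e1]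
  have e4 : ce S (fun s => (c s.1, c s.2)) z =
      (∑ s ∈ S, h (cl S (fun s => (c s.1, c s.2)) s) z) / S.card := chain _ _ _
  have e5 : ∑ s ∈ S, h (cl S (fun s => (c s.1, c s.2)) s) z =
      ∑ x ∈ U, ∑ y ∈ V, (Real.log (cl U c x).card + Real.log (cl V c y).card -
        lo (cl U c x) (cl V c y)) := by
    rw [hS, sum_product]
    refine sum_congr rfl fun x _ => sum_congr rfl fun y _ => ?_
    rw [cl_prod]
    unfold lo
    ring
  have e6 : (fun s : ℤ × ℤ => ((s.1 : ZMod q) + (s.2 : ZMod q))) = fun s => c (z s) := by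
    funext s
    simp only [hz, hc, Int.cast_add]
  rw [e6]
  have e7 : ∑ x ∈ U, ∑ y ∈ V, (Real.log (cl U c x).card + Real.log (cl V c y).card -
        lo (cl U c x) (cl V c y)) =
      U.card * V.card * (Real.log U.card - h U c) + U.card * V.card * (Real.log V.card - h V c) -
        ∑ x ∈ U, ∑ y ∈ V, lo (cl U c x) (cl V c y) := by
    simp only [sum_sub_distrib, sum_add_distrib, sum_const, nsmul_eq_mul, sum_log_cl, ← mul_sum]
    ring
  rw [e5, e7] at e4
  have e8 : (∑ x ∈ U, ∑ y ∈ V, lo (cl U c x) (cl V c y)) = U.card * V.card *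
      (Real.log U.card - h U c) + U.card * V.card * (Real.log V.card - h V c) -
      S.card * ce S (fun s => (c s.1, c s.2)) z := by
    rw [e4, mul_div_cancel₀ _ hSc0.ne']
    ring
  rw [e8, hSc]
  have e9 : lo U V = Real.log U.card + Real.log V.card - h S z := rfl
  rw [e9]
  have e10 : ce S (fun s => (c s.1, c s.2)) z ≤ h S z - h S (fun s => c (z s)) := by
    rw [← e3]
    exact e2
  have e11 := mul_le_mul_of_nonneg_left e10 (mul_pos hUc hVc).le
  linarith

/-- sums over a partition -/
lemma avg_part {α : Type*} (S : Finset α) (C : α → Finset α) (hsub : ∀ x ∈ S, C x ⊆ S)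
    (hself : ∀ x ∈ S, x ∈ C x) (hcong : ∀ x ∈ S, ∀ y ∈ C x, C y = C x) (F : α → ℝ) :
    ∑ x ∈ S, (∑ y ∈ C x, F y) / (C x).card = ∑ y ∈ S, F y := by
  rw [← avg_cl S C F]
  refine sum_congr rfl fun x hx => ?_
  have : cl S C x = C x := by
    ext y
    rw [mem_cl]
    constructor
    · rintro ⟨h1, h2⟩
      rw [← h2]
      exact hself y h1
    · intro h1
      exact ⟨hsub x hx h1, hcong x hx y h1⟩
  unfold fc
  rw [this]

end Pool.Agent.T2H12.KF
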