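import Mathlib
import Pool.Agent.T2H12.KF.Lo

/-!
# The digit process of one prime
-/

set_option autoImplicit false

namespace Pool.Agent.T2H12.KF

open Finset
open scoped Classical
open Pool.Agent.Y359.PE

/-- the data of a stage: `x = γ x * G x`, where `p` divides `γ x` exactly `v x` times -/
structure Dt where
  p : ℕ
  hp : p.Prime
  γ : ℤ → ℤ
  G : ℤ → ℤ
  v : ℤ → ℕ
  U : Finset ℤ
  V : Finset ℤ
  K : ℝ
  hK : 0 ≤ K
  hU : U.Nonempty
  hV : V.Nonempty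
  h1 : ∀ x ∈ U, ∀ x' ∈ U, γ x = γ x' → v x = v x'
  h2 : ∀ x ∈ U, ∀ x' ∈ U, γ x = γ x' → ∀ l : ℕ,
    ((p : ℤ) ^ l ∣ x - x' ↔ (p : ℤ) ^ (l - v x) ∣ G x - G x')

namespace Dt

variable (D : Dt)

/-- the elements with the same first digits of `G` -/
noncomputable def uu (m : ℕ) (x : ℤ) : Finset ℤ :=
  D.U.filter fun x' => (D.p : ℤ) ^ m ∣ D.G x' - D.G x

lemma mem_uu {m : ℕ} {x y : ℤ} : y ∈ D.uu m x ↔ y ∈ D.U ∧ (D.p : ℤ) ^ m ∣ D.G y - D.G x := by
  simp [uu]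

lemma uu_congr {m : ℕ} {x y : ℤ} (h : (D.p : ℤ) ^ m ∣ D.G y - D.G x) : D.uu m y = D.uu m x := by
  ext z
  rw [mem_uu, mem_uu]
  refine and_congr_right fun _ => ?_
  constructor
  · intro h3
    have := dvd_add h3 h
    rwa [sub_add_sub_cancel] at this
  · intro h3
    have := dvd_sub h3 h
    rwa [sub_sub_sub_cancel_right] at this

lemma self_mem_uu {m : ℕ} {x : ℤ} (hx : x ∈ D.U) : x ∈ D.uu m x := by
  rw [mem_uu, sub_self]
  exact ⟨hx, dvd_zero _⟩

/-- the stopping condition -/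
def cond (m : ℕ) (x : ℤ) : Prop :=
  ((D.uu m x).card : ℝ) * Real.exp D.K ≤ D.U.card ∨ ∀ y ∈ D.uu m x, D.G y = D.G x

lemma cond_congr {m : ℕ} {x y : ℤ} (hx : x ∈ D.U) (hy : y ∈ D.U)
    (h : (D.p : ℤ) ^ m ∣ D.G y - D.G x) : D.cond m x ↔ D.cond m y := by
  unfold cond
  rw [D.uu_congr h]
  refine or_congr_right ?_
  constructor
  · intro h3 z hz
    rw [h3 z hz]
    exact (h3 y (by rw [← D.uu_congr h]; exact D.self_mem_uu hy)).symm
  · intro h3 z hz
    rw [h3 z hz]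
    exact (h3 x (D.self_mem_uu hx)).symm

lemma exists_cond (x : ℤ) : ∃ m, D.cond m x := by
  refine ⟨∑ y ∈ D.U, (D.G y - D.G x).natAbs, Or.inr fun y hy => ?_⟩
  obtain ⟨h1, h2⟩ := D.mem_uu.1 hy
  by_contra hne
  have h3 : D.G y - D.G x ≠ 0 := sub_ne_zero.2 hne
  have h4 := Nat.le_of_dvd (Int.natAbs_pos.2 h3) (Int.natAbs_dvd_natAbs.2 h2)
  rw [Int.natAbs_pow, Int.natAbs_natCast] at h4
  have h5 : (D.G y - D.G x).natAbs ≤ ∑ y ∈ D.U, (D.G y - D.G x).natAbs :=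
    single_le_sum (f := fun y => (D.G y - D.G x).natAbs) (fun _ _ => Nat.zero_le _) h1
  have h6 := Nat.lt_pow_self D.hp.one_lt (n := ∑ y ∈ D.U, (D.G y - D.G x).natAbs)
  omega

/-- the stopping time -/
noncomputable def ex (x : ℤ) : ℕ := Nat.find (D.exists_cond x)

lemma cond_ex (x : ℤ) : D.cond (D.ex x) x := Nat.find_spec (D.exists_cond x)

lemma lt_ex {m : ℕ} {x : ℤ} : m < D.ex x ↔ ∀ j ≤ m, ¬ D.cond j x := by
  unfold ex
  exact Nat.lt_find_iff (D.exists_cond x) m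

lemma lt_ex_congr {m : ℕ} {x y : ℤ} (hx : x ∈ D.U) (hy : y ∈ D.U)
    (h : (D.p : ℤ) ^ m ∣ D.G y - D.G x) : m < D.ex x ↔ m < D.ex y := by
  rw [lt_ex, lt_ex]
  refine forall₂_congr fun j hj => not_congr ?_
  exact D.cond_congr hx hy ((pow_dvd_pow _ hj).trans h)

lemma min_ex_congr {m : ℕ} {x y : ℤ} (hx : x ∈ D.U) (hy : y ∈ D.U)
    (h : (D.p : ℤ) ^ m ∣ D.G y - D.G x) : min (D.ex x) m = min (D.ex y) m := by
  refine le_antisymm ?_ ?_
  · refine le_min ?_ (min_le_right _ _)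
    by_contra hlt
    rw [not_le, lt_min_iff] at hlt
    have h3 := (D.lt_ex_congr hx hy ((pow_dvd_pow _ hlt.2.le).trans h)).1 hlt.1
    exact lt_irrefl _ h3
  · refine le_min ?_ (min_le_right _ _)
    by_contra hlt
    rw [not_le, lt_min_iff] at hlt
    have h3 := (D.lt_ex_congr hx hy ((pow_dvd_pow _ hlt.2.le).trans h)).2 hlt.1
    exact lt_irrefl _ h3

lemma min_ex_congr' {m : ℕ} {x y : ℤ} (hx : x ∈ D.U) (hy : y ∈ D.U)
    (h : (D.p : ℤ) ^ (min (D.ex x) m) ∣ D.G y - D.G x) : min (D.ex x) m = min (D.ex y) m := by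
  rcases le_total m (D.ex x) with h3 | h3
  · rw [min_eq_right h3] at h
    exact D.min_ex_congr hx hy h
  · rw [min_eq_left h3] at h
    have h4 := (D.cond_congr hx hy h).1 (D.cond_ex x)
    have h5 : D.ex y ≤ D.ex x := by
      unfold ex at h4 ⊢
      exact Nat.find_min' _ h4
    have h6 := D.min_ex_congr hx hy h
    rw [min_self] at h6
    have h7 : D.ex x ≤ D.ex y := by
      rw [h6]
      exact min_le_left _ _
    rw [le_antisymm h5 h7]

lemma ex_congr {x y : ℤ} (hx : x ∈ D.U) (hy : y ∈ D.U) (h : D.G y = D.G x) : D.ex x = D.ex y := by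
  have h3 : (D.p : ℤ) ^ (max (D.ex x) (D.ex y)) ∣ D.G y - D.G x := by
    rw [h, sub_self]
    exact dvd_zero _
  have h4 := D.min_ex_congr hx hy h3
  rwa [min_eq_left (le_max_left _ _), min_eq_left (le_max_right _ _)] at h4

/-! ### The cells -/

/-- the number of known digits of `G` -/
noncomputable def el (l : ℕ) (x : ℤ) : ℕ := min (D.ex x) (l - D.v x)

/-- the fine cells -/
noncomputable def C (l : ℕ) (x : ℤ) : Finset ℤ :=
  D.U.filter fun x' => D.γ x' = D.γ x ∧ (D.p : ℤ) ^ (D.el l x) ∣ D.G x' - D.G x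

lemma mem_C {l : ℕ} {x y : ℤ} : y ∈ D.C l x ↔ y ∈ D.U ∧ D.γ y = D.γ x ∧
    (D.p : ℤ) ^ (D.el l x) ∣ D.G y - D.G x := by
  simp [C]

lemma C_sub (l : ℕ) (x : ℤ) : D.C l x ⊆ D.U := filter_subset _ _

lemma self_mem_C {l : ℕ} {x : ℤ} (hx : x ∈ D.U) : x ∈ D.C l x := by
  rw [mem_C, sub_self]
  exact ⟨hx, rfl, dvd_zero _⟩

lemma el_congr {l : ℕ} {x y : ℤ} (hx : x ∈ D.U) (hy : y ∈ D.U) (hv : D.v y = D.v x)
    (h : (D.p : ℤ) ^ (D.el l x) ∣ D.G y - D.G x) : D.el l y = D.el l x := by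
  unfold el at h ⊢
  rw [hv]
  exact (D.min_ex_congr' hx hy h).symm

lemma v_of_mem_C {l : ℕ} {x y : ℤ} (hx : x ∈ D.U) (hy : y ∈ D.C l x) : D.v y = D.v x := by
  obtain ⟨h1, h2, _⟩ := D.mem_C.1 hy
  exact D.h1 y h1 x hx h2

lemma C_congr {l : ℕ} {x y : ℤ} (hx : x ∈ D.U) (hy : y ∈ D.C l x) : D.C l y = D.C l x := by
  obtain ⟨h1, h2, h3⟩ := D.mem_C.1 hy
  have h4 := D.el_congr hx h1 (D.v_of_mem_C hx hy) h3
  ext z
  rw [mem_C, mem_C, h2, h4]
  refine and_congr_right fun _ => and_congr_right fun _ => ?_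
  constructor
  · intro h5
    have := dvd_add h5 h3
    rwa [sub_add_sub_cancel] at this
  · intro h5
    have := dvd_sub h5 h3
    rwa [sub_sub_sub_cancel_right] at this

/-- the cells of `V` -/
noncomputable def Vl (l : ℕ) (y : ℤ) : Finset ℤ := D.V.filter fun y' => (D.p : ℤ) ^ l ∣ y' - y

lemma mem_Vl {l : ℕ} {x y : ℤ} : y ∈ D.Vl l x ↔ y ∈ D.V ∧ (D.p : ℤ) ^ l ∣ y - x := by
  simp [Vl]

lemma Vl_sub (l : ℕ) (x : ℤ) : D.Vl l x ⊆ D.V := filter_subset _ _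

lemma self_mem_Vl {l : ℕ} {x : ℤ} (hx : x ∈ D.V) : x ∈ D.Vl l x := by
  rw [mem_Vl, sub_self]
  exact ⟨hx, dvd_zero _⟩

lemma Vl_congr {l : ℕ} {x y : ℤ} (hy : y ∈ D.Vl l x) : D.Vl l y = D.Vl l x := by
  obtain ⟨_, h3⟩ := D.mem_Vl.1 hy
  ext z
  rw [mem_Vl, mem_Vl]
  refine and_congr_right fun _ => ?_
  constructor
  · intro h5
    have := dvd_add h5 h3
    rwa [sub_add_sub_cancel] at this
  · intro h5
    have := dvd_sub h5 h3
    rwa [sub_sub_sub_cancel_right] at this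

/-- the cast to the residues -/
lemma cast_eq_iff {q : ℕ} {x y : ℤ} : ((x : ZMod q) = (y : ZMod q)) ↔ (q : ℤ) ∣ x - y := by
  rw [eq_comm, ZMod.intCast_eq_intCast_iff_dvd_sub]

lemma cl_Vl {l : ℕ} {y y' : ℤ} (hy' : y' ∈ D.Vl l y) :
    cl (D.Vl l y) (fun x => (x : ZMod (D.p ^ (l + 1)))) y' = D.Vl (l + 1) y' := by
  ext z
  rw [mem_cl, mem_Vl, mem_Vl, cast_eq_iff]
  push_cast
  constructor
  · rintro ⟨⟨h1, _⟩, h3⟩
    exact ⟨h1, h3⟩
  · rintro ⟨h1, h3⟩
    refine ⟨⟨h1, ?_⟩, h3⟩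
    have h4 := (D.mem_Vl.1 hy').2
    have h5 := dvd_add ((pow_dvd_pow (D.p : ℤ) (Nat.le_succ l)).trans h3) h4
    rwa [sub_add_sub_cancel] at h5

/-- the elements which are not stopped -/
noncomputable def NE (l : ℕ) : Finset ℤ := D.U.filter fun x => l < D.v x + D.ex x

lemma mem_NE {l : ℕ} {x : ℤ} : x ∈ D.NE l ↔ x ∈ D.U ∧ l < D.v x + D.ex x := by simp [NE]

lemma NE_sub (l : ℕ) : D.NE l ⊆ D.U := filter_subset _ _

lemma el_NE {l : ℕ} {x : ℤ} (hx : x ∈ D.NE l) : D.el l x = l - D.v x := by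
  have := (D.mem_NE.1 hx).2
  unfold el
  omega

lemma el_succ_NE {l : ℕ} {x : ℤ} (hx : x ∈ D.NE l) : D.el (l + 1) x = l + 1 - D.v x := by
  have := (D.mem_NE.1 hx).2
  unfold el
  omega

lemma NE_of_C {l : ℕ} {x y : ℤ} (hx : x ∈ D.NE l) (hy : y ∈ D.C l x) : y ∈ D.NE l := by
  obtain ⟨h1, h2⟩ := D.mem_NE.1 hx
  have hv := D.v_of_mem_C h1 hy
  obtain ⟨h3, h4, h5⟩ := D.mem_C.1 hy
  rw [D.el_NE hx] at h5
  rw [mem_NE]
  refine ⟨h3, ?_⟩
  rcases lt_or_ge l (D.v x) with h6 | h6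
  · omega
  · have h7 : l - D.v x < D.ex x := by omega
    have h8 := (D.lt_ex_congr h1 h3 h5).1 h7
    omega

lemma cl_C {l : ℕ} {x x' : ℤ} (hx : x ∈ D.NE l) (hx' : x' ∈ D.C l x) :
    cl (D.C l x) (fun x => (x : ZMod (D.p ^ (l + 1)))) x' = D.C (l + 1) x' := by
  have hxU := (D.mem_NE.1 hx).1
  have hNE' := D.NE_of_C hx hx'
  have hv := D.v_of_mem_C hxU hx'
  obtain ⟨h1, h2, h3⟩ := D.mem_C.1 hx'
  have e1 := D.el_NE hx
  have e2 := D.el_succ_NE hNE'
  ext z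
  rw [mem_cl, mem_C, mem_C, cast_eq_iff, e1, e2]
  rw [e1] at h3
  push_cast
  constructor
  · rintro ⟨⟨h4, h5, h6⟩, h7⟩
    refine ⟨h4, h5.trans h2.symm, ?_⟩
    have h8 := (D.h2 z h4 x' h1 (h5.trans h2.symm) (l + 1)).1 h7
    rwa [D.h1 z h4 x' h1 (h5.trans h2.symm)] at h8
  · rintro ⟨h4, h5, h6⟩
    refine ⟨⟨h4, h5.trans h2, ?_⟩, ?_⟩
    · have h9 : (D.p : ℤ) ^ (l - D.v x) ∣ D.G z - D.G x' := by
        refine (pow_dvd_pow _ ?_).trans h6
        omega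
      have := dvd_add h9 h3
      rwa [sub_add_sub_cancel] at this
    · refine (D.h2 z h4 x' h1 h5 (l + 1)).2 ?_
      rw [D.h1 z h4 x' h1 h5]
      exact h6

lemma C_of_notNE {l : ℕ} {x : ℤ} (hx : x ∉ D.NE l) (hxU : x ∈ D.U) :
    D.C (l + 1) x = D.C l x := by
  have h1 : ¬ l < D.v x + D.ex x := fun h => hx (D.mem_NE.2 ⟨hxU, h⟩)
  have h2 : D.el (l + 1) x = D.el l x := by
    unfold el
    omega
  unfold C
  rw [h2]

/-- the time reached by an element -/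
noncomputable def T (l : ℕ) (x : ℤ) : ℕ := min (D.v x + D.ex x) l

lemma T_NE {l : ℕ} {x : ℤ} (hx : x ∈ D.NE l) : D.T l x = l := by
  have := (D.mem_NE.1 hx).2
  unfold T
  omega

lemma T_succ_NE {l : ℕ} {x : ℤ} (hx : x ∈ D.NE l) : D.T (l + 1) x = l + 1 := by
  have := (D.mem_NE.1 hx).2
  unfold T
  omega

lemma T_notNE {l : ℕ} {x : ℤ} (hx : x ∉ D.NE l) (hxU : x ∈ D.U) : D.T (l + 1) x = D.T l x := by
  have h1 : ¬ l < D.v x + D.ex x := fun h => hx (D.mem_NE.2 ⟨hxU, h⟩)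
  unfold T
  omega

/-! ### Popular digits -/

/-- an element with the most popular digit -/
lemma exists_pop (m : ℕ) (W : Finset ℤ) (hW : W.Nonempty) : ∃ t ∈ W, ∀ t' ∈ W,
    (W.filter fun x => (D.p : ℤ) ^ (m + 1) ∣ D.G x - D.G t').card ≤
      (W.filter fun x => (D.p : ℤ) ^ (m + 1) ∣ D.G x - D.G t).card :=
  exists_max_image W (fun t => (W.filter fun x => (D.p : ℤ) ^ (m + 1) ∣ D.G x - D.G t).card) hW

/-- the most popular digit -/
noncomputable def pop (m : ℕ) (W : Finset ℤ) : ℤ :=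
  if hW : W.Nonempty then D.G (D.exists_pop m W hW).choose else 0

lemma pop_spec {m : ℕ} {x : ℤ} (hx : x ∈ D.U)
    (hna : ¬ (D.p : ℤ) ^ (m + 1) ∣ D.G x - D.pop m (D.uu m x)) :
    2 * (D.uu (m + 1) x).card ≤ (D.uu m x).card := by
  have hW : (D.uu m x).Nonempty := ⟨x, D.self_mem_uu hx⟩
  have h1 := (D.exists_pop m _ hW).choose_spec
  have h2 : D.pop m (D.uu m x) = D.G (D.exists_pop m _ hW).choose := by
    unfold pop
    rw [dif_pos hW]
  rw [h2] at hna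
  set t := (D.exists_pop m _ hW).choose with ht
  set W := D.uu m x with hWd
  obtain ⟨h3, h4⟩ := h1
  have h5 : D.uu (m + 1) x = W.filter fun x' => (D.p : ℤ) ^ (m + 1) ∣ D.G x' - D.G x := by
    ext z
    rw [mem_uu, mem_filter, hWd, mem_uu]
    constructor
    · rintro ⟨h6, h7⟩
      exact ⟨⟨h6, (pow_dvd_pow _ (Nat.le_succ m)).trans h7⟩, h7⟩
    · rintro ⟨⟨h6, _⟩, h7⟩
      exact ⟨h6, h7⟩
  have h6 := h4 x (D.self_mem_uu hx)
  rw [h5]
  have h7 : Disjoint (W.filter fun x' => (D.p : ℤ) ^ (m + 1) ∣ D.G x' - D.G x)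
      (W.filter fun x' => (D.p : ℤ) ^ (m + 1) ∣ D.G x' - D.G t) := by
    rw [disjoint_filter]
    intro z _ h8 h9
    apply hna
    have := dvd_sub h9 h8
    rwa [sub_sub_sub_cancel_left] at this
  have h8 := card_union_of_disjoint h7
  have h9 : ((W.filter fun x' => (D.p : ℤ) ^ (m + 1) ∣ D.G x' - D.G x) ∪
      (W.filter fun x' => (D.p : ℤ) ^ (m + 1) ∣ D.G x' - D.G t)).card ≤ W.card :=
    card_le_card (union_subset (filter_subset _ _) (filter_subset _ _))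
  omega

/-- the digit is not the most popular one -/
def na (m : ℕ) (x : ℤ) : Prop := ¬ (D.p : ℤ) ^ (m + 1) ∣ D.G x - D.pop m (D.uu m x)

lemma na_congr {m : ℕ} {x y : ℤ} (h : D.G y = D.G x) : D.na m y ↔ D.na m x := by
  unfold na
  rw [D.uu_congr (m := m) (x := x) (y := y) (by rw [h, sub_self]; exact dvd_zero _), h]

lemma uu_anti {m m' : ℕ} (h : m ≤ m') (x : ℤ) : D.uu m' x ⊆ D.uu m x := by
  intro z hz
  rw [mem_uu] at hz ⊢
  exact ⟨hz.1, (pow_dvd_pow _ h).trans hz.2⟩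

lemma card_uu_na {x : ℤ} (hx : x ∈ D.U) (M : ℕ) :
    2 ^ ((range M).filter fun m => D.na m x).card * (D.uu M x).card ≤ D.U.card := by
  induction M with
  | zero =>
    rw [range_zero, filter_empty, card_empty, pow_zero, one_mul]
    exact card_le_card (filter_subset _ _)
  | succ M ih =>
    rw [range_add_one, filter_insert]
    split_ifs with c
    · rw [card_insert_of_notMem (by simp), pow_succ]
      have h1 := D.pop_spec hx c
      calc 2 ^ ((range M).filter fun m => D.na m x).card * 2 * (D.uu (M + 1) x).card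
          = 2 ^ ((range M).filter fun m => D.na m x).card * (2 * (D.uu (M + 1) x).card) := by ring
        _ ≤ 2 ^ ((range M).filter fun m => D.na m x).card * (D.uu M x).card :=
          Nat.mul_le_mul_left _ h1
        _ ≤ _ := ih
    · refine le_trans (Nat.mul_le_mul_left _ (card_le_card (D.uu_anti (Nat.le_succ M) x))) ih

/-- the number of unpopular digits before the stopping time -/
lemma card_na_le {x : ℤ} (hx : x ∈ D.U) :
    (((range (D.ex x)).filter fun m => D.na m x).card : ℝ) ≤ D.K / Real.log 2 + 1 := by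
  have hl2 : 0 < Real.log 2 := Real.log_pos (by norm_num)
  have hK0 : 0 ≤ D.K / Real.log 2 := div_nonneg D.hK hl2.le
  rcases Nat.eq_zero_or_pos (D.ex x) with h0 | h0
  · rw [h0, range_zero, filter_empty, card_empty, Nat.cast_zero]
    linarith
  obtain ⟨M, hM⟩ : ∃ M, D.ex x = M + 1 := ⟨D.ex x - 1, by omega⟩
  have h1 : ¬ D.cond M x := (D.lt_ex.1 (by omega : M < D.ex x)) M le_rfl
  unfold cond at h1
  rw [not_or] at h1
  have h2 := D.card_uu_na hx M
  have hu : (0 : ℝ) < (D.uu M x).card := by exact_mod_cast card_pos.2 ⟨x, D.self_mem_uu hx⟩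
  have h3 : (2 : ℝ) ^ ((range M).filter fun m => D.na m x).card * (D.uu M x).card ≤ D.U.card := by
    exact_mod_cast h2
  have h4 : (2 : ℝ) ^ ((range M).filter fun m => D.na m x).card < Real.exp D.K := by
    have h5 := not_le.1 h1.1
    have h6 := h3.trans_lt h5
    rw [mul_comm ((D.uu M x).card : ℝ)] at h6
    exact lt_of_mul_lt_mul_right h6 hu.le
  have h5 : (((range M).filter fun m => D.na m x).card : ℝ) * Real.log 2 ≤ D.K := by
    have h6 := Real.log_le_log (by positivity) h4.le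
    rwa [Real.log_exp, Real.log_pow] at h6
  have h6 : (((range M).filter fun m => D.na m x).card : ℝ) ≤ D.K / Real.log 2 := by
    rw [le_div_iff₀ hl2]
    exact h5
  have h7 : ((range (D.ex x)).filter fun m => D.na m x).card ≤
      ((range M).filter fun m => D.na m x).card + 1 := by
    rw [hM, range_add_one, filter_insert]
    split_ifs
    · exact card_insert_le _ _
    · omega
  have h8 : (((range (D.ex x)).filter fun m => D.na m x).card : ℝ) ≤
      ((range M).filter fun m => D.na m x).card + 1 := by exact_mod_cast h7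
  linarith

end Dt

end Pool.Agent.T2H12.KF
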