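import Mathlib
import Pool.Agent.T2H12.KF.Dat

/-!
# One digit of the process
-/

set_option autoImplicit false

namespace Pool.Agent.T2H12.KF

open Finset
open scoped Classical
open Pool.Agent.Y359.PE

/-- the loss lemma for residues -/
def LossC (δ C : ℝ) : Prop := ∀ (U V : Finset ℤ) (q : ℕ), U.Nonempty → V.Nonempty → ∀ a₀ : ZMod q,
  h U (fun x => (x : ZMod q)) + h V (fun x => (x : ZMod q)) -
    h (U ×ˢ V) (fun s => ((s.1 : ZMod q) + (s.2 : ZMod q))) ≤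
  δ * (h U (fun x => (x : ZMod q)) + h V (fun x => (x : ZMod q))) +
    C * (((U.filter fun x : ℤ => (x : ZMod q) ≠ a₀).card : ℝ) / U.card) *
      h V (fun x => (x : ZMod q))

lemma exists_lossC {δ : ℝ} (hδ : 0 < δ) (hδ1 : δ ≤ 1) : ∃ C : ℝ, 1 ≤ C ∧ LossC δ C := by
  obtain ⟨C, hC1, hC⟩ := loss_lemma hδ hδ1
  refine ⟨C, hC1, ?_⟩
  intro U V q hU hV a₀
  convert hC U V hU hV (fun x : ℤ => (x : ZMod q)) (fun x : ℤ => (x : ZMod q)) a₀

namespace Dt

variable (D : Dt)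

/-- the valuation is spread on each class of `G` -/
def Spread (e : ℝ) : Prop := ∀ x ∈ D.U, ∀ w : ℕ,
  e * ((D.U.filter fun x' => D.G x' = D.G x ∧ D.v x' = w).card : ℝ) ≤
    (D.U.filter fun x' => D.G x' = D.G x).card

/-- an unpopular digit at time `l` -/
def nl (l : ℕ) (x : ℤ) : Prop := D.v x ≤ l ∧ D.na (l - D.v x) x

/-- **The double counting.** -/
lemma count_nl {e : ℝ} (he : 0 < e) (hsp : D.Spread e) (l : ℕ) :
    e * (((D.NE l).filter fun x => D.nl l x).card : ℝ) ≤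
      (D.K / Real.log 2 + 1) * D.U.card := by
  have hl2 : 0 < Real.log 2 := Real.log_pos (by norm_num)
  have hK0 : 0 ≤ D.K / Real.log 2 := div_nonneg D.hK hl2.le
  set Q := (D.NE l).filter fun x => D.nl l x with hQ
  have hQU : Q ⊆ D.U := (filter_subset _ _).trans (D.NE_sub l)
  have e1 : (Q.card : ℝ) = ∑ x ∈ D.U, if x ∈ Q then (1 : ℝ) else 0 := by
    rw [← sum_filter, sum_const, nsmul_eq_mul, mul_one]
    congr 2
    ext x
    constructor
    · intro h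
      exact mem_filter.2 ⟨hQU h, h⟩
    · intro h
      exact (mem_filter.1 h).2
  rw [e1, ← avg_cl D.U D.G (fun x => if x ∈ Q then (1 : ℝ) else 0), mul_sum, mul_comm _
    (D.U.card : ℝ), ← nsmul_eq_mul, ← sum_const]
  refine sum_le_sum fun x hx => ?_
  have hfc := fc_posR (f := D.G) hx
  rw [mul_div_assoc', div_le_iff₀ hfc]
  set J := (range (D.ex x)).filter fun m => D.na m x with hJ
  have e2 : ∑ y ∈ cl D.U D.G x, (if y ∈ Q then (1 : ℝ) else 0) =
      ((cl D.U D.G x).filter fun y => y ∈ Q).card := by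
    rw [← sum_filter, sum_const, nsmul_eq_mul, mul_one]
  have e3 : (cl D.U D.G x).filter (fun y => y ∈ Q) ⊆
      J.biUnion fun m => D.U.filter fun x' => D.G x' = D.G x ∧ D.v x' = l - m := by
    intro y hy
    rw [mem_filter, mem_cl, hQ, mem_filter, mem_NE] at hy
    obtain ⟨⟨h1, h2⟩, ⟨h3, h4⟩, h5, h6⟩ := hy
    have hexy := D.ex_congr hx h1 h2
    rw [mem_biUnion]
    refine ⟨l - D.v y, ?_, ?_⟩
    · rw [hJ, mem_filter, mem_range]
      refine ⟨by omega, ?_⟩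
      exact (D.na_congr h2).1 h6
    · rw [mem_filter]
      exact ⟨h1, h2, by omega⟩
  have e4 : (((cl D.U D.G x).filter fun y => y ∈ Q).card : ℝ) ≤
      ∑ m ∈ J, ((D.U.filter fun x' => D.G x' = D.G x ∧ D.v x' = l - m).card : ℝ) := by
    exact_mod_cast (card_le_card e3).trans card_biUnion_le
  have e5 : e * ∑ m ∈ J, ((D.U.filter fun x' => D.G x' = D.G x ∧ D.v x' = l - m).card : ℝ) ≤
      J.card * (fc D.U D.G x : ℝ) := by
    rw [mul_sum, ← nsmul_eq_mul, ← sum_const]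
    refine sum_le_sum fun m _ => ?_
    refine (hsp x hx (l - m)).trans (le_of_eq ?_)
    have : (D.U.filter fun x' => D.G x' = D.G x) = cl D.U D.G x := by
      ext y
      rw [mem_cl, mem_filter]
    rw [this]
    rfl
  have e6 := D.card_na_le hx
  rw [e2]
  calc e * (((cl D.U D.G x).filter fun y => y ∈ Q).card : ℝ)
      ≤ e * ∑ m ∈ J, ((D.U.filter fun x' => D.G x' = D.G x ∧ D.v x' = l - m).card : ℝ) :=
        mul_le_mul_of_nonneg_left e4 he.le
    _ ≤ J.card * (fc D.U D.G x : ℝ) := e5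
    _ ≤ (D.K / Real.log 2 + 1) * fc D.U D.G x := mul_le_mul_of_nonneg_right e6 hfc.le

lemma ref_exists {l : ℕ} {x : ℤ} (hx : x ∈ D.NE l) : ∃ a₀ : ZMod (D.p ^ (l + 1)),
    ((D.C l x).filter fun x' : ℤ => (x' : ZMod (D.p ^ (l + 1))) ≠ a₀).card ≤
      ((D.C l x).filter fun x' => D.nl l x').card := by
  have hxU := (D.mem_NE.1 hx).1
  have e1 := D.el_NE hx
  rcases lt_or_ge l (D.v x) with hlt | hge
  · -- the digit is constant
    refine ⟨(x : ZMod (D.p ^ (l + 1))), ?_⟩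
    have : ((D.C l x).filter fun x' : ℤ => (x' : ZMod (D.p ^ (l + 1))) ≠ x) = ∅ := by
      rw [filter_eq_empty_iff]
      intro x' hx' hne
      apply hne
      obtain ⟨h1, h2, h3⟩ := D.mem_C.1 hx'
      rw [cast_eq_iff]
      push_cast
      refine (D.h2 x' h1 x hxU h2 (l + 1)).2 ?_
      have : l + 1 - D.v x' = 0 := by
        rw [D.h1 x' h1 x hxU h2]
        omega
      rw [this, pow_zero]
      exact one_dvd _
    rw [this, card_empty]
    exact Nat.zero_le _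
  · set m := l - D.v x with hm
    by_cases hex : ∃ x₁ ∈ D.C l x, (D.p : ℤ) ^ (m + 1) ∣ D.G x₁ - D.pop m (D.uu m x)
    · obtain ⟨x₁, hx₁, hpop⟩ := hex
      refine ⟨(x₁ : ZMod (D.p ^ (l + 1))), card_le_card ?_⟩
      intro x' hx'
      rw [mem_filter] at hx' ⊢
      obtain ⟨hC, hne⟩ := hx'
      refine ⟨hC, ?_, ?_⟩
      · rw [D.v_of_mem_C hxU hC]
        exact hge
      · unfold na
        rw [D.v_of_mem_C hxU hC, ← hm]
        obtain ⟨h1, h2, h3⟩ := D.mem_C.1 hC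
        obtain ⟨h4, h5, h6⟩ := D.mem_C.1 hx₁
        rw [e1] at h3
        rw [D.uu_congr h3]
        intro hdv
        apply hne
        rw [cast_eq_iff]
        push_cast
        refine (D.h2 x' h1 x₁ h4 (h2.trans h5.symm) (l + 1)).2 ?_
        have h7 : l + 1 - D.v x' = m + 1 := by
          rw [D.v_of_mem_C hxU hC]
          omega
        rw [h7]
        have := dvd_sub hdv hpop
        rwa [sub_sub_sub_cancel_right] at this
    · refine ⟨0, card_le_card ?_⟩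
      intro x' hx'
      rw [mem_filter] at hx' ⊢
      obtain ⟨hC, _⟩ := hx'
      refine ⟨hC, ?_, ?_⟩
      · rw [D.v_of_mem_C hxU hC]
        exact hge
      · unfold na
        rw [D.v_of_mem_C hxU hC, ← hm]
        obtain ⟨h1, h2, h3⟩ := D.mem_C.1 hC
        rw [e1] at h3
        rw [D.uu_congr h3]
        intro hdv
        exact hex ⟨x', hC, hdv⟩

/-- the sum of the losses of the cells at time `l` -/
noncomputable def F (l : ℕ) : ℝ := ∑ x ∈ D.U, ∑ y ∈ D.V, lo (D.C l x) (D.Vl (D.T l x) y)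

/-- the sum of the logarithms of the sizes -/
noncomputable def Z (l : ℕ) : ℝ := ∑ x ∈ D.U, ∑ y ∈ D.V,
  (Real.log (D.C l x).card + Real.log (D.Vl (D.T l x) y).card)

lemma hC_eq {l : ℕ} {x : ℤ} (hx : x ∈ D.NE l) :
    h (D.C l x) (fun x => (x : ZMod (D.p ^ (l + 1)))) = Real.log (D.C l x).card -
      (∑ x' ∈ D.C l x, Real.log (D.C (l + 1) x').card) / (D.C l x).card := by
  have hxU := (D.mem_NE.1 hx).1
  have hc : (0 : ℝ) < (D.C l x).card := by exact_mod_cast card_pos.2 ⟨x, D.self_mem_C hxU⟩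
  have h1 := sum_log_cl (D.C l x) (fun x : ℤ => (x : ZMod (D.p ^ (l + 1))))
  rw [sum_congr rfl fun x' hx' => by rw [D.cl_C hx hx']] at h1
  rw [h1, mul_div_cancel_left₀ _ hc.ne']
  ring

lemma hV_eq {l : ℕ} {y : ℤ} (hy : y ∈ D.V) :
    h (D.Vl l y) (fun x => (x : ZMod (D.p ^ (l + 1)))) = Real.log (D.Vl l y).card -
      (∑ y' ∈ D.Vl l y, Real.log (D.Vl (l + 1) y').card) / (D.Vl l y).card := by
  have hc : (0 : ℝ) < (D.Vl l y).card := by exact_mod_cast card_pos.2 ⟨y, D.self_mem_Vl hy⟩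
  have h1 := sum_log_cl (D.Vl l y) (fun x : ℤ => (x : ZMod (D.p ^ (l + 1))))
  rw [sum_congr rfl fun x' hx' => by rw [D.cl_Vl hx']] at h1
  rw [h1, mul_div_cancel_left₀ _ hc.ne']
  ring

lemma avg_NE (l : ℕ) (f : ℤ → ℝ) :
    ∑ x ∈ D.NE l, (∑ y ∈ D.C l x, f y) / (D.C l x).card = ∑ y ∈ D.NE l, f y :=
  avg_part (D.NE l) (D.C l) (fun _ hx _ hy => D.NE_of_C hx hy)
    (fun _ hx => D.self_mem_C (D.mem_NE.1 hx).1)
    (fun _ hx _ hy => D.C_congr (D.mem_NE.1 hx).1 hy) f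

lemma avg_V (l : ℕ) (f : ℤ → ℝ) :
    ∑ x ∈ D.V, (∑ y ∈ D.Vl l x, f y) / (D.Vl l x).card = ∑ y ∈ D.V, f y :=
  avg_part D.V (D.Vl l) (fun x _ => D.Vl_sub l x) (fun _ hx => D.self_mem_Vl hx)
    (fun _ _ _ hy => D.Vl_congr hy) f

/-- **The digit step.** -/
theorem digit {δ C : ℝ} (hδ : 0 ≤ δ) (hC : 0 ≤ C) (hL : LossC δ C) {l : ℕ}
    (hN : C * (((D.NE l).filter fun x => D.nl l x).card : ℝ) ≤ δ * (D.NE l).card) :
    D.F l + 2 * δ * D.Z (l + 1) ≤ D.F (l + 1) + 2 * δ * D.Z l := by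
  set c : ℤ → ZMod (D.p ^ (l + 1)) := fun x => (x : ZMod (D.p ^ (l + 1))) with hc
  -- pointwise
  have hpt : ∀ x ∈ D.NE l, ∀ y ∈ D.V, lo (D.C l x) (D.Vl l y) ≤
      δ * (h (D.C l x) c + h (D.Vl l y) c) +
      C * ((∑ x' ∈ D.C l x, if D.nl l x' then (1 : ℝ) else 0) / (D.C l x).card) *
        h (D.Vl l y) c +
      (∑ x' ∈ D.C l x, (∑ y' ∈ D.Vl l y, lo (D.C (l + 1) x') (D.Vl (l + 1) y')) /
        (D.Vl l y).card) / (D.C l x).card := by
    intro x hx y hy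
    have hxU := (D.mem_NE.1 hx).1
    have hCn : (D.C l x).Nonempty := ⟨x, D.self_mem_C hxU⟩
    have hVn : (D.Vl l y).Nonempty := ⟨y, D.self_mem_Vl hy⟩
    have hCc : (0 : ℝ) < (D.C l x).card := by exact_mod_cast card_pos.2 hCn
    have hVc : (0 : ℝ) < (D.Vl l y).card := by exact_mod_cast card_pos.2 hVn
    have s1 := lo_step (D.p ^ (l + 1)) (D.C l x) (D.Vl l y) hCn hVn
    obtain ⟨a₀, ha₀⟩ := D.ref_exists hx
    have s2 := hL (D.C l x) (D.Vl l y) (D.p ^ (l + 1)) hCn hVn a₀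
    have s3 : ∑ x' ∈ D.C l x, ∑ y' ∈ D.Vl l y,
        lo (cl (D.C l x) c x') (cl (D.Vl l y) c y') =
        ∑ x' ∈ D.C l x, ∑ y' ∈ D.Vl l y, lo (D.C (l + 1) x') (D.Vl (l + 1) y') :=
      sum_congr rfl fun x' hx' => sum_congr rfl fun y' hy' => by
        rw [D.cl_C hx hx', D.cl_Vl hy']
    rw [s3] at s1
    have s4 : (∑ x' ∈ D.C l x, if D.nl l x' then (1 : ℝ) else 0) =
        ((D.C l x).filter fun x' => D.nl l x').card := by
      rw [← sum_filter, sum_const, nsmul_eq_mul, mul_one]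
    have s5 : (((D.C l x).filter fun x' : ℤ => (x' : ZMod (D.p ^ (l + 1))) ≠ a₀).card : ℝ) /
        (D.C l x).card ≤
        (∑ x' ∈ D.C l x, if D.nl l x' then (1 : ℝ) else 0) / (D.C l x).card := by
      rw [s4]
      refine div_le_div_of_nonneg_right ?_ hCc.le
      exact_mod_cast ha₀
    have s6 := mul_le_mul_of_nonneg_right (mul_le_mul_of_nonneg_left s5 hC)
      (h_nonneg (D.Vl l y) c)
    have s7 : h (D.C l x) c + h (D.Vl l y) c - h (D.C l x ×ˢ D.Vl l y)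
        (fun s => ((s.1 : ZMod (D.p ^ (l + 1))) + (s.2 : ZMod (D.p ^ (l + 1))))) ≤
        δ * (h (D.C l x) c + h (D.Vl l y) c) +
        C * ((∑ x' ∈ D.C l x, if D.nl l x' then (1 : ℝ) else 0) / (D.C l x).card) *
          h (D.Vl l y) c := s2.trans (add_le_add le_rfl s6)
    have s8 : (∑ x' ∈ D.C l x, (∑ y' ∈ D.Vl l y, lo (D.C (l + 1) x') (D.Vl (l + 1) y')) /
        (D.Vl l y).card) / (D.C l x).card = (∑ x' ∈ D.C l x, ∑ y' ∈ D.Vl l y,
        lo (D.C (l + 1) x') (D.Vl (l + 1) y')) / ((D.C l x).card * (D.Vl l y).card) := by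
      rw [← sum_div, div_div, mul_comm ((D.Vl l y).card : ℝ)]
    rw [s8]
    set R := ∑ x' ∈ D.C l x, ∑ y' ∈ D.Vl l y, lo (D.C (l + 1) x') (D.Vl (l + 1) y') with hR
    set Lo := lo (D.C l x) (D.Vl l y) with hLo
    have hpos : (0 : ℝ) < (D.C l x).card * (D.Vl l y).card := mul_pos hCc hVc
    have s9 : Lo ≤ (h (D.C l x) c + h (D.Vl l y) c - h (D.C l x ×ˢ D.Vl l y)
        (fun s => ((s.1 : ZMod (D.p ^ (l + 1))) + (s.2 : ZMod (D.p ^ (l + 1)))))) +
        R / ((D.C l x).card * (D.Vl l y).card) := by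
      rw [← sub_le_iff_le_add', le_div_iff₀ hpos]
      linarith
    linarith
  -- the sum over the part which is not stopped
  have hsum : ∑ x ∈ D.NE l, ∑ y ∈ D.V, lo (D.C l x) (D.Vl l y) ≤
      2 * δ * (∑ x ∈ D.NE l, ∑ y ∈ D.V, ((Real.log (D.C l x).card - Real.log (D.C (l + 1) x).card) +
        (Real.log (D.Vl l y).card - Real.log (D.Vl (l + 1) y).card))) +
      ∑ x ∈ D.NE l, ∑ y ∈ D.V, lo (D.C (l + 1) x) (D.Vl (l + 1) y) := by
    refine (sum_le_sum fun x hx => sum_le_sum fun y hy => hpt x hx y hy).trans ?_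
    simp only [sum_add_distrib]
    -- the last sum
    have t1 : ∑ x ∈ D.NE l, ∑ y ∈ D.V, (∑ x' ∈ D.C l x, (∑ y' ∈ D.Vl l y,
        lo (D.C (l + 1) x') (D.Vl (l + 1) y')) / (D.Vl l y).card) / (D.C l x).card =
        ∑ x ∈ D.NE l, ∑ y ∈ D.V, lo (D.C (l + 1) x) (D.Vl (l + 1) y) := by
      have t2 : ∀ x ∈ D.NE l, ∑ y ∈ D.V, (∑ x' ∈ D.C l x, (∑ y' ∈ D.Vl l y,
          lo (D.C (l + 1) x') (D.Vl (l + 1) y')) / (D.Vl l y).card) / (D.C l x).card =
          (∑ x' ∈ D.C l x, ∑ y ∈ D.V, lo (D.C (l + 1) x') (D.Vl (l + 1) y)) /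
            (D.C l x).card := by
        intro x _
        rw [← sum_div, sum_comm]
        congr 1
        refine sum_congr rfl fun x' _ => ?_
        exact D.avg_V l fun y' => lo (D.C (l + 1) x') (D.Vl (l + 1) y')
      rw [sum_congr rfl t2]
      exact D.avg_NE l fun x' => ∑ y ∈ D.V, lo (D.C (l + 1) x') (D.Vl (l + 1) y)
    rw [t1]
    -- the entropies
    have t3 : ∑ x ∈ D.NE l, h (D.C l x) c = ∑ x ∈ D.NE l, (Real.log (D.C l x).card -
        Real.log (D.C (l + 1) x).card) := by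
      rw [sum_congr rfl fun x hx => D.hC_eq hx, sum_sub_distrib, sum_sub_distrib]
      congr 1
      exact D.avg_NE l fun x' => Real.log (D.C (l + 1) x').card
    have t4 : ∑ y ∈ D.V, h (D.Vl l y) c = ∑ y ∈ D.V, (Real.log (D.Vl l y).card -
        Real.log (D.Vl (l + 1) y).card) := by
      rw [sum_congr rfl fun y hy => D.hV_eq hy, sum_sub_distrib, sum_sub_distrib]
      congr 1
      exact D.avg_V l fun y' => Real.log (D.Vl (l + 1) y').card
    set HC := ∑ x ∈ D.NE l, h (D.C l x) c with hHC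
    set HV := ∑ y ∈ D.V, h (D.Vl l y) c with hHV
    have hHC0 : 0 ≤ HC := sum_nonneg fun _ _ => h_nonneg _ _
    have hHV0 : 0 ≤ HV := sum_nonneg fun _ _ => h_nonneg _ _
    have t5 : ∑ x ∈ D.NE l, ∑ y ∈ D.V, δ * (h (D.C l x) c + h (D.Vl l y) c) =
        δ * (D.V.card * HC + (D.NE l).card * HV) := by
      simp only [← mul_sum, sum_add_distrib, sum_const, nsmul_eq_mul]
      rw [← hHC, ← hHV]
    have t6 : ∑ x ∈ D.NE l, ∑ y ∈ D.V, C * ((∑ x' ∈ D.C l x, if D.nl l x' then (1 : ℝ) else 0) /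
        (D.C l x).card) * h (D.Vl l y) c =
        C * (((D.NE l).filter fun x => D.nl l x).card : ℝ) * HV := by
      have t7 : ∀ x ∈ D.NE l, ∑ y ∈ D.V, C * ((∑ x' ∈ D.C l x, if D.nl l x' then (1 : ℝ) else 0) /
          (D.C l x).card) * h (D.Vl l y) c = ((∑ x' ∈ D.C l x, if D.nl l x' then (1 : ℝ) else 0) /
          (D.C l x).card) * (C * HV) := by
        intro x _
        rw [← mul_sum]
        ring
      rw [sum_congr rfl t7, ← sum_mul, D.avg_NE l fun x' => if D.nl l x' then (1 : ℝ) else 0,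
        ← sum_filter, sum_const, nsmul_eq_mul, mul_one]
      ring
    have t8 : (∑ x ∈ D.NE l, ∑ y ∈ D.V, (Real.log (D.C l x).card -
        Real.log (D.C (l + 1) x).card)) = D.V.card * HC := by
      rw [t3]
      simp only [sum_const, nsmul_eq_mul, ← mul_sum]
    have t9 : (∑ x ∈ D.NE l, ∑ y ∈ D.V, (Real.log (D.Vl l y).card -
        Real.log (D.Vl (l + 1) y).card)) = (D.NE l).card * HV := by
      rw [t4, sum_const, nsmul_eq_mul]
    rw [t8, t9, t6]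
    have t10 : ∑ x ∈ D.NE l, ∑ y ∈ D.V, δ * (h (D.C l x) c + h (D.Vl l y) c) =
        δ * (D.V.card * HC + (D.NE l).card * HV) := t5
    rw [t10]
    have t11 := mul_le_mul_of_nonneg_right hN hHV0
    have t12 : 0 ≤ δ * (D.V.card * HC) := by positivity
    linarith
  -- the two parts
  have hsplitF : ∀ k, D.F k = (∑ x ∈ D.NE l, ∑ y ∈ D.V, lo (D.C k x) (D.Vl (D.T k x) y)) +
      ∑ x ∈ D.U \ D.NE l, ∑ y ∈ D.V, lo (D.C k x) (D.Vl (D.T k x) y) := by
    intro k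
    unfold F
    rw [← sum_sdiff (D.NE_sub l), add_comm]
  have hsplitZ : ∀ k, D.Z k = (∑ x ∈ D.NE l, ∑ y ∈ D.V,
      (Real.log (D.C k x).card + Real.log (D.Vl (D.T k x) y).card)) +
      ∑ x ∈ D.U \ D.NE l, ∑ y ∈ D.V,
      (Real.log (D.C k x).card + Real.log (D.Vl (D.T k x) y).card) := by
    intro k
    unfold Z
    rw [← sum_sdiff (D.NE_sub l), add_comm]
  have r1 : ∑ x ∈ D.U \ D.NE l, ∑ y ∈ D.V, lo (D.C (l + 1) x) (D.Vl (D.T (l + 1) x) y) =
      ∑ x ∈ D.U \ D.NE l, ∑ y ∈ D.V, lo (D.C l x) (D.Vl (D.T l x) y) := by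
    refine sum_congr rfl fun x hx => sum_congr rfl fun y _ => ?_
    obtain ⟨h1, h2⟩ := mem_sdiff.1 hx
    rw [D.C_of_notNE h2 h1, D.T_notNE h2 h1]
  have r2 : ∑ x ∈ D.U \ D.NE l, ∑ y ∈ D.V,
      (Real.log (D.C (l + 1) x).card + Real.log (D.Vl (D.T (l + 1) x) y).card) =
      ∑ x ∈ D.U \ D.NE l, ∑ y ∈ D.V,
      (Real.log (D.C l x).card + Real.log (D.Vl (D.T l x) y).card) := by
    refine sum_congr rfl fun x hx => sum_congr rfl fun y _ => ?_
    obtain ⟨h1, h2⟩ := mem_sdiff.1 hx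
    rw [D.C_of_notNE h2 h1, D.T_notNE h2 h1]
  have r3 : ∑ x ∈ D.NE l, ∑ y ∈ D.V, lo (D.C l x) (D.Vl (D.T l x) y) =
      ∑ x ∈ D.NE l, ∑ y ∈ D.V, lo (D.C l x) (D.Vl l y) :=
    sum_congr rfl fun x hx => by rw [D.T_NE hx]
  have r4 : ∑ x ∈ D.NE l, ∑ y ∈ D.V, lo (D.C (l + 1) x) (D.Vl (D.T (l + 1) x) y) =
      ∑ x ∈ D.NE l, ∑ y ∈ D.V, lo (D.C (l + 1) x) (D.Vl (l + 1) y) :=
    sum_congr rfl fun x hx => by rw [D.T_succ_NE hx]
  have r5 : (∑ x ∈ D.NE l, ∑ y ∈ D.V,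
      (Real.log (D.C l x).card + Real.log (D.Vl (D.T l x) y).card)) -
      (∑ x ∈ D.NE l, ∑ y ∈ D.V,
      (Real.log (D.C (l + 1) x).card + Real.log (D.Vl (D.T (l + 1) x) y).card)) =
      ∑ x ∈ D.NE l, ∑ y ∈ D.V, ((Real.log (D.C l x).card - Real.log (D.C (l + 1) x).card) +
        (Real.log (D.Vl l y).card - Real.log (D.Vl (l + 1) y).card)) := by
    rw [← sum_sub_distrib]
    refine sum_congr rfl fun x hx => ?_
    rw [← sum_sub_distrib]
    refine sum_congr rfl fun y _ => ?_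
    rw [D.T_NE hx, D.T_succ_NE hx]
    ring
  rw [← r5] at hsum
  rw [hsplitF l, hsplitF (l + 1), hsplitZ l, hsplitZ (l + 1), r1, r2, r3, r4]
  linarith

end Dt

end Pool.Agent.T2H12.KF
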