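import Mathlib
import Pool.Agent.T2H12.KF.Digit

/-!
# The stage of one prime
-/

set_option autoImplicit false

namespace Pool.Agent.T2H12.KF

open Finset
open scoped Classical
open Pool.Agent.Y359.PE

/-- the mean loss given `γ` -/
noncomputable def dd (γ : ℤ → ℤ) (U V : Finset ℤ) : ℝ :=
  (∑ x ∈ U, lo (cl U γ x) V) / U.card

/-- the entropy given `γ` -/
noncomputable def ss (γ : ℤ → ℤ) (U V : Finset ℤ) : ℝ :=
  (∑ x ∈ U, Real.log (cl U γ x).card) / U.card + Real.log V.card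

/-- the potential -/
noncomputable def ph (G : ℤ → ℤ) (U V : Finset ℤ) : ℝ :=
  if ∀ x ∈ U, ∀ y ∈ U, G x = G y then 0 else Real.log U.card + Real.log V.card

lemma log_card_nonneg (U : Finset ℤ) : 0 ≤ Real.log U.card := Real.log_natCast_nonneg _

lemma ph_nonneg (G : ℤ → ℤ) (U V : Finset ℤ) : 0 ≤ ph G U V := by
  unfold ph
  split_ifs
  · exact le_rfl
  · linarith [log_card_nonneg U, log_card_nonneg V]

lemma log_card_mono {U V : Finset ℤ} (hU : U.Nonempty) (h : U ⊆ V) :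
    Real.log U.card ≤ Real.log V.card :=
  Real.log_le_log (by exact_mod_cast card_pos.2 hU) (by exact_mod_cast card_le_card h)

lemma ph_mono {G : ℤ → ℤ} {U V U' V' : Finset ℤ} (hU : U'.Nonempty) (hV : V'.Nonempty)
    (h1 : U' ⊆ U) (h2 : V' ⊆ V) : ph G U' V' ≤ ph G U V := by
  unfold ph
  split_ifs with c1 c2 c2
  · exact le_rfl
  · linarith [log_card_nonneg U, log_card_nonneg V]
  · exact absurd (fun x hx y hy => c2 x (h1 hx) y (h1 hy)) c1
  · linarith [log_card_mono hU h1, log_card_mono hV h2]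

namespace Dt

variable (D : Dt)

/-- the coarse cells -/
noncomputable def Co (l : ℕ) (x : ℤ) : Finset ℤ :=
  (D.U.filter fun x' => D.v x' = D.v x).filter fun x' =>
    (D.p : ℤ) ^ (D.el l x) ∣ D.G x' - D.G x

lemma mem_Co {l : ℕ} {x y : ℤ} : y ∈ D.Co l x ↔ y ∈ D.U ∧ D.v y = D.v x ∧
    (D.p : ℤ) ^ (D.el l x) ∣ D.G y - D.G x := by
  simp [Co, and_assoc]

lemma Co_sub (l : ℕ) (x : ℤ) : D.Co l x ⊆ D.U := fun _ hy => (D.mem_Co.1 hy).1

lemma self_mem_Co {l : ℕ} {x : ℤ} (hx : x ∈ D.U) : x ∈ D.Co l x := by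
  rw [mem_Co, sub_self]
  exact ⟨hx, rfl, dvd_zero _⟩

lemma Co_congr {l : ℕ} {x y : ℤ} (hx : x ∈ D.U) (hy : y ∈ D.Co l x) : D.Co l y = D.Co l x := by
  obtain ⟨h1, h2, h3⟩ := D.mem_Co.1 hy
  have h4 := D.el_congr hx h1 h2 h3
  ext z
  rw [mem_Co, mem_Co, h2, h4]
  refine and_congr_right fun _ => and_congr_right fun _ => ?_
  constructor
  · intro h5
    have := dvd_add h5 h3
    rwa [sub_add_sub_cancel] at this
  · intro h5
    have := dvd_sub h5 h3
    rwa [sub_sub_sub_cancel_right] at this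

lemma T_congr {l : ℕ} {x y : ℤ} (hx : x ∈ D.U) (hy : y ∈ D.Co l x) : D.T l y = D.T l x := by
  obtain ⟨h1, h2, h3⟩ := D.mem_Co.1 hy
  have h4 := D.el_congr hx h1 h2 h3
  unfold el at h4
  unfold T
  rw [h2] at h4 ⊢
  omega

lemma cl_Co {l : ℕ} {x y : ℤ} (hx : x ∈ D.U) (hy : y ∈ D.Co l x) :
    cl (D.Co l x) D.γ y = D.C l y := by
  have h0 := D.Co_congr hx hy
  have hyU := D.Co_sub _ _ hy
  rw [← h0]
  ext z
  rw [mem_cl, mem_Co, mem_C]
  constructor
  · rintro ⟨⟨h1, _, h3⟩, h4⟩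
    exact ⟨h1, h4, h3⟩
  · rintro ⟨h1, h4, h3⟩
    exact ⟨⟨h1, D.h1 z h1 y hyU h4, h3⟩, h4⟩

lemma avg_Co (l : ℕ) (f : ℤ → ℝ) :
    ∑ x ∈ D.U, (∑ y ∈ D.Co l x, f y) / (D.Co l x).card = ∑ y ∈ D.U, f y :=
  avg_part D.U (D.Co l) (fun x _ => D.Co_sub l x) (fun _ hx => D.self_mem_Co hx)
    (fun _ hx _ hy => D.Co_congr hx hy) f

lemma F_eq (l : ℕ) : D.F l = ∑ x ∈ D.U, ∑ y ∈ D.V, dd D.γ (D.Co l x) (D.Vl (D.T l x) y) := by
  have e1 : ∀ x ∈ D.U, ∑ y ∈ D.V, dd D.γ (D.Co l x) (D.Vl (D.T l x) y) =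
      (∑ x' ∈ D.Co l x, ∑ y ∈ D.V, lo (D.C l x') (D.Vl (D.T l x') y)) / (D.Co l x).card := by
    intro x hx
    unfold dd
    rw [← sum_div, sum_comm]
    congr 1
    refine sum_congr rfl fun x' hx' => sum_congr rfl fun y _ => ?_
    rw [D.cl_Co hx hx', D.T_congr hx hx']
  rw [sum_congr rfl e1, D.avg_Co l]
  rfl

lemma Z_eq (l : ℕ) : D.Z l = ∑ x ∈ D.U, ∑ y ∈ D.V, ss D.γ (D.Co l x) (D.Vl (D.T l x) y) := by
  have e1 : ∀ x ∈ D.U, ∑ y ∈ D.V, ss D.γ (D.Co l x) (D.Vl (D.T l x) y) =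
      (∑ x' ∈ D.Co l x, ∑ y ∈ D.V, (Real.log (D.C l x').card +
        Real.log (D.Vl (D.T l x') y).card)) / (D.Co l x).card := by
    intro x hx
    have hc : (0 : ℝ) < (D.Co l x).card := by exact_mod_cast card_pos.2 ⟨x, D.self_mem_Co hx⟩
    unfold ss
    rw [sum_comm, sum_add_distrib, sum_const, nsmul_eq_mul]
    have e2 : ∀ x' ∈ D.Co l x, ∑ y ∈ D.V, (Real.log (D.C l x').card +
        Real.log (D.Vl (D.T l x') y).card) = D.V.card * Real.log (D.C l x').card +
        ∑ y ∈ D.V, Real.log (D.Vl (D.T l x) y).card := by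
      intro x' hx'
      rw [sum_add_distrib, sum_const, nsmul_eq_mul, D.T_congr hx hx']
    have e3 : ∑ x' ∈ D.Co l x, Real.log (cl (D.Co l x) D.γ x').card =
        ∑ x' ∈ D.Co l x, Real.log (D.C l x').card :=
      sum_congr rfl fun x' hx' => by rw [D.cl_Co hx hx']
    rw [sum_comm, sum_congr rfl e2, sum_add_distrib, ← mul_sum, sum_const, nsmul_eq_mul, e3]
    field_simp
  rw [sum_congr rfl e1, D.avg_Co l]
  rfl

lemma Vl_zero (y : ℤ) : D.Vl 0 y = D.V := by
  ext z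
  rw [mem_Vl, pow_zero]
  exact ⟨fun h => h.1, fun h => ⟨h, one_dvd _⟩⟩

lemma T_zero (x : ℤ) : D.T 0 x = 0 := by
  unfold T
  omega

lemma C_zero (x : ℤ) : D.C 0 x = cl D.U D.γ x := by
  ext z
  have : D.el 0 x = 0 := by
    unfold el
    omega
  rw [mem_C, this, mem_cl, pow_zero]
  exact ⟨fun h => ⟨h.1, h.2.1⟩, fun h => ⟨h.1, h.2, one_dvd _⟩⟩

lemma F_zero : D.F 0 = D.U.card * D.V.card * dd D.γ D.U D.V := by
  have hc : (0 : ℝ) < D.U.card := by exact_mod_cast card_pos.2 D.hU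
  unfold F dd
  simp only [T_zero, Vl_zero, C_zero, sum_const, nsmul_eq_mul]
  rw [← mul_sum]
  field_simp

lemma Z_zero : D.Z 0 = D.U.card * D.V.card * ss D.γ D.U D.V := by
  have hc : (0 : ℝ) < D.U.card := by exact_mod_cast card_pos.2 D.hU
  unfold Z ss
  simp only [T_zero, Vl_zero, C_zero, sum_const, nsmul_eq_mul]
  rw [← mul_sum, sum_add_distrib, sum_const, nsmul_eq_mul]
  field_simp

/-- the trivial stage: only the valuation is revealed -/
theorem stage_zero : (∑ x ∈ D.U, ∑ y ∈ D.V, ph D.G (D.Co 0 x) (D.Vl (D.T 0 x) y)) ≤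
    D.U.card * D.V.card * ph D.G D.U D.V := by
  have h1 : ∀ x ∈ D.U, ∀ y ∈ D.V, ph D.G (D.Co 0 x) (D.Vl (D.T 0 x) y) ≤ ph D.G D.U D.V :=
    fun x hx y hy => ph_mono ⟨x, D.self_mem_Co hx⟩ ⟨y, D.self_mem_Vl hy⟩ (D.Co_sub _ _)
      (D.Vl_sub _ _)
  refine (sum_le_sum fun x hx => sum_le_sum fun y hy => h1 x hx y hy).trans (le_of_eq ?_)
  simp only [sum_const, nsmul_eq_mul]
  ring

lemma exists_NE {θ : ℝ} (hθ : 0 < θ) : ∃ l, ((D.NE l).card : ℝ) < θ * D.U.card := by
  have hc : (0 : ℝ) < D.U.card := by exact_mod_cast card_pos.2 D.hU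
  refine ⟨∑ x ∈ D.U, (D.v x + D.ex x), ?_⟩
  have : D.NE (∑ x ∈ D.U, (D.v x + D.ex x)) = ∅ := by
    unfold NE
    rw [filter_eq_empty_iff]
    intro x hx
    rw [not_lt]
    exact single_le_sum (f := fun x => D.v x + D.ex x) (fun _ _ => Nat.zero_le _) hx
  rw [this, card_empty, Nat.cast_zero]
  positivity

/-- **The stage.** -/
theorem stage {δ C θ e S : ℝ} (hδ : 0 ≤ δ) (hC : 0 ≤ C) (hL : LossC δ C) (hθ : 0 < θ)
    (he : 0 < e) (hsp : D.Spread e) (hCK : C * (D.K / Real.log 2 + 1) ≤ δ * θ * e) (hS : 0 < S)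
    (hKS : D.K ≤ S) (hUV : Real.log D.U.card + Real.log D.V.card ≤ S) :
    ∃ l, D.F 0 + 2 * δ * D.Z l ≤ D.F l + 2 * δ * D.Z 0 ∧
      (∑ x ∈ D.U, ∑ y ∈ D.V, ph D.G (D.Co l x) (D.Vl (D.T l x) y)) ≤
        (1 - (1 - θ) * (D.K / S)) * (D.U.card * D.V.card * ph D.G D.U D.V) := by
  have hc : (0 : ℝ) < D.U.card := by exact_mod_cast card_pos.2 D.hU
  have hcV : (0 : ℝ) < D.V.card := by exact_mod_cast card_pos.2 D.hV
  set l := Nat.find (D.exists_NE hθ) with hl
  have hl1 : ((D.NE l).card : ℝ) < θ * D.U.card := Nat.find_spec (D.exists_NE hθ)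
  have hl2 : ∀ k < l, θ * D.U.card ≤ ((D.NE k).card : ℝ) := fun k hk =>
    not_lt.1 (Nat.find_min (D.exists_NE hθ) hk)
  refine ⟨l, ?_, ?_⟩
  · have tele : ∀ k ≤ l, D.F 0 + 2 * δ * D.Z k ≤ D.F k + 2 * δ * D.Z 0 := by
      intro k
      induction k with
      | zero => intro _; exact le_rfl
      | succ k ih =>
        intro hk
        have h1 := ih (by omega)
        have h2 := D.digit hδ hC hL (l := k) (by
          have h3 := D.count_nl he hsp k
          have h4 := hl2 k (by omega)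
          have h5 : C * (D.K / Real.log 2 + 1) * D.U.card ≤ δ * θ * e * D.U.card :=
            mul_le_mul_of_nonneg_right hCK hc.le
          have h6 := mul_le_mul_of_nonneg_left h3 hC
          have h7 := mul_le_mul_of_nonneg_left h4 (mul_nonneg hδ he.le)
          have h8 : e * (C * (((D.NE k).filter fun x => D.nl k x).card : ℝ)) ≤
              e * (δ * (D.NE k).card) := by linarith
          exact le_of_mul_le_mul_left h8 he)
        linarith
    exact tele l le_rfl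
  · have hK0 := D.hK
    have hKS0 : 0 ≤ D.K / S := div_nonneg hK0 hS.le
    have hKS1 : D.K / S ≤ 1 := by
      rw [div_le_one hS]
      exact hKS
    set Φ := ph D.G D.U D.V with hΦ
    have hΦ0 : 0 ≤ Φ := ph_nonneg _ _ _
    -- the cells of the stopped elements
    have h1 : ∀ x ∈ D.U \ D.NE l, ∀ y ∈ D.V, ph D.G (D.Co l x) (D.Vl (D.T l x) y) ≤
        (1 - D.K / S) * Φ := by
      intro x hx y hy
      obtain ⟨hxU, hxN⟩ := mem_sdiff.1 hx
      have h2 : ¬ l < D.v x + D.ex x := fun h => hxN (D.mem_NE.2 ⟨hxU, h⟩)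
      have h3 : D.el l x = D.ex x := by
        unfold el
        omega
      have hsub : D.Co l x ⊆ D.uu (D.ex x) x := by
        intro z hz
        rw [mem_Co, h3] at hz
        rw [mem_uu]
        exact ⟨hz.1, hz.2.2⟩
      have hCn : (D.Co l x).Nonempty := ⟨x, D.self_mem_Co hxU⟩
      have hVn : (D.Vl (D.T l x) y).Nonempty := ⟨y, D.self_mem_Vl hy⟩
      have h0 : 0 ≤ (1 - D.K / S) * Φ := mul_nonneg (by linarith) hΦ0
      rcases D.cond_ex x with h4 | h4
      · by_cases hconst : ∀ x' ∈ D.Co l x, ∀ y ∈ D.Co l x, D.G x' = D.G y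
        · unfold ph
          rw [if_pos hconst]
          exact h0
        · have hconst' : ¬ ∀ x' ∈ D.U, ∀ y ∈ D.U, D.G x' = D.G y := fun h => hconst
            fun x' hx' y hy => h x' (D.Co_sub _ _ hx') y (D.Co_sub _ _ hy)
          have hΦ2 : Φ = Real.log D.U.card + Real.log D.V.card := by
            rw [hΦ]
            unfold ph
            rw [if_neg hconst']
          have hcc : (0 : ℝ) < (D.Co l x).card := by exact_mod_cast card_pos.2 hCn
          have h5 : ((D.Co l x).card : ℝ) * Real.exp D.K ≤ D.U.card := by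
            refine le_trans (mul_le_mul_of_nonneg_right ?_ (Real.exp_pos _).le) h4
            exact_mod_cast card_le_card hsub
          have h6 := Real.log_le_log (by positivity) h5
          rw [Real.log_mul hcc.ne' (Real.exp_pos _).ne', Real.log_exp] at h6
          have h7 := log_card_mono hVn (D.Vl_sub (D.T l x) y)
          have h8 : ph D.G (D.Co l x) (D.Vl (D.T l x) y) = Real.log (D.Co l x).card +
              Real.log (D.Vl (D.T l x) y).card := by
            unfold ph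
            rw [if_neg hconst]
          rw [h8]
          have h9 : D.K / S * Φ ≤ D.K := by
            rw [div_mul_eq_mul_div, div_le_iff₀ hS]
            refine mul_le_mul_of_nonneg_left ?_ hK0
            rw [hΦ2]
            exact hUV
          linarith
      · have hconst : ∀ x' ∈ D.Co l x, ∀ y ∈ D.Co l x, D.G x' = D.G y := by
          intro x' hx' y hy
          rw [h4 x' (hsub hx'), h4 y (hsub hy)]
        unfold ph
        rw [if_pos hconst]
        exact h0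
    have h2 : ∀ x ∈ D.NE l, ∀ y ∈ D.V, ph D.G (D.Co l x) (D.Vl (D.T l x) y) ≤ Φ := by
      intro x hx y hy
      have hxU := (D.mem_NE.1 hx).1
      exact ph_mono ⟨x, D.self_mem_Co hxU⟩ ⟨y, D.self_mem_Vl hy⟩ (D.Co_sub _ _) (D.Vl_sub _ _)
    rw [← sum_sdiff (D.NE_sub l)]
    have h3 := (sum_le_sum fun x hx => sum_le_sum fun y hy => h1 x hx y hy)
    have h4 := (sum_le_sum fun x hx => sum_le_sum fun y hy => h2 x hx y hy)
    simp only [sum_const, nsmul_eq_mul] at h3 h4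
    refine (add_le_add h3 h4).trans ?_
    have h5 : ((D.U \ D.NE l).card : ℝ) = D.U.card - (D.NE l).card := by
      have := card_sdiff_add_card_eq_card (D.NE_sub l)
      have h6 : ((D.U \ D.NE l).card : ℝ) + (D.NE l).card = D.U.card := by exact_mod_cast this
      linarith
    rw [h5]
    have h6 : ((D.NE l).card : ℝ) * (D.K / S * Φ) ≤ θ * D.U.card * (D.K / S * Φ) :=
      mul_le_mul_of_nonneg_right hl1.le (by positivity)
    have h7 := mul_le_mul_of_nonneg_right h6 hcV.le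
    linarith

end Dt

end Pool.Agent.T2H12.KF
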