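import Mathlib
import Pool.Agent.T2H12.KF.Stage
import Pool.Agent.Y359.PE.Prod

/-!
# All primes: the part prime to the popular primes can be recovered
-/

set_option autoImplicit false

namespace Pool.Agent.T2H12.KF

open Finset
open scoped Classical
open Pool.Agent.Y359.PE

/-- the compatibility of `γ` and `G` with the exponent of `p` -/
def HG (γ G : ℤ → ℤ) (p : ℕ) (U : Finset ℤ) : Prop :=
  (∀ x ∈ U, ∀ x' ∈ U, γ x = γ x' → fa x p = fa x' p) ∧
  ∀ x ∈ U, ∀ x' ∈ U, γ x = γ x' → ∀ l : ℕ,
    ((p : ℤ) ^ l ∣ x - x' ↔ (p : ℤ) ^ (l - fa x p) ∣ G x - G x')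

lemma HG_mono {γ G : ℤ → ℤ} {p : ℕ} {U U' : Finset ℤ} (h : HG γ G p U) (hU : U' ⊆ U) :
    HG γ G p U' :=
  ⟨fun x hx x' hx' => h.1 x (hU hx) x' (hU hx'), fun x hx x' hx' => h.2 x (hU hx) x' (hU hx')⟩

/-- the exponents of the primes of the list are spread one after the other -/
def Good (G : ℤ → ℤ) : List (ℕ × ℝ) → Finset ℤ → Prop
  | [], _ => True
  | (p, e) :: L, U => (∀ x ∈ U, ∀ w : ℕ,
      e * ((U.filter fun x' => G x' = G x ∧ fa x' p = w).card : ℝ) ≤
        (U.filter fun x' => G x' = G x).card) ∧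
      ∀ w : ℕ, Good G L (U.filter fun x' => fa x' p = w)

lemma good_restrict {G : ℤ → ℤ} (W : ℤ → Prop) : ∀ (L : List (ℕ × ℝ)) (U : Finset ℤ),
    Good G L U → Good G L (U.filter fun x => W (G x)) := by
  intro L
  induction L with
  | nil => intro U _; exact trivial
  | cons a L ih =>
    obtain ⟨p, e⟩ := a
    intro U hU
    refine ⟨?_, ?_⟩
    · intro x hx w
      obtain ⟨hxU, hxW⟩ := mem_filter.1 hx
      have e1 : ((U.filter fun x => W (G x)).filter fun x' => G x' = G x ∧ fa x' p = w) =
          U.filter fun x' => G x' = G x ∧ fa x' p = w := by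
        ext y
        simp only [mem_filter]
        constructor
        · rintro ⟨⟨h1, _⟩, h2⟩
          exact ⟨h1, h2⟩
        · rintro ⟨h1, h2, h3⟩
          exact ⟨⟨h1, by rw [h2]; exact hxW⟩, h2, h3⟩
      have e2 : ((U.filter fun x => W (G x)).filter fun x' => G x' = G x) =
          U.filter fun x' => G x' = G x := by
        ext y
        simp only [mem_filter]
        constructor
        · rintro ⟨⟨h1, _⟩, h2⟩
          exact ⟨h1, h2⟩
        · rintro ⟨h1, h2⟩
          exact ⟨⟨h1, by rw [h2]; exact hxW⟩, h2⟩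
      rw [e1, e2]
      exact hU.1 x hxU w
    · intro w
      have e1 : ((U.filter fun x => W (G x)).filter fun x' => fa x' p = w) =
          (U.filter fun x' => fa x' p = w).filter fun x => W (G x) := by
        ext y
        simp only [mem_filter]
        tauto
      rw [e1]
      exact ih _ (hU.2 w)

/-- the factor of a prime -/
noncomputable def fac (θ c E S e : ℝ) : ℝ :=
  if E ≤ e then 1 - (1 - θ) * (min (c * e) S / S) else 1

/-- the product of the factors -/
noncomputable def kap (θ c E S : ℝ) : List (ℕ × ℝ) → ℝ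
  | [] => 1
  | (_, e) :: L => kap θ c E S L * fac θ c E S e

/-- the sum of the large parameters -/
noncomputable def tot (E : ℝ) : List (ℕ × ℝ) → ℝ
  | [] => 0
  | (_, e) :: L => tot E L + if E ≤ e then e else 0

lemma fac_mem {θ c E S e : ℝ} (hθ : 0 < θ) (hθ1 : θ < 1) (hc : 0 ≤ c) (hE : 0 < E) (hS : 0 < S) :
    0 ≤ fac θ c E S e ∧ fac θ c E S e ≤ 1 := by
  unfold fac
  split_ifs with h
  · have h1 : 0 ≤ min (c * e) S / S := by
      have : 0 ≤ c * e := mul_nonneg hc (hE.le.trans h)
      have : 0 ≤ min (c * e) S := le_min this hS.le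
      positivity
    have h2 : min (c * e) S / S ≤ 1 := by
      rw [div_le_one hS]
      exact min_le_right _ _
    have h3 : (1 - θ) * (min (c * e) S / S) ≤ 1 * 1 :=
      mul_le_mul (by linarith) h2 h1 (by norm_num)
    have h4 : 0 ≤ (1 - θ) * (min (c * e) S / S) := mul_nonneg (by linarith) h1
    constructor <;> linarith
  · exact ⟨zero_le_one, le_rfl⟩

lemma kap_mem {θ c E S : ℝ} (hθ : 0 < θ) (hθ1 : θ < 1) (hc : 0 ≤ c) (hE : 0 < E) (hS : 0 < S)
    (L : List (ℕ × ℝ)) : 0 ≤ kap θ c E S L ∧ kap θ c E S L ≤ 1 := by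
  induction L with
  | nil => exact ⟨zero_le_one, le_rfl⟩
  | cons a L ih =>
    obtain ⟨p, e⟩ := a
    obtain ⟨h1, h2⟩ := fac_mem (θ := θ) (c := c) (E := E) (S := S) (e := e) hθ hθ1 hc hE hS
    exact ⟨mul_nonneg ih.1 h1, mul_le_one₀ ih.2 h1 h2⟩

lemma kap_le {θ c E S : ℝ} (hθ : 0 < θ) (hθ1 : θ < 1) (hc : 0 ≤ c) (hE : 0 < E) (hS : 0 < S)
    (L : List (ℕ × ℝ)) : kap θ c E S L ≤ θ ∨
      kap θ c E S L ≤ Real.exp (-((1 - θ) * c * tot E L / S)) := by
  induction L with
  | nil =>
    right
    simp [kap, tot]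
  | cons a L ih =>
    obtain ⟨p, e⟩ := a
    have hm := fac_mem (θ := θ) (c := c) (E := E) (S := S) (e := e) hθ hθ1 hc hE hS
    have hk := kap_mem hθ hθ1 hc hE hS L
    have e1 : kap θ c E S ((p, e) :: L) = kap θ c E S L * fac θ c E S e := rfl
    have e2 : tot E ((p, e) :: L) = tot E L + if E ≤ e then e else 0 := rfl
    rw [e1, e2]
    by_cases h : E ≤ e
    · rw [if_pos h]
      rcases le_or_gt S (c * e) with h1 | h1
      · left
        have h2 : fac θ c E S e = θ := by
          unfold fac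
          rw [if_pos h, min_eq_right h1, div_self hS.ne']
          ring
        rw [h2]
        nlinarith [hk.1, hk.2]
      · have h2 : fac θ c E S e ≤ Real.exp (-((1 - θ) * c * e / S)) := by
          have h3 : fac θ c E S e = 1 - (1 - θ) * c * e / S := by
            unfold fac
            rw [if_pos h, min_eq_left h1.le]
            ring
          rw [h3]
          have := Real.add_one_le_exp (-((1 - θ) * c * e / S))
          linarith
        rcases ih with h3 | h3
        · left
          calc kap θ c E S L * fac θ c E S e ≤ kap θ c E S L * 1 :=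
                mul_le_mul_of_nonneg_left hm.2 hk.1
            _ ≤ θ := by rw [mul_one]; exact h3
        · right
          calc kap θ c E S L * fac θ c E S e ≤
                Real.exp (-((1 - θ) * c * tot E L / S)) * Real.exp (-((1 - θ) * c * e / S)) :=
                mul_le_mul h3 h2 hm.1 (Real.exp_pos _).le
            _ = _ := by
                rw [← Real.exp_add]
                congr 1
                ring
    · rw [if_neg h]
      have h2 : fac θ c E S e = 1 := by
        unfold fac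
        rw [if_neg h]
      rw [h2, mul_one, add_zero]
      exact ih

lemma ss_nonneg (γ : ℤ → ℤ) (U V : Finset ℤ) : 0 ≤ ss γ U V := by
  unfold ss
  have h1 : 0 ≤ (∑ x ∈ U, Real.log (cl U γ x).card) / U.card :=
    div_nonneg (sum_nonneg fun x _ => log_card_nonneg _) (by positivity)
  linarith [log_card_nonneg V]

lemma ss_le (γ : ℤ → ℤ) (U V : Finset ℤ) (hU : U.Nonempty) :
    ss γ U V ≤ Real.log U.card + Real.log V.card := by
  have hc : (0 : ℝ) < U.card := by exact_mod_cast card_pos.2 hU
  unfold ss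
  have h1 : (∑ x ∈ U, Real.log (cl U γ x).card) / U.card ≤ Real.log U.card := by
    rw [div_le_iff₀ hc]
    have h2 : ∑ x ∈ U, Real.log (cl U γ x).card ≤ ∑ _x ∈ U, Real.log U.card := by
      refine sum_le_sum fun x hx => log_card_mono ⟨x, mem_cl.2 ⟨hx, rfl⟩⟩ (fun y hy => (mem_cl.1 hy).1)
    rw [sum_const, nsmul_eq_mul] at h2
    linarith
  linarith

/-- the base case -/
lemma dd_base {γ G : ℤ → ℤ} {U V : Finset ℤ} (hU : U.Nonempty) (hV : V.Nonempty)
    (hx : ∀ x ∈ U, x = γ x * G x) : dd γ U V ≤ ph G U V := by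
  have hc : (0 : ℝ) < U.card := by exact_mod_cast card_pos.2 hU
  unfold dd ph
  split_ifs with h
  · rw [div_le_iff₀ hc, zero_mul]
    refine sum_nonpos fun x hxU => ?_
    have h1 : cl U γ x = {x} := by
      ext y
      rw [mem_cl, mem_singleton]
      constructor
      · rintro ⟨h2, h3⟩
        rw [hx y h2, hx x hxU, h3, h y h2 x hxU]
      · rintro rfl
        exact ⟨hxU, rfl⟩
    rw [h1]
    have := lo_le_left (U := {x}) (V := V) (singleton_nonempty x) hV
    rwa [card_singleton, Nat.cast_one, Real.log_one] at this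
  · rw [div_le_iff₀ hc]
    have h2 : ∑ x ∈ U, lo (cl U γ x) V ≤ ∑ _x ∈ U, (Real.log U.card + Real.log V.card) := by
      refine sum_le_sum fun x hx => ?_
      have h3 : (cl U γ x).Nonempty := ⟨x, mem_cl.2 ⟨hx, rfl⟩⟩
      have h4 := lo_le_left h3 hV
      have h5 := log_card_mono h3 (fun y hy => (mem_cl.1 hy).1 : cl U γ x ⊆ U)
      linarith [log_card_nonneg V]
    rw [sum_const, nsmul_eq_mul] at h2
    linarith

/-- **All primes.** -/
theorem dd_main {γ G : ℤ → ℤ} {δ C θ c E S : ℝ} (hδ : 0 ≤ δ) (hC : 0 ≤ C) (hL : LossC δ C)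
    (hθ : 0 < θ) (hθ1 : θ < 1) (hc : 0 ≤ c) (hE : 0 < E) (hS : 0 < S)
    (hCc : ∀ e, E ≤ e → C * (c * e / Real.log 2 + 1) ≤ δ * θ * e) :
    ∀ (L : List (ℕ × ℝ)) (U V : Finset ℤ), U.Nonempty → V.Nonempty →
      (∀ x ∈ U, x = γ x * G x) → (∀ a ∈ L, a.1.Prime ∧ HG γ G a.1 U) → Good G L U →
      Real.log U.card + Real.log V.card ≤ S →
      dd γ U V ≤ 2 * δ * ss γ U V + kap θ c E S L * ph G U V := by
  intro L
  induction L with
  | nil =>
    intro U V hU hV hx _ _ _
    have h1 := dd_base (V := V) hU hV hx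
    have h2 : kap θ c E S [] = 1 := rfl
    have h3 := mul_nonneg hδ (ss_nonneg γ U V)
    rw [h2, one_mul]
    linarith
  | cons a L ih =>
    obtain ⟨p, e⟩ := a
    intro U V hU hV hx hHG hG hS'
    have hp : p.Prime := (hHG (p, e) List.mem_cons_self).1
    have hpG : HG γ G p U := (hHG (p, e) List.mem_cons_self).2
    have hk := kap_mem hθ hθ1 hc hE hS L
    have hUc : (0 : ℝ) < U.card := by exact_mod_cast card_pos.2 hU
    have hVc : (0 : ℝ) < V.card := by exact_mod_cast card_pos.2 hV
    -- the general step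
    have gen : ∀ (D : Dt), D.U = U → D.V = V → D.γ = γ → D.G = G → D.p = p →
        (D.v = fun x => fa x p) → ∀ (l : ℕ) (f : ℝ),
        D.F 0 + 2 * δ * D.Z l ≤ D.F l + 2 * δ * D.Z 0 →
        (∑ x ∈ D.U, ∑ y ∈ D.V, ph D.G (D.Co l x) (D.Vl (D.T l x) y)) ≤
          f * (D.U.card * D.V.card * ph D.G D.U D.V) →
        dd γ U V ≤ 2 * δ * ss γ U V + kap θ c E S L * f * ph G U V := by
      intro D hDU hDV hDγ hDG hDp hDv l f h1 h2
      have h3 : ∀ x ∈ D.U, ∀ y ∈ D.V, dd D.γ (D.Co l x) (D.Vl (D.T l x) y) ≤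
          2 * δ * ss D.γ (D.Co l x) (D.Vl (D.T l x) y) +
          kap θ c E S L * ph D.G (D.Co l x) (D.Vl (D.T l x) y) := by
        intro x hxU y hy
        have hCn : (D.Co l x).Nonempty := ⟨x, D.self_mem_Co hxU⟩
        have hVn : (D.Vl (D.T l x) y).Nonempty := ⟨y, D.self_mem_Vl hy⟩
        rw [hDγ, hDG]
        refine ih (D.Co l x) (D.Vl (D.T l x) y) hCn hVn ?_ ?_ ?_ ?_
        · intro x' hx'
          exact hx x' (hDU ▸ D.Co_sub _ _ hx')
        · intro a ha
          obtain ⟨h4, h5⟩ := hHG a (List.mem_cons_of_mem _ ha)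
          exact ⟨h4, HG_mono h5 (hDU ▸ D.Co_sub _ _)⟩
        · unfold Dt.Co
          rw [hDU, hDv, hDG]
          have h10 := good_restrict (fun g => (D.p : ℤ) ^ (D.el l x) ∣ g - G x) L
            (U.filter fun x' => fa x' p = fa x p) (hG.2 _)
          convert h10
        · have h6 := log_card_mono hCn (D.Co_sub l x)
          have h7 := log_card_mono hVn (D.Vl_sub (D.T l x) y)
          rw [hDU] at h6
          rw [hDV] at h7
          linarith
      have h4 := sum_le_sum fun x hx => sum_le_sum fun y hy => h3 x hx y hy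
      simp only [sum_add_distrib, ← mul_sum] at h4
      rw [← D.F_eq l, ← D.Z_eq l] at h4
      rw [D.F_zero, D.Z_zero] at h1
      rw [hDU, hDV, hDγ] at h1
      rw [hDU, hDV, hDG] at h2
      rw [hDU, hDV, hDG] at h4
      have h5 := mul_le_mul_of_nonneg_left h2 hk.1
      have h6 : (U.card : ℝ) * V.card * dd γ U V ≤ U.card * V.card *
          (2 * δ * ss γ U V + kap θ c E S L * f * ph G U V) := by linarith
      exact le_of_mul_le_mul_left h6 (mul_pos hUc hVc)
    have hkap : kap θ c E S ((p, e) :: L) = kap θ c E S L * fac θ c E S e := rfl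
    rw [hkap]
    by_cases h : E ≤ e
    · have he : 0 < e := hE.trans_le h
      have hK0 : 0 ≤ min (c * e) S := le_min (mul_nonneg hc he.le) hS.le
      set D : Dt := ⟨p, hp, γ, G, fun x => fa x p, U, V, min (c * e) S, hK0, hU, hV, hpG.1,
        hpG.2⟩ with hD
      have hsp : D.Spread e := fun x hx w => hG.1 x hx w
      have hCK : C * (D.K / Real.log 2 + 1) ≤ δ * θ * e := by
        refine le_trans ?_ (hCc e h)
        refine mul_le_mul_of_nonneg_left ?_ hC
        have hl2 : 0 < Real.log 2 := Real.log_pos (by norm_num)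
        have : D.K / Real.log 2 ≤ c * e / Real.log 2 :=
          div_le_div_of_nonneg_right (min_le_left _ _) hl2.le
        linarith
      obtain ⟨l, h1, h2⟩ := D.stage hδ hC hL hθ he hsp hCK hS (min_le_right _ _) hS'
      have hf : fac θ c E S e = 1 - (1 - θ) * (D.K / S) := by
        unfold fac
        rw [if_pos h]
      rw [hf]
      exact gen D rfl rfl rfl rfl rfl rfl l _ h1 h2
    · set D : Dt := ⟨p, hp, γ, G, fun x => fa x p, U, V, 0, le_rfl, hU, hV, hpG.1,
        hpG.2⟩ with hD
      have hf : fac θ c E S e = 1 := by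
        unfold fac
        rw [if_neg h]
      rw [hf]
      refine gen D rfl rfl rfl rfl rfl rfl 0 1 le_rfl ?_
      rw [one_mul]
      exact D.stage_zero

/-- **The part prime to the popular primes.** -/
theorem dd_final {δ : ℝ} (hδ : 0 < δ) (hδ1 : δ ≤ 1) : ∃ E C₂ : ℝ, 0 < E ∧ 0 < C₂ ∧
    ∀ (γ G : ℤ → ℤ) (L : List (ℕ × ℝ)) (U V : Finset ℤ), U.Nonempty → V.Nonempty →
      (∀ x ∈ U, x = γ x * G x) → (∀ a ∈ L, a.1.Prime ∧ HG γ G a.1 U) → Good G L U →
      C₂ * (Real.log U.card + Real.log V.card) ≤ tot E L →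
      dd γ U V ≤ δ * (Real.log U.card + Real.log V.card) := by
  set d : ℝ := δ / 4 with hd
  have hd0 : 0 < d := by positivity
  set θ : ℝ := δ / 2 with hθd
  have hθ : 0 < θ := by positivity
  have hθ1 : θ < 1 := by
    rw [hθd]
    linarith
  obtain ⟨C, hC1, hL⟩ := exists_lossC hd0 (by linarith : d ≤ 1)
  have hC0 : 0 < C := by linarith
  have hl2 : 0 < Real.log 2 := Real.log_pos (by norm_num)
  set c : ℝ := d * θ * Real.log 2 / (2 * C) with hc
  have hc0 : 0 < c := by positivity
  set E : ℝ := 2 * C / (d * θ) with hE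
  have hE0 : 0 < E := by positivity
  have hlogθ : 0 < Real.log (1 / θ) := Real.log_pos (by
    rw [lt_div_iff₀ hθ]
    linarith)
  set C₂ : ℝ := Real.log (1 / θ) / ((1 - θ) * c) with hC₂
  have h1θ : 0 < 1 - θ := by linarith
  have hC₂0 : 0 < C₂ := by positivity
  refine ⟨E, C₂, hE0, hC₂0, ?_⟩
  intro γ G L U V hU hV hx hHG hG htot
  set S := Real.log U.card + Real.log V.card with hSd
  have hS0' : 0 ≤ S := add_nonneg (log_card_nonneg _) (log_card_nonneg _)
  rcases hS0'.eq_or_lt with hS | hS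
  · -- trivial sets
    have h1 := dd_base (V := V) hU hV hx
    have h2 : ph G U V ≤ S := by
      unfold ph
      split_ifs
      · exact hS0'
      · exact le_rfl
    rw [← hS] at h2 ⊢
    linarith
  have hCc : ∀ e, E ≤ e → C * (c * e / Real.log 2 + 1) ≤ d * θ * e := by
    intro e he
    have h1 : C * (c * e / Real.log 2) = d * θ * e / 2 := by
      rw [hc]
      field_simp
    have h2 : C ≤ d * θ * e / 2 := by
      have h3 : d * θ * E = 2 * C := by
        rw [hE]
        field_simp
      have h4 := mul_le_mul_of_nonneg_left he (show 0 ≤ d * θ by positivity)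
      linarith
    rw [mul_add, mul_one, h1]
    linarith
  have h1 := dd_main (γ := γ) (G := G) hd0.le hC0.le hL hθ hθ1 hc0.le hE0 hS hCc L U V hU hV hx
    hHG hG le_rfl
  have h2 : kap θ c E S L ≤ θ := by
    rcases kap_le hθ hθ1 hc0.le hE0 hS L with h3 | h3
    · exact h3
    · refine h3.trans ?_
      have h4 : Real.log (1 / θ) = -Real.log θ := by rw [one_div, Real.log_inv]
      have h5 : Real.log (1 / θ) ≤ (1 - θ) * c * tot E L / S := by
        rw [le_div_iff₀ hS]
        have h6 : (1 - θ) * c * (C₂ * S) = Real.log (1 / θ) * S := by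
          rw [hC₂]
          field_simp
        rw [← h6]
        exact mul_le_mul_of_nonneg_left htot (by positivity)
      calc Real.exp (-((1 - θ) * c * tot E L / S)) ≤ Real.exp (Real.log θ) :=
            Real.exp_le_exp.2 (by linarith)
        _ = θ := Real.exp_log hθ
  have h3 : ph G U V ≤ S := by
    unfold ph
    split_ifs
    · exact hS0'
    · exact le_rfl
  have h4 := ss_le γ U V hU
  have h5 : kap θ c E S L * ph G U V ≤ θ * S := mul_le_mul h2 h3 (ph_nonneg _ _ _) hθ.le
  have h6 : 2 * d * ss γ U V ≤ 2 * d * S := mul_le_mul_of_nonneg_left h4 (by positivity)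
  have h7 : 2 * d * S + θ * S = δ * S := by
    rw [hd, hθd]
    ring
  linarith

end Pool.Agent.T2H12.KF
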