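import Mathlib
import Pool.Agent.T2H12.KF.Gen

/-!
# The exponents of the popular primes can be recovered from the sum
-/

set_option autoImplicit false

namespace Pool.Agent.T2H12.KF

open Finset
open scoped Classical
open Pool.Agent.Y359.PE

/-- the entropy of a function of the first summand given the sum -/
noncomputable def hz {β : Type*} (U V : Finset ℤ) (f : ℤ → β) : ℝ :=
  ce (U ×ˢ V) (fun s => s.1 + s.2) (fun s => f s.1)

/-- the bit `a = 0` -/
noncomputable def isz {α M : Type*} [Zero M] (a : α → M) (x : α) : Bool := decide (a x = 0)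

lemma isz_eq {α M : Type*} [Zero M] {a : α → M} {x y : α} :
    isz a x = isz a y ↔ (a x = 0 ↔ a y = 0) := by
  unfold isz
  exact decide_eq_decide

/-- the bit lemma for residues -/
def BitC (δ C : ℝ) : Prop := ∀ (U V : Finset ℤ) (q : ℕ), U.Nonempty → V.Nonempty →
  hb U V (fun x => (x : ZMod q)) (fun x => (x : ZMod q)) ≤
  δ * (h U (isz (fun x : ℤ => (x : ZMod q))) + h V (fun x => (x : ZMod q))) +
    C * ((nz U (fun x : ℤ => (x : ZMod q)) : ℝ) / U.card) * h V (fun x => (x : ZMod q))

lemma exists_bitC {δ : ℝ} (hδ : 0 < δ) (hδ1 : δ ≤ 1) : ∃ C : ℝ, 1 ≤ C ∧ BitC δ C := by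
  obtain ⟨C, hC1, hC⟩ := bit_lemma hδ hδ1
  refine ⟨C, hC1, ?_⟩
  intro U V q hU hV
  exact hC U V hU hV (fun x : ℤ => (x : ZMod q)) (fun x : ℤ => (x : ZMod q))

lemma h_fintype_le {α β : Type*} [Fintype β] {S : Finset α} (hS : S.Nonempty) (f : α → β) :
    h S f ≤ Real.log (Fintype.card β) := by
  refine (h_le_log hS f).trans (Real.log_le_log ?_ ?_)
  · exact_mod_cast card_pos.2 (hS.image _)
  · have : (S.image f).card ≤ (univ : Finset β).card := card_le_card (subset_univ _)
    rw [card_univ] at this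
    exact_mod_cast this

lemma h_bool_le {α : Type*} {S : Finset α} (hS : S.Nonempty) (f : α → Bool) :
    h S f ≤ Real.log 2 := by
  have := h_fintype_le hS f
  rw [Fintype.card_bool] at this
  exact_mod_cast this

/-- the classes of `V` -/
noncomputable def vc (p : ℕ) (V : Finset ℤ) (l : ℕ) (y : ℤ) : Finset ℤ :=
  V.filter fun y' => (p : ℤ) ^ l ∣ y' - y

lemma mem_vc {p : ℕ} {V : Finset ℤ} {l : ℕ} {y y' : ℤ} :
    y' ∈ vc p V l y ↔ y' ∈ V ∧ (p : ℤ) ^ l ∣ y' - y := by simp [vc]

lemma vc_sub (p : ℕ) (V : Finset ℤ) (l : ℕ) (y : ℤ) : vc p V l y ⊆ V := filter_subset _ _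

lemma self_mem_vc {p : ℕ} {V : Finset ℤ} {l : ℕ} {y : ℤ} (hy : y ∈ V) : y ∈ vc p V l y := by
  rw [mem_vc, sub_self]
  exact ⟨hy, dvd_zero _⟩

lemma vc_eq_of_dvd {p : ℕ} {V : Finset ℤ} {l : ℕ} {y y' : ℤ} (h : (p : ℤ) ^ l ∣ y' - y) :
    vc p V l y' = vc p V l y := by
  ext z
  rw [mem_vc, mem_vc]
  refine and_congr_right fun _ => ?_
  constructor
  · intro h3
    have := dvd_add h3 h
    rwa [sub_add_sub_cancel] at this
  · intro h3
    have := dvd_sub h3 h
    rwa [sub_sub_sub_cancel_right] at this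

lemma dvd_of_vc_eq {p : ℕ} {V : Finset ℤ} {l : ℕ} {y y' : ℤ} (hy' : y' ∈ V)
    (h : vc p V l y' = vc p V l y) : (p : ℤ) ^ l ∣ y' - y := by
  have h1 : y' ∈ vc p V l y := h ▸ self_mem_vc hy'
  exact (mem_vc.1 h1).2

lemma vc_zero (p : ℕ) (V : Finset ℤ) (y : ℤ) : vc p V 0 y = V := by
  ext z
  rw [mem_vc, pow_zero]
  exact ⟨fun h => h.1, fun h => ⟨h, one_dvd _⟩⟩

/-- the divisibility by the powers of `p` -/
lemma pow_dvd_iff_fa {p : ℕ} (hp : p.Prime) {x : ℤ} (hx : x ≠ 0) (l : ℕ) :
    (p : ℤ) ^ l ∣ x ↔ l ≤ fa x p := by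
  unfold fa
  rw [← hp.pow_dvd_iff_le_factorization (Int.natAbs_ne_zero.2 hx)]
  rw [← Int.natCast_dvd_natCast (m := p ^ l), Int.dvd_natAbs]
  push_cast
  rfl

section single

variable (p : ℕ) (U V : Finset ℤ)

/-- the truncated exponent -/
def vl (l : ℕ) (x : ℤ) : ℕ := min (fa x p) l

/-- the elements with large exponent -/
noncomputable def ul (l : ℕ) : Finset ℤ := U.filter fun x => l ≤ fa x p

/-- the entropies of the digits of `V` -/
noncomputable def wl (l : ℕ) : ℝ :=
  ∑ y ∈ V, (Real.log (vc p V l y).card - Real.log (vc p V (l + 1) y).card)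

lemma avg_vc (l : ℕ) (f : ℤ → ℝ) :
    ∑ y ∈ V, (∑ y' ∈ vc p V l y, f y') / (vc p V l y).card = ∑ y ∈ V, f y :=
  avg_part V (vc p V l) (fun x _ => vc_sub p V l x) (fun _ hx => self_mem_vc hx)
    (fun _ _ _ hy => vc_eq_of_dvd (mem_vc.1 hy).2) f

lemma cl_vc {l : ℕ} {y y' : ℤ} (hy' : y' ∈ vc p V l y) :
    cl (vc p V l y) (fun x => (x : ZMod (p ^ (l + 1)))) y' = vc p V (l + 1) y' := by
  ext z
  rw [mem_cl, mem_vc, mem_vc, Dt.cast_eq_iff]
  push_cast
  constructor
  · rintro ⟨⟨h1, _⟩, h3⟩
    exact ⟨h1, h3⟩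
  · rintro ⟨h1, h3⟩
    refine ⟨⟨h1, ?_⟩, h3⟩
    have h4 := (mem_vc.1 hy').2
    have h5 := dvd_add ((pow_dvd_pow (p : ℤ) (Nat.le_succ l)).trans h3) h4
    rwa [sub_add_sub_cancel] at h5

lemma sum_h_vc (l : ℕ) :
    ∑ y ∈ V, h (vc p V l y) (fun x => (x : ZMod (p ^ (l + 1)))) = wl p V l := by
  have e1 : ∀ y ∈ V, h (vc p V l y) (fun x => (x : ZMod (p ^ (l + 1)))) =
      Real.log (vc p V l y).card -
      (∑ y' ∈ vc p V l y, Real.log (vc p V (l + 1) y').card) / (vc p V l y).card := by
    intro y hy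
    have hc : (0 : ℝ) < (vc p V l y).card := by exact_mod_cast card_pos.2 ⟨y, self_mem_vc hy⟩
    have h1 := sum_log_cl (vc p V l y) (fun x : ℤ => (x : ZMod (p ^ (l + 1))))
    rw [sum_congr rfl fun x' hx' => by rw [cl_vc p V hx']] at h1
    rw [h1, mul_div_cancel_left₀ _ hc.ne']
    ring
  rw [sum_congr rfl e1, sum_sub_distrib, avg_vc p V l fun y' => Real.log (vc p V (l + 1) y').card]
  unfold wl
  rw [sum_sub_distrib]

/-- one level of the spine -/
lemma spine_step (hp : p.Prime) (h0 : (0 : ℤ) ∉ U) (hV : V.Nonempty) (l : ℕ) :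
    (U.card : ℝ) * V.card * (hz U V (vl p (l + 1)) - hz U V (vl p l)) ≤
      ∑ _x ∈ ul p U l, ∑ y ∈ V, hb (ul p U l) (vc p V l y) (fun x => (x : ZMod (p ^ (l + 1))))
        (fun x => (x : ZMod (p ^ (l + 1)))) := by
  set S := U ×ˢ V with hS
  set z : ℤ × ℤ → ℤ := fun s => s.1 + s.2 with hzd
  set c : ℤ → ZMod (p ^ (l + 1)) := fun x => (x : ZMod (p ^ (l + 1))) with hc
  have hne : ∀ x ∈ U, x ≠ 0 := fun x hx h => h0 (h ▸ hx)
  have e1 : hz U V (vl p (l + 1)) - hz U V (vl p l) =
      ce S (fun s => (z s, vl p l s.1)) (fun s => vl p (l + 1) s.1) := by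
    have h1 := ce_chain S z (fun s => vl p l s.1) (fun s => vl p (l + 1) s.1)
    have h2 : ce S z (fun s => (vl p l s.1, vl p (l + 1) s.1)) = ce S z
        (fun s => vl p (l + 1) s.1) := by
      refine le_antisymm ?_ ?_
      · refine ce_mono _ _ _ _ fun x _ y _ _ hxy => ?_
        have hxy' : min (fa x.1 p) (l + 1) = min (fa y.1 p) (l + 1) := hxy
        simp only [vl, Prod.mk.injEq]
        omega
      · refine ce_mono _ _ _ _ fun x _ y _ _ hxy => ?_
        exact (Prod.mk.inj hxy).2
    rw [h2] at h1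
    change ce S z (fun s => vl p (l + 1) s.1) - ce S z (fun s => vl p l s.1) = _
    linarith
  set r : ℤ × ℤ → ℕ × Finset ℤ := fun s => (vl p l s.1, if l ≤ fa s.1 p then vc p V l s.2 else ∅)
    with hr
  have e2 : ce S (fun s => (z s, vl p l s.1)) (fun s => vl p (l + 1) s.1) =
      ce S (fun s => (r s, z s)) (fun s => vl p (l + 1) s.1) := by
    refine ce_congr_left _ _ _ _ fun x hx y hy => ?_
    rw [Prod.mk.injEq, Prod.mk.injEq]
    constructor
    · rintro ⟨h1, h2⟩
      refine ⟨?_, h1⟩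
      simp only [hr, Prod.mk.injEq]
      refine ⟨h2, ?_⟩
      have h2' : min (fa x.1 p) l = min (fa y.1 p) l := h2
      have hxU := (mem_product.1 hx).1
      have hyU := (mem_product.1 hy).1
      by_cases h3 : l ≤ fa x.1 p
      · have h4 : l ≤ fa y.1 p := by omega
        rw [if_pos h3, if_pos h4]
        apply vc_eq_of_dvd
        have h5 := (pow_dvd_iff_fa hp (hne _ hxU) l).2 h3
        have h6 := (pow_dvd_iff_fa hp (hne _ hyU) l).2 h4
        have h7 : x.1 + x.2 = y.1 + y.2 := h1
        have h8 : x.2 - y.2 = y.1 - x.1 := by linarith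
        rw [h8]
        exact dvd_sub h6 h5
      · have h4 : ¬ l ≤ fa y.1 p := by omega
        rw [if_neg h3, if_neg h4]
    · rintro ⟨h1, h2⟩
      exact ⟨h2, (Prod.mk.inj h1).1⟩
  have hSc : (S.card : ℝ) = U.card * V.card := by
    rw [hS, card_product]
    push_cast
    rfl
  rw [e1, e2, ← hSc, ce_avg]
  have e3 : ∀ s ∈ S, ce (cl S r s) z (fun s => vl p (l + 1) s.1) ≤
      if l ≤ fa s.1 p then hb (ul p U l) (vc p V l s.2) c c else 0 := by
    intro s hs
    obtain ⟨hsU, hsV⟩ := mem_product.1 hs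
    split_ifs with h1
    · have e4 : cl S r s = ul p U l ×ˢ vc p V l s.2 := by
        ext t
        rw [mem_cl, hS, mem_product, mem_product, mem_vc]
        simp only [hr, Prod.mk.injEq, ul, mem_filter, vl]
        rw [if_pos h1]
        constructor
        · rintro ⟨⟨h2, h3⟩, h4, h5⟩
          have h6 : l ≤ fa t.1 p := by omega
          rw [if_pos h6] at h5
          exact ⟨⟨h2, h6⟩, h3, dvd_of_vc_eq h3 h5⟩
        · rintro ⟨⟨h2, h6⟩, h3, h5⟩
          refine ⟨⟨h2, h3⟩, by omega, ?_⟩
          rw [if_pos h6]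
          exact vc_eq_of_dvd h5
      rw [e4]
      have e5 : ce (ul p U l ×ˢ vc p V l s.2) z (fun s => vl p (l + 1) s.1) ≤
          ce (ul p U l ×ˢ vc p V l s.2) (fun s => c s.1 + c s.2)
            (fun s => vl p (l + 1) s.1) := by
        refine ce_anti _ _ _ _ fun x _ y _ hxy => ?_
        have hxy' : x.1 + x.2 = y.1 + y.2 := hxy
        simp only [hc]
        rw [← Int.cast_add, ← Int.cast_add, hxy']
      refine e5.trans ?_
      unfold hb
      refine ce_mono _ _ _ _ fun x hx y hy _ hxy => ?_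
      have hx1 := (mem_filter.1 (mem_product.1 hx).1)
      have hy1 := (mem_filter.1 (mem_product.1 hy).1)
      have hxy' : (c x.1 = 0 ↔ c y.1 = 0) := decide_eq_decide.1 hxy
      have h7 : ∀ w ∈ U, c w = 0 ↔ l + 1 ≤ fa w p := by
        intro w hw
        rw [← pow_dvd_iff_fa hp (hne w hw)]
        have : (0 : ZMod (p ^ (l + 1))) = ((0 : ℤ) : ZMod (p ^ (l + 1))) := by simp
        rw [hc]
        simp only
        rw [this, Dt.cast_eq_iff, sub_zero]
        push_cast
        rfl
      rw [h7 _ hx1.1, h7 _ hy1.1] at hxy'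
      have hx2 := hx1.2
      have hy2 := hy1.2
      simp only [vl]
      omega
    · refine le_of_eq (ce_const _ _ _ fun x hx y hy _ => ?_)
      have hx1 := (mem_cl.1 hx).2
      have hy1 := (mem_cl.1 hy).2
      simp only [hr, Prod.mk.injEq, vl] at hx1 hy1 ⊢
      omega
  refine (sum_le_sum e3).trans (le_of_eq ?_)
  rw [hS, sum_product]
  have e6 : ∀ x ∈ U, ∑ y ∈ V, (if l ≤ fa x p then hb (ul p U l) (vc p V l y) c c else 0) =
      if l ≤ fa x p then ∑ y ∈ V, hb (ul p U l) (vc p V l y) c c else 0 := by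
    intro x _
    split_ifs
    · rfl
    · exact sum_const_zero
  rw [sum_congr rfl e6, ← sum_filter]
  rfl

/-- the entropies of the bits of the exponent -/
lemma bit_sum (l : ℕ) (hU : U.Nonempty) :
    ((ul p U l).card : ℝ) * h (ul p U l) (fun x => decide (l + 1 ≤ fa x p)) =
      U.card * (h U (vl p (l + 1)) - h U (vl p l)) := by
  have hc : (0 : ℝ) < U.card := by exact_mod_cast card_pos.2 hU
  have h1 := chain U (vl p l) (vl p (l + 1))
  have h2 : h U (fun x => (vl p l x, vl p (l + 1) x)) = h U (vl p (l + 1)) := by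
    refine h_congr fun x _ y _ => ?_
    simp only [vl, Prod.mk.injEq]
    omega
  rw [h2] at h1
  rw [h1, mul_div_cancel₀ _ hc.ne']
  have h3 : ∀ x ∈ U, h (cl U (vl p l) x) (vl p (l + 1)) =
      if l ≤ fa x p then h (ul p U l) (fun x => decide (l + 1 ≤ fa x p)) else 0 := by
    intro x _
    split_ifs with h4
    · have h5 : cl U (vl p l) x = ul p U l := by
        ext y
        rw [mem_cl, ul, mem_filter]
        simp only [vl]
        refine and_congr_right fun _ => ?_
        omega
      rw [h5]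
      refine h_congr fun y hy y' hy' => ?_
      have h6 := (mem_filter.1 hy).2
      have h7 := (mem_filter.1 hy').2
      rw [decide_eq_decide]
      simp only [vl]
      omega
    · refine h_const _ _ fun y hy y' hy' => ?_
      have h6 := (mem_cl.1 hy).2
      have h7 := (mem_cl.1 hy').2
      simp only [vl] at h6 h7 ⊢
      omega
  rw [sum_congr rfl h3, ← sum_filter, sum_const, nsmul_eq_mul]
  rfl

/-- the contribution of one level -/
lemma level (hp : p.Prime) (h0 : (0 : ℤ) ∉ U) (hV : V.Nonempty) {δ C : ℝ} (hδ : 0 < δ)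
    (hδ1 : δ ≤ 1) (hC : 1 ≤ C) (hB : BitC δ C) (l : ℕ) :
    ∑ _x ∈ ul p U l, ∑ y ∈ V, hb (ul p U l) (vc p V l y) (fun x => (x : ZMod (p ^ (l + 1))))
        (fun x => (x : ZMod (p ^ (l + 1)))) ≤
      δ * V.card * ((ul p U l).card * h (ul p U l) (fun x => decide (l + 1 ≤ fa x p))) +
      4 * δ * (ul p U (l + 1)).card * wl p V l +
      (2 * Real.log 2 + 1 + Real.log (C / δ)) * V.card *
        ((ul p U l).card - (ul p U (l + 1)).card) := by
  have hVc : (0 : ℝ) < V.card := by exact_mod_cast card_pos.2 hV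
  have hl2 : 0 < Real.log 2 := Real.log_pos (by norm_num)
  have hCδ : 1 ≤ C / δ := by
    rw [le_div_iff₀ hδ]
    linarith
  have hlC : 0 ≤ Real.log (C / δ) := Real.log_nonneg hCδ
  set c : ℤ → ZMod (p ^ (l + 1)) := fun x => (x : ZMod (p ^ (l + 1))) with hc
  have hwl : ∑ y ∈ V, h (vc p V l y) c = wl p V l := sum_h_vc p V l
  have hwl0 : 0 ≤ wl p V l := by
    rw [← hwl]
    exact sum_nonneg fun _ _ => h_nonneg _ _
  rcases (ul p U l).eq_empty_or_nonempty with hE | hN
  · have hE2 : ul p U (l + 1) = ∅ := by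
      rw [← subset_empty, ← hE]
      intro x hx
      simp only [ul, mem_filter] at hx ⊢
      exact ⟨hx.1, by omega⟩
    rw [hE, hE2]
    simp
  have hn0 : (0 : ℝ) < (ul p U l).card := by exact_mod_cast card_pos.2 hN
  set n : ℝ := ((ul p U l).card : ℝ) with hn
  set n' : ℝ := ((ul p U (l + 1)).card : ℝ) with hn'
  have hn'0 : 0 ≤ n' := Nat.cast_nonneg _
  have hne : ∀ x ∈ U, x ≠ 0 := fun x hx h => h0 (h ▸ hx)
  have h7 : ∀ w ∈ U, c w = 0 ↔ l + 1 ≤ fa w p := by
    intro w hw
    rw [← pow_dvd_iff_fa hp (hne w hw)]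
    have : (0 : ZMod (p ^ (l + 1))) = ((0 : ℤ) : ZMod (p ^ (l + 1))) := by simp
    rw [hc]
    simp only
    rw [this, Dt.cast_eq_iff, sub_zero]
    push_cast
    rfl
  have hdec : h (ul p U l) (isz c) =
      h (ul p U l) (fun x => decide (l + 1 ≤ fa x p)) := by
    refine h_congr fun x hx y hy => ?_
    have hx1 := (mem_filter.1 hx).1
    have hy1 := (mem_filter.1 hy).1
    rw [isz_eq, decide_eq_decide, h7 x hx1, h7 y hy1]
  set η := h (ul p U l) (fun x => decide (l + 1 ≤ fa x p)) with hη
  have hη0 : 0 ≤ η := h_nonneg _ _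
  have hnz : (nz (ul p U l) c : ℝ) = n - n' := by
    have h1 : nz (ul p U l) c + (ul p U (l + 1)).card = (ul p U l).card := by
      have h2 : ul p U (l + 1) = (ul p U l).filter fun x => ¬ c x ≠ 0 := by
        ext x
        simp only [ul, mem_filter, not_not]
        constructor
        · rintro ⟨h2, h3⟩
          exact ⟨⟨h2, by omega⟩, (h7 x h2).2 h3⟩
        · rintro ⟨⟨h2, _⟩, h3⟩
          exact ⟨h2, (h7 x h2).1 h3⟩
      rw [h2]
      unfold nz
      convert card_filter_add_card_filter_not (s := ul p U l) (fun x => c x ≠ 0)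
    have h2 : (nz (ul p U l) c : ℝ) + n' = n := by
      rw [hn, hn']
      exact_mod_cast h1
    linarith
  have hnn : 0 ≤ n - n' := by
    rw [← hnz]
    exact Nat.cast_nonneg _
  -- pointwise
  have hpt : ∀ y ∈ V, n * hb (ul p U l) (vc p V l y) c c ≤ δ * (n * η) +
      4 * δ * n' * h (vc p V l y) c + (2 * Real.log 2 + 1 + Real.log (C / δ)) * (n - n') := by
    intro y hy
    have hVn : (vc p V l y).Nonempty := ⟨y, self_mem_vc hy⟩
    have b1 : hb (ul p U l) (vc p V l y) c c ≤ h (ul p U l) (isz c) :=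
      hb_le_bit (ul p U l) (vc p V l y) hN hVn c c
    have b2 := hB (ul p U l) (vc p V l y) (p ^ (l + 1)) hN hVn
    change hb (ul p U l) (vc p V l y) c c ≤ δ * (h (ul p U l) (isz c) +
      h (vc p V l y) c) + C * ((nz (ul p U l) c : ℝ) / n) * h (vc p V l y) c at b2
    rw [hdec] at b1 b2
    rw [hnz] at b2
    set B := hb (ul p U l) (vc p V l y) c c with hB'
    set H := h (vc p V l y) c with hH
    have hH0 : 0 ≤ H := h_nonneg _ _
    have k0 : 0 ≤ (2 * Real.log 2 + 1 + Real.log (C / δ)) * (n - n') := by positivity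
    have k1 : 0 ≤ δ * (n * η) := by positivity
    have k2 : 0 ≤ 4 * δ * n' * H := by positivity
    rcases lt_or_ge (n / 2) (n - n') with hbig | hsm
    · -- many elements stop at this level
      have g1 : η ≤ Real.log 2 := h_bool_le hN _
      have g5 : n * B ≤ n * Real.log 2 := mul_le_mul_of_nonneg_left (b1.trans g1) hn0.le
      have g6 : n * Real.log 2 ≤ 2 * (n - n') * Real.log 2 :=
        mul_le_mul_of_nonneg_right (by linarith) hl2.le
      have g7 : 0 ≤ (1 + Real.log (C / δ)) * (n - n') := by positivity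
      linarith
    · have g1 : n ≤ 2 * n' := by linarith
      have g2 : δ * (n * H) ≤ 2 * δ * n' * H := by
        have := mul_le_mul_of_nonneg_right g1 (mul_nonneg hδ.le hH0)
        linarith
      rcases le_or_gt (C * (n - n')) (δ * n) with g3 | g3
      · -- few elements stop at this level
        have g4 : n * (C * ((n - n') / n) * H) = C * (n - n') * H := by
          field_simp
        have g5 := mul_le_mul_of_nonneg_left b2 hn0.le
        rw [mul_add, g4] at g5
        have g6 : C * (n - n') * H ≤ δ * n * H := mul_le_mul_of_nonneg_right g3 hH0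
        linarith
      · -- the bit has small entropy
        have hnz0 : 0 < n - n' := by
          by_contra hcon
          have : n - n' = 0 := le_antisymm (not_lt.1 hcon) hnn
          rw [this, mul_zero] at g3
          have : 0 ≤ δ * n := by positivity
          linarith
        have g4 : 0 < nz (ul p U l) c := by
          rw [← hnz] at hnz0
          exact_mod_cast hnz0
        have g5 : h (ul p U l) (isz c) ≤ (nz (ul p U l) c : ℝ) / (ul p U l).card *
          (1 + Real.log ((ul p U l).card / nz (ul p U l) c)) := bit_le (ul p U l) c hN g4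
        rw [hdec, hnz] at g5
        change η ≤ (n - n') / n * (1 + Real.log (n / (n - n'))) at g5
        have g6 : Real.log (n / (n - n')) ≤ Real.log (C / δ) := by
          refine Real.log_le_log (by positivity) ?_
          rw [div_le_div_iff₀ hnz0 hδ]
          linarith
        have g7 : n * η ≤ (n - n') * (1 + Real.log (C / δ)) := by
          calc n * η ≤ n * ((n - n') / n * (1 + Real.log (n / (n - n')))) :=
                mul_le_mul_of_nonneg_left g5 hn0.le
            _ = (n - n') * (1 + Real.log (n / (n - n'))) := by field_simp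
            _ ≤ _ := mul_le_mul_of_nonneg_left (by linarith) hnz0.le
        have g8 : n * B ≤ n * η := mul_le_mul_of_nonneg_left b1 hn0.le
        have g9 : 0 ≤ 2 * Real.log 2 * (n - n') := by positivity
        linarith
  rw [sum_const, nsmul_eq_mul, mul_sum]
  refine (sum_le_sum hpt).trans (le_of_eq ?_)
  rw [sum_add_distrib, sum_add_distrib, sum_const, sum_const, nsmul_eq_mul, nsmul_eq_mul,
    ← mul_sum, hwl]
  ring

/-- **The spine lemma** for one prime. -/
theorem spine (hp : p.Prime) (h0 : (0 : ℤ) ∉ U) (hU : U.Nonempty) (hV : V.Nonempty) {δ C : ℝ}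
    (hδ : 0 < δ) (hδ1 : δ ≤ 1) (hC : 1 ≤ C) (hB : BitC δ C) :
    (U.card : ℝ) * V.card * hz U V (fun x => fa x p) ≤
      U.card * V.card * (δ * h U (fun x => fa x p) + 4 * δ * Real.log V.card +
        (2 * Real.log 2 + 1 + Real.log (C / δ))) -
      4 * δ * ∑ x ∈ U, ∑ y ∈ V, Real.log (vc p V (fa x p) y).card := by
  have hUc : (0 : ℝ) < U.card := by exact_mod_cast card_pos.2 hU
  have hVc : (0 : ℝ) < V.card := by exact_mod_cast card_pos.2 hV
  set L₀ := 2 * Real.log 2 + 1 + Real.log (C / δ) with hL₀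
  have hl2 : 0 < Real.log 2 := Real.log_pos (by norm_num)
  have hCδ : 1 ≤ C / δ := by
    rw [le_div_iff₀ hδ]
    linarith
  have hlC : 0 ≤ Real.log (C / δ) := Real.log_nonneg hCδ
  have hL₀0 : 0 ≤ L₀ := by positivity
  set M := ∑ x ∈ U, fa x p with hM
  have hMx : ∀ x ∈ U, fa x p ≤ M := fun x hx =>
    single_le_sum (f := fun x => fa x p) (fun _ _ => Nat.zero_le _) hx
  -- telescoping
  have tele : ∀ m : ℕ, (U.card : ℝ) * V.card * hz U V (vl p m) ≤
      δ * V.card * (U.card * h U (vl p m)) +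
      4 * δ * (∑ x ∈ U, ∑ y ∈ V, (Real.log V.card - Real.log (vc p V (min (fa x p) m) y).card)) +
      L₀ * V.card * (U.card - (ul p U m).card) := by
    intro m
    induction m with
    | zero =>
      have h1 : hz U V (vl p 0) = 0 := by
        unfold hz
        refine ce_const _ _ _ fun x _ y _ _ => ?_
        simp [vl]
      have h2 : h U (vl p 0) = 0 := h_const _ _ fun x _ y _ => by simp [vl]
      have h3 : ul p U 0 = U := by
        unfold ul
        exact filter_true_of_mem fun _ _ => Nat.zero_le _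
      rw [h1, h2, h3]
      simp [vc_zero]
    | succ m ih =>
      have h1 := spine_step p U V hp h0 hV m
      have h2 := level p U V hp h0 hV hδ hδ1 hC hB m
      rw [bit_sum p U m hU] at h2
      have h3 : ∑ x ∈ U, ∑ y ∈ V, (Real.log V.card -
          Real.log (vc p V (min (fa x p) (m + 1)) y).card) =
          (∑ x ∈ U, ∑ y ∈ V, (Real.log V.card - Real.log (vc p V (min (fa x p) m) y).card)) +
          (ul p U (m + 1)).card * wl p V m := by
        have h4 : ∀ x ∈ U, ∑ y ∈ V, (Real.log V.card -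
          Real.log (vc p V (min (fa x p) (m + 1)) y).card) =
          (∑ y ∈ V, (Real.log V.card - Real.log (vc p V (min (fa x p) m) y).card)) +
          if m + 1 ≤ fa x p then wl p V m else 0 := by
          intro x _
          split_ifs with h5
          · rw [min_eq_right h5, min_eq_right (by omega : m ≤ fa x p)]
            unfold wl
            rw [← sum_add_distrib]
            refine sum_congr rfl fun y _ => ?_
            ring
          · have : min (fa x p) (m + 1) = min (fa x p) m := by omega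
            rw [this, add_zero]
        rw [sum_congr rfl h4, sum_add_distrib, ← sum_filter, sum_const, nsmul_eq_mul]
        rfl
      rw [h3]
      linarith
  have h1 := tele M
  have h2 : hz U V (vl p M) = hz U V (fun x => fa x p) := by
    unfold hz
    refine le_antisymm ?_ ?_
    · refine ce_mono _ _ _ _ fun x hx y hy _ hxy => ?_
      have hxy' : fa x.1 p = fa y.1 p := hxy
      simp only [vl, hxy']
    · refine ce_mono _ _ _ _ fun x hx y hy _ hxy => ?_
      have h3 := hMx _ (mem_product.1 hx).1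
      have h4 := hMx _ (mem_product.1 hy).1
      have hxy' : min (fa x.1 p) M = min (fa y.1 p) M := hxy
      rw [min_eq_left h3, min_eq_left h4] at hxy'
      exact hxy'
  have h3 : h U (vl p M) = h U (fun x => fa x p) := h_congr fun x hx y hy => by
    simp only [vl]
    rw [min_eq_left (hMx x hx), min_eq_left (hMx y hy)]
  have h4 : ∑ x ∈ U, ∑ y ∈ V, (Real.log V.card - Real.log (vc p V (min (fa x p) M) y).card) =
      U.card * V.card * Real.log V.card -
        ∑ x ∈ U, ∑ y ∈ V, Real.log (vc p V (fa x p) y).card := by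
    rw [sum_congr rfl fun x hx => by rw [min_eq_left (hMx x hx)]]
    simp only [sum_sub_distrib, sum_const, nsmul_eq_mul]
    ring
  rw [h2, h3, h4] at h1
  have h5 : 0 ≤ L₀ * V.card * (ul p U M).card := by positivity
  linarith

end single

/-- the exponents of the primes of a list -/
def fL (L : List ℕ) (x : ℤ) : List ℕ := L.map fun p => fa x p

/-- **The exponents of several primes.** -/
theorem spine_list {δ C : ℝ} (hδ : 0 < δ) (hδ1 : δ ≤ 1) (hC : 1 ≤ C) (hB : BitC δ C) :
    ∀ (L : List ℕ) (U V : Finset ℤ), (∀ p ∈ L, p.Prime) → (0 : ℤ) ∉ U → U.Nonempty → V.Nonempty →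
      hz U V (fL L) ≤ 4 * δ * (h U (fL L) + Real.log V.card) +
        L.length * (2 * Real.log 2 + 1 + Real.log (C / δ)) := by
  set L₀ := 2 * Real.log 2 + 1 + Real.log (C / δ) with hL₀
  intro L
  induction L with
  | nil =>
    intro U V _ _ _ _
    have h1 : hz U V (fL []) = 0 := by
      unfold hz
      exact ce_const _ _ _ fun x _ y _ _ => rfl
    rw [h1]
    have h2 := h_nonneg U (fL [])
    have h3 := log_card_nonneg V
    simp only [List.length_nil, Nat.cast_zero, zero_mul, add_zero]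
    positivity
  | cons p L ih =>
    intro U V hp h0 hU hV
    have hUc : (0 : ℝ) < U.card := by exact_mod_cast card_pos.2 hU
    have hVc : (0 : ℝ) < V.card := by exact_mod_cast card_pos.2 hV
    have hpp : p.Prime := hp p List.mem_cons_self
    have hne : ∀ x ∈ U, x ≠ 0 := fun x hx h => h0 (h ▸ hx)
    set S := U ×ˢ V with hS
    set z : ℤ × ℤ → ℤ := fun s => s.1 + s.2 with hzd
    set v : ℤ → ℕ := fun x => fa x p with hv
    have hSc : (S.card : ℝ) = U.card * V.card := by
      rw [hS, card_product]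
      push_cast
      rfl
    have e1 : hz U V (fL (p :: L)) = ce S z (fun s => v s.1) +
        ce S (fun s => (z s, v s.1)) (fun s => fL L s.1) := by
      rw [← ce_chain]
      unfold hz
      refine le_antisymm ?_ ?_
      · refine ce_mono _ _ _ _ fun x _ y _ _ hxy => ?_
        have := Prod.mk.inj hxy
        show v x.1 :: fL L x.1 = v y.1 :: fL L y.1
        rw [this.1, this.2]
      · refine ce_mono _ _ _ _ fun x _ y _ _ hxy => ?_
        have hxy' : v x.1 :: fL L x.1 = v y.1 :: fL L y.1 := hxy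
        rw [List.cons.injEq] at hxy'
        exact Prod.ext hxy'.1 hxy'.2
    set r : ℤ × ℤ → ℕ × Finset ℤ := fun s => (v s.1, vc p V (v s.1) s.2) with hr
    have e2 : ce S (fun s => (z s, v s.1)) (fun s => fL L s.1) =
        ce S (fun s => (r s, z s)) (fun s => fL L s.1) := by
      refine ce_congr_left _ _ _ _ fun x hx y hy => ?_
      rw [Prod.mk.injEq, Prod.mk.injEq]
      constructor
      · rintro ⟨h1, h2⟩
        refine ⟨?_, h1⟩
        simp only [hr, Prod.mk.injEq]
        refine ⟨h2, ?_⟩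
        rw [h2]
        apply vc_eq_of_dvd
        have hxU := (mem_product.1 hx).1
        have hyU := (mem_product.1 hy).1
        have h5 := (pow_dvd_iff_fa hpp (hne _ hxU) (v y.1)).2 (le_of_eq h2.symm)
        have h6 := (pow_dvd_iff_fa hpp (hne _ hyU) (v y.1)).2 le_rfl
        have h7 : x.1 + x.2 = y.1 + y.2 := h1
        have h8 : x.2 - y.2 = y.1 - x.1 := by linarith
        rw [h8]
        exact dvd_sub h6 h5
      · rintro ⟨h1, h2⟩
        exact ⟨h2, (Prod.mk.inj h1).1⟩
    have e3 := ce_avg S r z (fun s => fL L s.1)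
    have e4 : ∀ s ∈ S, ce (cl S r s) z (fun s => fL L s.1) =
        hz (cl U v s.1) (vc p V (v s.1) s.2) (fL L) := by
      intro s hs
      have : cl S r s = cl U v s.1 ×ˢ vc p V (v s.1) s.2 := by
        ext t
        rw [mem_cl, hS, mem_product, mem_product, mem_vc, mem_cl]
        simp only [hr, Prod.mk.injEq]
        constructor
        · rintro ⟨⟨h1, h2⟩, h3, h4⟩
          rw [h3] at h4
          exact ⟨⟨h1, h3⟩, h2, dvd_of_vc_eq h2 h4⟩
        · rintro ⟨⟨h1, h3⟩, h2, h4⟩
          refine ⟨⟨h1, h2⟩, h3, ?_⟩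
          rw [h3]
          exact vc_eq_of_dvd h4
      rw [this]
      rfl
    have e5 : ∀ s ∈ S, ce (cl S r s) z (fun s => fL L s.1) ≤
        4 * δ * (h (cl U v s.1) (fL L) + Real.log (vc p V (v s.1) s.2).card) +
          L.length * L₀ := by
      intro s hs
      rw [e4 s hs]
      obtain ⟨hsU, hsV⟩ := mem_product.1 hs
      exact ih _ _ (fun q hq => hp q (List.mem_cons_of_mem _ hq))
        (fun h => h0 (mem_cl.1 h).1) ⟨s.1, mem_cl.2 ⟨hsU, rfl⟩⟩ ⟨s.2, self_mem_vc hsV⟩
    have e6 := sum_le_sum e5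
    rw [← e3] at e6
    have e7 : ∑ s ∈ S, (4 * δ * (h (cl U v s.1) (fL L) + Real.log (vc p V (v s.1) s.2).card) +
          L.length * L₀) = 4 * δ * (V.card * ∑ x ∈ U, h (cl U v x) (fL L) +
          ∑ x ∈ U, ∑ y ∈ V, Real.log (vc p V (v x) y).card) + U.card * V.card *
          (L.length * L₀) := by
      rw [sum_add_distrib, ← mul_sum, sum_const, nsmul_eq_mul, hSc, hS, sum_product]
      simp only [sum_add_distrib, sum_const, nsmul_eq_mul, ← mul_sum]
    have e8 := chain U v (fL L)
    have e9 : ∑ x ∈ U, h (cl U v x) (fL L) = U.card * (h U (fun x => (v x, fL L x)) - h U v) := by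
      rw [e8, mul_div_cancel₀ _ hUc.ne']
    have e10 : h U (fun x => (v x, fL L x)) = h U (fL (p :: L)) := h_congr fun x _ y _ => by
      rw [Prod.mk.injEq]
      show _ ↔ v x :: fL L x = v y :: fL L y
      rw [List.cons.injEq]
    rw [e7, e9, e10, hSc] at e6
    have e11 := spine p U V hpp h0 hU hV hδ hδ1 hC hB
    change (U.card : ℝ) * V.card * ce S z (fun s => v s.1) ≤ U.card * V.card *
      (δ * h U v + 4 * δ * Real.log V.card + L₀) -
      4 * δ * ∑ x ∈ U, ∑ y ∈ V, Real.log (vc p V (v x) y).card at e11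
    rw [e1, e2]
    have h1 := h_nonneg U v
    have h2 : 0 ≤ 3 * δ * h U v := by positivity
    have h3 := mul_nonneg (mul_pos hUc hVc).le h2
    have e12 : (U.card : ℝ) * V.card * (ce S z (fun s => v s.1) +
        ce S (fun s => (r s, z s)) (fun s => fL L s.1)) ≤ U.card * V.card *
        (4 * δ * (h U (fL (p :: L)) + Real.log V.card) + ((p :: L).length : ℝ) * L₀) := by
      rw [List.length_cons]
      push_cast
      linarith
    exact le_of_mul_le_mul_left e12 (mul_pos hUc hVc)

/-- the loss is the loss of the exponents and of the rest -/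
theorem lo_eq (U V : Finset ℤ) (hU : U.Nonempty) (hV : V.Nonempty) {β : Type*} (f : ℤ → β)
    (γ : ℤ → ℤ) (hf : ∀ x ∈ U, ∀ y ∈ U, f x = f y ↔ γ x = γ y) :
    lo U V = hz U V f + dd γ U V := by
  have hUc : (0 : ℝ) < U.card := by exact_mod_cast card_pos.2 hU
  have hVc : (0 : ℝ) < V.card := by exact_mod_cast card_pos.2 hV
  set S := U ×ˢ V with hS
  set z : ℤ × ℤ → ℤ := fun s => s.1 + s.2 with hzd
  have hSc : (S.card : ℝ) = U.card * V.card := by
    rw [hS, card_product]
    push_cast
    rfl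
  have e1 : lo U V = ce S z (fun s => s.1) := by
    have := ce_fst U V hU hV (fun x : ℤ => x) (fun x : ℤ => x)
    rw [h_id, h_id] at this
    exact this.symm
  have e2 : ce S z (fun s => s.1) = ce S z (fun s => (f s.1, s.1)) := by
    refine le_antisymm ?_ ?_
    · exact ce_mono _ _ _ _ fun x _ y _ _ hxy => (Prod.mk.inj hxy).2
    · refine ce_mono _ _ _ _ fun x _ y _ _ hxy => ?_
      have hxy' : x.1 = y.1 := hxy
      show (f x.1, x.1) = (f y.1, y.1)
      rw [hxy']
  have e3 : ce S (fun s => (z s, f s.1)) (fun s => s.1) =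
      ce S (fun s => (f s.1, z s)) (fun s => s.1) :=
    ce_congr_left _ _ _ _ fun x _ y _ => by
      simp only [Prod.mk.injEq]
      tauto
  have e4 := ce_avg S (fun s => f s.1) z (fun s => s.1)
  have e5 : ∀ s ∈ S, ce (cl S (fun s => f s.1) s) z (fun s => s.1) = lo (cl U γ s.1) V := by
    intro s hs
    obtain ⟨hsU, hsV⟩ := mem_product.1 hs
    have h1 : cl S (fun s => f s.1) s = cl U γ s.1 ×ˢ V := by
      ext t
      rw [mem_cl, hS, mem_product, mem_product, mem_cl]
      constructor
      · rintro ⟨⟨h1, h2⟩, h3⟩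
        exact ⟨⟨h1, (hf _ h1 _ hsU).1 h3⟩, h2⟩
      · rintro ⟨⟨h1, h3⟩, h2⟩
        exact ⟨⟨h1, h2⟩, (hf _ h1 _ hsU).2 h3⟩
    have h2 : (cl U γ s.1).Nonempty := ⟨s.1, mem_cl.2 ⟨hsU, rfl⟩⟩
    have h3 := ce_fst (cl U γ s.1) V h2 hV (fun x : ℤ => x) (fun x : ℤ => x)
    rw [h_id, h_id] at h3
    rw [h1]
    exact h3
  rw [e1, e2, ce_chain, e3]
  congr 1
  rw [sum_congr rfl e5, hSc, hS, sum_product] at e4
  simp only [sum_const, nsmul_eq_mul, ← mul_sum] at e4
  unfold dd
  rw [eq_div_iff hUc.ne']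
  have e6 : (V.card : ℝ) * (ce S (fun s => (f s.1, z s)) (fun s => s.1) * U.card) =
      V.card * ∑ x ∈ U, lo (cl U γ x) V := by
    rw [← e4]
    ring
  exact mul_left_cancel₀ hVc.ne' e6

end Pool.Agent.T2H12.KF
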