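import Mathlib
import Pool.Agent.T2H12.KF.Spine

/-!
# The loss of a sum with spread exponents
-/

set_option autoImplicit false

namespace Pool.Agent.T2H12.KF

open Finset
open scoped Classical
open Pool.Agent.Y359.PE

/-- the part of `x` made of the primes in `P` -/
def gp (P : Finset ℕ) (x : ℤ) : ℤ := ((∏ p ∈ P, p ^ fa x p : ℕ) : ℤ)

/-- the part of `x` prime to the primes in `P` -/
def gq (P : Finset ℕ) (x : ℤ) : ℤ := x / gp P x

lemma fact_prod {P : Finset ℕ} (hP : ∀ p ∈ P, p.Prime) (f : ℕ → ℕ) (q : ℕ) :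
    (∏ p ∈ P, p ^ f p).factorization q = if q ∈ P then f q else 0 := by
  rw [Nat.factorization_prod (fun p hp => pow_ne_zero _ (hP p hp).ne_zero),
    Finsupp.finsetSum_apply]
  have e1 : ∀ p ∈ P, (p ^ f p).factorization q = if p = q then f q else 0 := by
    intro p hp
    rw [(hP p hp).factorization_pow, Finsupp.single_apply]
    split_ifs with h
    · rw [h]
    · rfl
  rw [sum_congr rfl e1, Finset.sum_ite_eq']

lemma gp_pos {P : Finset ℕ} (hP : ∀ p ∈ P, p.Prime) (x : ℤ) : 0 < gp P x := by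
  unfold gp
  have : 0 < ∏ p ∈ P, p ^ fa x p := prod_pos fun p hp => pow_pos (hP p hp).pos _
  exact_mod_cast this

lemma fa_gp {P : Finset ℕ} (hP : ∀ p ∈ P, p.Prime) (x : ℤ) (q : ℕ) :
    fa (gp P x) q = if q ∈ P then fa x q else 0 := by
  have : (gp P x).natAbs = ∏ p ∈ P, p ^ fa x p := by
    unfold gp
    exact Int.natAbs_natCast _
  rw [fa, this]
  exact fact_prod hP _ q

lemma gp_dvd {P : Finset ℕ} (hP : ∀ p ∈ P, p.Prime) {x : ℤ} (hx : x ≠ 0) : gp P x ∣ x := by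
  rw [← Int.natAbs_dvd_natAbs, ← Nat.factorization_le_iff_dvd
    (Int.natAbs_ne_zero.2 (gp_pos hP x).ne') (Int.natAbs_ne_zero.2 hx)]
  intro q
  change fa (gp P x) q ≤ fa x q
  rw [fa_gp hP]
  split_ifs
  · exact le_rfl
  · exact Nat.zero_le _

lemma eq_gp_mul_gq {P : Finset ℕ} (hP : ∀ p ∈ P, p.Prime) {x : ℤ} (hx : x ≠ 0) :
    x = gp P x * gq P x := (Int.mul_ediv_cancel' (gp_dvd hP hx)).symm

lemma gq_ne_zero {P : Finset ℕ} (hP : ∀ p ∈ P, p.Prime) {x : ℤ} (hx : x ≠ 0) : gq P x ≠ 0 := by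
  intro h
  apply hx
  rw [eq_gp_mul_gq hP hx, h, mul_zero]

lemma fa_gq {P : Finset ℕ} (hP : ∀ p ∈ P, p.Prime) {x : ℤ} (hx : x ≠ 0) (q : ℕ) :
    fa (gq P x) q = if q ∈ P then 0 else fa x q := by
  have h1 := fa_mul (gp_pos hP x).ne' (gq_ne_zero hP hx) q
  rw [← eq_gp_mul_gq hP hx, fa_gp hP] at h1
  split_ifs at h1 ⊢ <;> omega

lemma gq_pos_iff {P : Finset ℕ} (hP : ∀ p ∈ P, p.Prime) {x : ℤ} (hx : x ≠ 0) :
    0 < gq P x ↔ 0 < x := by
  have h1 := gp_pos hP x
  constructor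
  · intro h
    rw [eq_gp_mul_gq hP hx]
    exact mul_pos h1 h
  · intro h
    rw [eq_gp_mul_gq hP hx] at h
    exact (mul_pos_iff_of_pos_left h1).1 h

lemma gq_eq_iff {P : Finset ℕ} (hP : ∀ p ∈ P, p.Prime) {x y : ℤ} (hx : x ≠ 0) (hy : y ≠ 0) :
    gq P x = gq P y ↔ (0 < x ↔ 0 < y) ∧ ∀ q, q ∉ P → fa x q = fa y q := by
  constructor
  · intro h
    refine ⟨?_, ?_⟩
    · rw [← gq_pos_iff hP hx, ← gq_pos_iff hP hy, h]
    · intro q hq
      have h1 := fa_gq hP hx q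
      have h2 := fa_gq hP hy q
      rw [if_neg hq] at h1 h2
      rw [← h1, ← h2, h]
  · rintro ⟨h1, h2⟩
    refine eq_of_fa (gq_ne_zero hP hx) (gq_ne_zero hP hy) ?_ ?_
    · rw [gq_pos_iff hP hx, gq_pos_iff hP hy, h1]
    · intro q
      rw [fa_gq hP hx, fa_gq hP hy]
      split_ifs with hq
      · rfl
      · exact h2 q hq

lemma gp_eq_iff {P : Finset ℕ} (hP : ∀ p ∈ P, p.Prime) {x y : ℤ} :
    gp P x = gp P y ↔ ∀ p ∈ P, fa x p = fa y p := by
  constructor
  · intro h p hp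
    have h1 := fa_gp hP x p
    have h2 := fa_gp hP y p
    rw [if_pos hp] at h1 h2
    rw [← h1, ← h2, h]
  · intro h
    unfold gp
    congr 1
    exact prod_congr rfl fun p hp => by rw [h p hp]

lemma fL_eq_iff {L : List ℕ} {x y : ℤ} : fL L x = fL L y ↔ ∀ p ∈ L, fa x p = fa y p := by
  unfold fL
  rw [List.map_inj_left]

lemma pow_dvd_mul_iff {p : ℕ} (hp : p.Prime) {g d : ℤ} (hg : g ≠ 0) (l : ℕ) :
    (p : ℤ) ^ l ∣ g * d ↔ (p : ℤ) ^ (l - fa g p) ∣ d := by
  rcases eq_or_ne d 0 with hd | hd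
  · subst hd
    simp
  · rw [pow_dvd_iff_fa hp (mul_ne_zero hg hd), pow_dvd_iff_fa hp hd, fa_mul hg hd]
    omega

lemma HG_gp {P : Finset ℕ} (hP : ∀ p ∈ P, p.Prime) {p : ℕ} (hp : p ∈ P) {U : Finset ℤ}
    (h0 : (0 : ℤ) ∉ U) : HG (gp P) (gq P) p U := by
  have hne : ∀ x ∈ U, x ≠ 0 := fun x hx h => h0 (h ▸ hx)
  refine ⟨fun x _ x' _ h => (gp_eq_iff hP).1 h p hp, ?_⟩
  intro x hx x' hx' h l
  have h1 : x - x' = gp P x * (gq P x - gq P x') := by
    have h2 := eq_gp_mul_gq hP (hne x hx)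
    have h3 := eq_gp_mul_gq hP (hne x' hx')
    rw [← h] at h3
    rw [mul_sub, ← h2, ← h3]
  rw [h1, pow_dvd_mul_iff (hP p hp) (gp_pos hP x).ne', fa_gp hP, if_pos hp]

/-- **The core.** -/
theorem core {δ : ℝ} (hδ : 0 < δ) (hδ1 : δ ≤ 1) : ∃ E C₂ L₀ : ℝ, 0 < E ∧ 0 < C₂ ∧ 0 < L₀ ∧
    ∀ (L : List (ℕ × ℝ)) (U V : Finset ℤ), (∀ a ∈ L, a.1.Prime) → U.Nonempty → V.Nonempty →
      (0 : ℤ) ∉ U → Good (gq (L.map Prod.fst).toFinset) L U →
      C₂ * (Real.log U.card + Real.log V.card) ≤ tot E L →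
      lo U V ≤ δ * (Real.log U.card + Real.log V.card) + L.length * L₀ := by
  set d : ℝ := δ / 5 with hd
  have hd0 : 0 < d := by positivity
  have hd1 : d ≤ 1 := by
    rw [hd]
    linarith
  obtain ⟨E, C₂, hE, hC₂, hdd⟩ := dd_final hd0 hd1
  obtain ⟨C, hC1, hB⟩ := exists_bitC hd0 hd1
  have hCd : 1 ≤ C / d := by
    rw [le_div_iff₀ hd0]
    linarith
  have hlC : 0 ≤ Real.log (C / d) := Real.log_nonneg hCd
  have hl2 : 0 < Real.log 2 := Real.log_pos (by norm_num)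
  refine ⟨E, C₂, 2 * Real.log 2 + 1 + Real.log (C / d), hE, hC₂, by positivity, ?_⟩
  intro L U V hLp hU hV h0 hG htot
  set P := (L.map Prod.fst).toFinset with hPd
  have hP : ∀ p ∈ P, p.Prime := by
    intro p hp
    rw [hPd, List.mem_toFinset, List.mem_map] at hp
    obtain ⟨a, ha, rfl⟩ := hp
    exact hLp a ha
  have hPmem : ∀ a ∈ L, a.1 ∈ P := by
    intro a ha
    rw [hPd, List.mem_toFinset]
    exact List.mem_map_of_mem ha
  have hne : ∀ x ∈ U, x ≠ 0 := fun x hx h => h0 (h ▸ hx)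
  have h1 := hdd (gp P) (gq P) L U V hU hV (fun x hx => eq_gp_mul_gq hP (hne x hx))
    (fun a ha => ⟨hLp a ha, HG_gp hP (hPmem a ha) h0⟩) hG htot
  have h2 := spine_list hd0 hd1 hC1 hB (L.map Prod.fst) U V (by
    intro p hp
    exact hP p (by rw [hPd, List.mem_toFinset]; exact hp)) h0 hU hV
  rw [List.length_map] at h2
  have h3 := lo_eq U V hU hV (fL (L.map Prod.fst)) (gp P) (by
    intro x _ y _
    rw [fL_eq_iff, gp_eq_iff hP]
    simp only [hPd, List.mem_toFinset])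
  have h4 := h_le_log_card U (fL (L.map Prod.fst))
  have h5 : 4 * d * (h U (fL (L.map Prod.fst)) + Real.log V.card) ≤
      4 * d * (Real.log U.card + Real.log V.card) :=
    mul_le_mul_of_nonneg_left (by linarith) (by positivity)
  have h6 : δ * (Real.log U.card + Real.log V.card) =
      5 * d * (Real.log U.card + Real.log V.card) := by
    rw [hd]
    ring
  rw [h3, h6]
  linarith

/-- the size of a set with spread exponents -/
lemma good_card {G : ℤ → ℤ} : ∀ (L : List (ℕ × ℝ)) (U : Finset ℤ), (∀ a ∈ L, 0 ≤ a.2) →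
    U.Nonempty → Good G L U → (L.map Prod.snd).prod ≤ U.card := by
  intro L
  induction L with
  | nil =>
    intro U _ hU _
    simp only [List.map_nil, List.prod_nil]
    exact_mod_cast card_pos.2 hU
  | cons a L ih =>
    obtain ⟨p, e⟩ := a
    intro U hL hU hG
    obtain ⟨x, hx⟩ := hU
    have he : 0 ≤ e := hL (p, e) List.mem_cons_self
    have h1 := hG.1 x hx (fa x p)
    have h2 := good_restrict (fun g => g = G x) L _ (hG.2 (fa x p))
    have hxm : x ∈ (U.filter fun x' => fa x' p = fa x p).filter fun y => G y = G x :=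
      mem_filter.2 ⟨mem_filter.2 ⟨hx, rfl⟩, rfl⟩
    have h2' : Good G L ((U.filter fun x' => fa x' p = fa x p).filter fun y => G y = G x) := by
      convert h2
    have h3 := ih _ (fun a ha => hL a (List.mem_cons_of_mem _ ha)) ⟨x, hxm⟩ h2'
    have h4 : ((U.filter fun x' => fa x' p = fa x p).filter fun y => G y = G x) =
        U.filter fun x' => G x' = G x ∧ fa x' p = fa x p := by
      ext y
      simp only [mem_filter]
      tauto
    rw [h4] at h3
    have h5 : ((U.filter fun x' => G x' = G x).card : ℝ) ≤ U.card := by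
      exact_mod_cast card_le_card (filter_subset _ _)
    rw [List.map_cons, List.prod_cons]
    calc e * (L.map Prod.snd).prod ≤
        e * ((U.filter fun x' => G x' = G x ∧ fa x' p = fa x p).card : ℝ) :=
          mul_le_mul_of_nonneg_left h3 he
      _ ≤ _ := h1.trans h5

/-- the number of sums -/
lemma log_add_ge (U V : Finset ℤ) (hU : U.Nonempty) (hV : V.Nonempty) :
    Real.log U.card + Real.log V.card - lo U V ≤
      Real.log ((U ×ˢ V).image fun s => s.1 + s.2).card := by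
  have h1 := h_le_log (hU.product hV) (fun s : ℤ × ℤ => s.1 + s.2)
  have h2 : ∀ i₁ i₂ : DecidableEq ℤ, @Finset.image (ℤ × ℤ) ℤ i₁ (fun s => s.1 + s.2) (U ×ˢ V) =
      @Finset.image (ℤ × ℤ) ℤ i₂ (fun s => s.1 + s.2) (U ×ˢ V) := fun i₁ i₂ => by
    rw [Subsingleton.elim i₁ i₂]
  rw [h2 _ (fun a b => Classical.propDecidable (a = b))]
  unfold lo
  linarith

end Pool.Agent.T2H12.KF
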