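import Mathlib
import Pool.Agent.T2H12.KF.Core

/-!
# Sets with long multiplicative lines in many directions
-/

set_option autoImplicit false

namespace Pool.Agent.T2H12.KF

open Finset
open scoped Classical
open Pool.Agent.Y359.PE

lemma fa_ppow {p : ℕ} (hp : p.Prime) (i q : ℕ) : fa ((p : ℤ) ^ i) q = if p = q then i else 0 := by
  unfold fa
  rw [Int.natAbs_pow, Int.natAbs_natCast, hp.factorization_pow, Finsupp.single_apply]

/-- the same line in direction `p` -/
def rl (p : ℕ) (x a : ℤ) : Prop := (0 < x ↔ 0 < a) ∧ ∀ q, q ≠ p → fa x q = fa a q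

lemma line_iff {p : ℕ} (hp : p.Prime) {x a : ℤ} (hx : x ≠ 0) (ha : a ≠ 0) :
    (∃ i j : ℕ, x * (p : ℤ) ^ i = a * (p : ℤ) ^ j) ↔ rl p x a := by
  have hp0 : ∀ i : ℕ, (0 : ℤ) < (p : ℤ) ^ i := fun i => by
    have := hp.pos
    positivity
  constructor
  · rintro ⟨i, j, h⟩
    refine ⟨?_, ?_⟩
    · rw [← mul_pos_iff_of_pos_right (hp0 i), h, mul_pos_iff_of_pos_right (hp0 j)]
    · intro q hq
      have h1 := fa_mul hx (hp0 i).ne' q
      have h2 := fa_mul ha (hp0 j).ne' q
      rw [fa_ppow hp, if_neg (Ne.symm hq), add_zero] at h1 h2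
      rw [← h1, ← h2, h]
  · rintro ⟨h1, h2⟩
    refine ⟨fa a p, fa x p, eq_of_fa (mul_ne_zero hx (hp0 _).ne') (mul_ne_zero ha (hp0 _).ne')
      ?_ ?_⟩
    · rw [mul_pos_iff_of_pos_right (hp0 _), mul_pos_iff_of_pos_right (hp0 _)]
      exact h1
    · intro q
      rw [fa_mul hx (hp0 _).ne', fa_mul ha (hp0 _).ne', fa_ppow hp, fa_ppow hp]
      split_ifs with hq
      · subst hq
        omega
      · rw [h2 q (Ne.symm hq)]

lemma good_lines {P : Finset ℕ} (hP : ∀ p ∈ P, p.Prime) (E : ℕ → ℕ) : ∀ (Lp : List ℕ),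
    Lp.Nodup → (∀ p ∈ Lp, p ∈ P) → ∀ U : Finset ℤ, (0 : ℤ) ∉ U →
    (∀ p ∈ Lp, ∀ x ∈ U, (E p : ℝ) ≤ (U.filter fun z => rl p z x).card) →
    Good (gq P) (Lp.map fun p => (p, (E p : ℝ))) U := by
  intro Lp
  induction Lp with
  | nil => intro _ _ U _ _; exact trivial
  | cons p Lp ih =>
    intro hnd hLP U h0 hE
    have hne : ∀ x ∈ U, x ≠ 0 := fun x hx h => h0 (h ▸ hx)
    have hpP : p ∈ P := hLP p List.mem_cons_self
    refine ⟨?_, ?_⟩
    · intro x hx w
      set Gw := U.filter fun x' => gq P x' = gq P x ∧ fa x' p = w with hGw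
      have hdis : ∀ y ∈ Gw, ∀ y' ∈ Gw, y ≠ y' →
          Disjoint (U.filter fun z => rl p z y) (U.filter fun z => rl p z y') := by
        intro y hy y' hy' hyy
        obtain ⟨hyU, hy1, hy2⟩ := mem_filter.1 hy
        obtain ⟨hyU', hy1', hy2'⟩ := mem_filter.1 hy'
        rw [disjoint_filter]
        intro z _ h1 h2
        apply hyy
        refine eq_of_fa (hne y hyU) (hne y' hyU') (h1.1.symm.trans h2.1) ?_
        intro q
        by_cases hq : q = p
        · rw [hq, hy2, hy2']
        · rw [← h1.2 q hq, h2.2 q hq]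
      have hsub : (Gw.biUnion fun y => U.filter fun z => rl p z y) ⊆
          U.filter fun x' => gq P x' = gq P x := by
        intro z hz
        rw [mem_biUnion] at hz
        obtain ⟨y, hy, hz⟩ := hz
        obtain ⟨hyU, hy1, hy2⟩ := mem_filter.1 hy
        obtain ⟨hzU, hz1, hz2⟩ := mem_filter.1 hz
        rw [mem_filter, ← hy1, gq_eq_iff hP (hne z hzU) (hne y hyU)]
        refine ⟨hzU, hz1, fun q hq => hz2 q ?_⟩
        rintro rfl
        exact hq hpP
      have h1 : ∑ y ∈ Gw, (U.filter fun z => rl p z y).card ≤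
          (U.filter fun x' => gq P x' = gq P x).card := by
        rw [← card_biUnion hdis]
        exact card_le_card hsub
      have h2 : (∑ y ∈ Gw, ((U.filter fun z => rl p z y).card : ℝ)) ≤
          (U.filter fun x' => gq P x' = gq P x).card := by exact_mod_cast h1
      refine le_trans ?_ h2
      rw [mul_comm, ← nsmul_eq_mul, ← sum_const]
      refine sum_le_sum fun y hy => ?_
      exact hE p List.mem_cons_self y (mem_filter.1 hy).1
    · intro w
      refine ih (List.nodup_cons.1 hnd).2 (fun q hq => hLP q (List.mem_cons_of_mem _ hq)) _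
        (fun h => h0 (mem_filter.1 h).1) ?_
      intro q hq x hx
      obtain ⟨hxU, hxw⟩ := mem_filter.1 hx
      refine (hE q (List.mem_cons_of_mem _ hq) x hxU).trans (le_of_eq ?_)
      congr 2
      ext z
      simp only [mem_filter]
      constructor
      · rintro ⟨h1, h2⟩
        refine ⟨⟨h1, ?_⟩, h2⟩
        rw [h2.2 p ?_, hxw]
        rintro rfl
        exact (List.nodup_cons.1 hnd).1 hq
      · rintro ⟨⟨h1, _⟩, h2⟩
        exact ⟨h1, h2⟩

/-- the iterated sums -/
noncomputable def vs (A B : Finset ℤ) : ℕ → Finset ℤ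
  | 0 => B
  | j + 1 => (A ×ˢ vs A B j).image fun s => s.1 + s.2

/-- the `k`-fold sums plus `B` -/
noncomputable def ts (A B : Finset ℤ) (k : ℕ) : Finset ℤ :=
  ((Fintype.piFinset fun _ : Fin k => A) ×ˢ B).image fun s => (∑ i, s.1 i) + s.2

lemma vs_nonempty {A B : Finset ℤ} (hA : A.Nonempty) (hB : B.Nonempty) (j : ℕ) :
    (vs A B j).Nonempty := by
  induction j with
  | zero => exact hB
  | succ j ih => exact (hA.product ih).image _

lemma vs_sub (A B : Finset ℤ) (k : ℕ) : vs A B k ⊆ ts A B k := by
  induction k with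
  | zero =>
    intro b hb
    unfold ts
    rw [mem_image]
    refine ⟨(fun i => Fin.elim0 i, b), ?_, by simp⟩
    rw [mem_product]
    exact ⟨Fintype.mem_piFinset.2 fun i => Fin.elim0 i, hb⟩
  | succ k ih =>
    intro b hb
    change b ∈ (A ×ˢ vs A B k).image (fun s => s.1 + s.2) at hb
    rw [mem_image] at hb
    obtain ⟨⟨a, c⟩, hac, rfl⟩ := hb
    obtain ⟨ha, hc⟩ := mem_product.1 hac
    have h1 := ih hc
    unfold ts at h1 ⊢
    rw [mem_image] at h1 ⊢
    obtain ⟨⟨f, b'⟩, hf, hfb⟩ := h1
    obtain ⟨hf1, hf2⟩ := mem_product.1 hf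
    refine ⟨(Fin.cons a f, b'), ?_, ?_⟩
    · rw [mem_product]
      refine ⟨Fintype.mem_piFinset.2 fun i => ?_, hf2⟩
      refine Fin.cases ?_ (fun j => ?_) i
      · exact ha
      · exact Fintype.mem_piFinset.1 hf1 j
    · simp only [Fin.sum_univ_succ, Fin.cons_zero, Fin.cons_succ]
      simp only at hfb
      rw [← hfb]
      ring

lemma vs_card_le (A B : Finset ℤ) (j : ℕ) : (vs A B j).card ≤ A.card ^ j * B.card := by
  induction j with
  | zero => simp [vs]
  | succ j ih =>
    calc (vs A B (j + 1)).card ≤ (A ×ˢ vs A B j).card := card_image_le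
      _ = A.card * (vs A B j).card := card_product _ _
      _ ≤ A.card * (A.card ^ j * B.card) := Nat.mul_le_mul_left _ ih
      _ = _ := by ring

/-- iteration of the bound for the sum of two sets -/
lemma iterate_sums {A B : Finset ℤ} (hA : A.Nonempty) (hB : B.Nonempty) {η : ℝ} (hη : 0 ≤ η)
    (hη1 : η ≤ 1) {k : ℕ} (h : ∀ j < k, lo A (vs A B j) ≤
      η * (Real.log A.card + Real.log (vs A B j).card)) :
    (1 - η) ^ k * (k * Real.log A.card + Real.log B.card) ≤ Real.log (vs A B k).card := by
  have key : ∀ j ≤ k, (1 - η) ^ j * (j * Real.log A.card + Real.log B.card) ≤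
      Real.log (vs A B j).card := by
    intro j
    induction j with
    | zero => intro _; simp [vs]
    | succ j ih =>
      intro hj
      have h1 := ih (by omega)
      have h2 := h j (by omega)
      have h3 := log_add_ge A (vs A B j) hA (vs_nonempty hA hB j)
      change _ ≤ Real.log (vs A B (j + 1)).card at h3
      have hla := log_card_nonneg A
      have h4 : (1 - η) * (Real.log A.card + (1 - η) ^ j * (j * Real.log A.card +
          Real.log B.card)) ≤ Real.log (vs A B (j + 1)).card := by
        have h5 : (1 - η) * (Real.log A.card + (1 - η) ^ j * (j * Real.log A.card +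
          Real.log B.card)) ≤ (1 - η) * (Real.log A.card + Real.log (vs A B j).card) :=
          mul_le_mul_of_nonneg_left (by linarith) (by linarith)
        linarith
      refine le_trans ?_ h4
      have h5 : (1 - η) ^ j ≤ 1 := pow_le_one₀ (by linarith) (by linarith)
      have h6 : (1 - η) ^ j * Real.log A.card ≤ Real.log A.card := by
        calc (1 - η) ^ j * Real.log A.card ≤ 1 * Real.log A.card :=
              mul_le_mul_of_nonneg_right h5 hla
          _ = _ := one_mul _
      have h7 : (1 - η) ^ (j + 1) * (((j + 1 : ℕ) : ℝ) * Real.log A.card + Real.log B.card) =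
          (1 - η) * ((1 - η) ^ j * Real.log A.card + (1 - η) ^ j * (j * Real.log A.card +
          Real.log B.card)) := by
        push_cast
        ring
      rw [h7]
      exact mul_le_mul_of_nonneg_left (by linarith) (by linarith)
  exact key k le_rfl

lemma tot_map {E₁ : ℝ} (E : ℕ → ℕ) : ∀ (Lp : List ℕ), (∀ p ∈ Lp, E₁ ≤ (E p : ℝ)) →
    tot E₁ (Lp.map fun p => (p, (E p : ℝ))) = (Lp.map fun p => (E p : ℝ)).sum := by
  intro Lp
  induction Lp with
  | nil => intro _; rfl
  | cons p Lp ih =>
    intro h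
    have h1 := ih fun q hq => h q (List.mem_cons_of_mem _ hq)
    have h2 := h p List.mem_cons_self
    simp only [List.map_cons, List.sum_cons, tot, if_pos h2]
    rw [h1]
    ring

/-- **Long lines in many directions.** -/
theorem lines (k : ℕ) (ε : ℝ) (hε : 0 < ε) (hε1 : ε ≤ 1) : ∃ E₀ C : ℝ, 0 < E₀ ∧ 0 < C ∧
    ∀ (A B : Finset ℤ) (P : Finset ℕ) (E : ℕ → ℕ), A.Nonempty → B.Nonempty → (0 : ℤ) ∉ A →
      (∀ p ∈ P, p.Prime) → (∀ p ∈ P, E₀ ≤ E p) →
      (∀ a ∈ A, ∀ p ∈ P, E p ≤ (A.filter fun x => ∃ i j : ℕ,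
        x * (p : ℤ) ^ i = a * (p : ℤ) ^ j).card) →
      C * Real.log A.card ≤ ∑ p ∈ P, (E p : ℝ) →
      ((A.card : ℝ) ^ k * B.card) ^ (1 - ε) ≤ (ts A B k).card := by
  set δ : ℝ := ε / (2 * (k + 1)) with hδ
  have hk0 : (0 : ℝ) ≤ k := Nat.cast_nonneg k
  have hδ0 : 0 < δ := by positivity
  have hδ2 : δ ≤ 1 / 2 := by
    rw [hδ, div_le_div_iff₀ (by positivity) (by norm_num)]
    nlinarith
  obtain ⟨E₁, C₂, L₀, hE₁, hC₂, hL₀, hcore⟩ := core hδ0 (by linarith)
  refine ⟨max E₁ (Real.exp (L₀ / δ)), C₂ * (k + 1 + k / ε + 1), lt_max_of_lt_left hE₁,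
    by positivity, ?_⟩
  intro A B P E hA hB h0 hP hE₀ hE hsum
  have hne : ∀ x ∈ A, x ≠ 0 := fun x hx h => h0 (h ▸ hx)
  have hAc : (1 : ℝ) ≤ A.card := by exact_mod_cast card_pos.2 hA
  have hBc : (1 : ℝ) ≤ B.card := by exact_mod_cast card_pos.2 hB
  have hla := log_card_nonneg A
  have hlb := log_card_nonneg B
  set a := Real.log A.card with ha
  set b := Real.log B.card with hb
  have htp : (0 : ℝ) < (ts A B k).card := by
    have : (ts A B k).Nonempty := (vs_nonempty hA hB k).mono (vs_sub A B k)
    exact_mod_cast card_pos.2 this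
  have hX : (0 : ℝ) < (A.card : ℝ) ^ k * B.card := by positivity
  rw [← Real.log_le_log_iff (Real.rpow_pos_of_pos hX _) htp, Real.log_rpow hX,
    Real.log_mul (by positivity) (by positivity), Real.log_pow]
  have hvt : Real.log (vs A B k).card ≤ Real.log (ts A B k).card :=
    log_card_mono (vs_nonempty hA hB k) (vs_sub A B k)
  rcases le_or_gt b (k / ε * a) with hba | hba
  · -- the main case
    refine le_trans ?_ hvt
    set Lp := P.toList with hLp
    set L : List (ℕ × ℝ) := Lp.map fun p => (p, (E p : ℝ)) with hL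
    have hmem : ∀ p, p ∈ Lp ↔ p ∈ P := fun p => Finset.mem_toList
    have hfst : (L.map Prod.fst).toFinset = P := by
      rw [hL, List.map_map]
      have : (Prod.fst ∘ fun p : ℕ => (p, (E p : ℝ))) = id := rfl
      rw [this, List.map_id, hLp, Finset.toList_toFinset]
    have hlines : ∀ p ∈ Lp, ∀ x ∈ A, (E p : ℝ) ≤ (A.filter fun z => rl p z x).card := by
      intro p hp x hx
      have hp' := (hmem p).1 hp
      have h1 := hE x hx p hp'
      have h2 : (A.filter fun z => ∃ i j : ℕ, z * (p : ℤ) ^ i = x * (p : ℤ) ^ j) =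
          A.filter fun z => rl p z x := by
        ext z
        rw [mem_filter, mem_filter]
        refine and_congr_right fun hz => ?_
        exact line_iff (hP p hp') (hne z hz) (hne x hx)
      rw [h2] at h1
      exact_mod_cast h1
    have hgood := good_lines hP E Lp P.nodup_toList (fun p hp => (hmem p).1 hp) A h0 hlines
    have hLprime : ∀ a ∈ L, a.1.Prime := by
      intro a ha
      rw [hL, List.mem_map] at ha
      obtain ⟨p, hp, rfl⟩ := ha
      exact hP p ((hmem p).1 hp)
    have hEp : ∀ p ∈ Lp, max E₁ (Real.exp (L₀ / δ)) ≤ (E p : ℝ) := fun p hp =>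
      hE₀ p ((hmem p).1 hp)
    have htot : tot E₁ L = ∑ p ∈ P, (E p : ℝ) := by
      rw [hL, tot_map E Lp fun p hp => (le_max_left _ _).trans (hEp p hp), hLp,
        Finset.sum_map_toList]
    -- the number of primes
    have hcard : (L.length : ℝ) * L₀ ≤ δ * a := by
      have h1 := good_card L A (by
        intro c hc
        rw [hL, List.mem_map] at hc
        obtain ⟨p, hp, rfl⟩ := hc
        exact Nat.cast_nonneg _) hA (by rw [hL]; exact hgood)
      have h2 : ∀ (M : List ℕ), (∀ p ∈ M, Real.exp (L₀ / δ) ≤ (E p : ℝ)) →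
          Real.exp (L₀ / δ) ^ M.length ≤ ((M.map fun p => (p, (E p : ℝ))).map Prod.snd).prod := by
        intro M
        induction M with
        | nil => intro _; simp
        | cons p M ih =>
          intro hM
          have h3 := ih fun q hq => hM q (List.mem_cons_of_mem _ hq)
          have h4 := hM p List.mem_cons_self
          rw [List.length_cons, pow_succ', List.map_cons, List.map_cons, List.prod_cons]
          exact mul_le_mul h4 h3 (by positivity) ((Real.exp_pos _).le.trans h4)
      have h3 := (h2 Lp fun p hp => (le_max_right _ _).trans (hEp p hp)).trans h1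
      have h4 := Real.log_le_log (by positivity) h3
      rw [Real.log_pow, Real.log_exp] at h4
      have h5 : L.length = Lp.length := by rw [hL, List.length_map]
      rw [h5]
      have h6 : (Lp.length : ℝ) * (L₀ / δ) * δ ≤ a * δ := mul_le_mul_of_nonneg_right h4 hδ0.le
      have h7 : (Lp.length : ℝ) * (L₀ / δ) * δ = Lp.length * L₀ := by field_simp
      rw [h7] at h6
      linarith
    have hstep : ∀ j < k, lo A (vs A B j) ≤ (2 * δ) * (a + Real.log (vs A B j).card) := by
      intro j hj
      have hVn := vs_nonempty hA hB j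
      have hVc : (0 : ℝ) < (vs A B j).card := by exact_mod_cast card_pos.2 hVn
      have h1 : Real.log (vs A B j).card ≤ j * a + b := by
        have h2 : ((vs A B j).card : ℝ) ≤ (A.card : ℝ) ^ j * B.card := by
          exact_mod_cast vs_card_le A B j
        have h3 := Real.log_le_log hVc h2
        rwa [Real.log_mul (by positivity) (by positivity), Real.log_pow] at h3
      have hjk : (j : ℝ) ≤ k := by exact_mod_cast hj.le
      have h2 : C₂ * (a + Real.log (vs A B j).card) ≤ tot E₁ L := by
        rw [htot]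
        refine le_trans ?_ hsum
        rw [mul_assoc]
        refine mul_le_mul_of_nonneg_left ?_ hC₂.le
        have h3 : (j : ℝ) * a ≤ k * a := mul_le_mul_of_nonneg_right hjk hla
        nlinarith
      have h3 := hcore L A (vs A B j) hLprime hA hVn h0 (by rw [hfst, hL]; exact hgood) h2
      have h4 := log_card_nonneg (vs A B j)
      have h5 : 0 ≤ δ * Real.log (vs A B j).card := by positivity
      linarith
    have h1 := iterate_sums hA hB (η := 2 * δ) (by positivity) (by linarith) hstep
    refine le_trans ?_ h1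
    refine mul_le_mul_of_nonneg_right ?_ (by positivity)
    have h2 := one_add_mul_le_pow (a := -(2 * δ)) (by linarith) k
    have h3 : (k : ℝ) * (2 * δ) ≤ ε := by
      rw [hδ]
      have : (k : ℝ) * (2 * (ε / (2 * (k + 1)))) = ε * (k / (k + 1)) := by
        field_simp
      rw [this]
      have h4 : (k : ℝ) / (k + 1) ≤ 1 := by
        rw [div_le_one (by positivity)]
        linarith
      calc ε * ((k : ℝ) / (k + 1)) ≤ ε * 1 := mul_le_mul_of_nonneg_left h4 hε.le
        _ = ε := mul_one _
    have h4 : (1 + -(2 * δ)) ^ k = (1 - 2 * δ) ^ k := by ring_nf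
    rw [h4] at h2
    linarith
  · -- `B` is very large
    have h1 : b ≤ Real.log (ts A B k).card := by
      obtain ⟨x, hx⟩ := hA
      rw [hb]
      refine Real.log_le_log (by linarith) ?_
      have h2 : (B.image fun y => (∑ _i : Fin k, x) + y).card = B.card :=
        card_image_of_injective _ fun y z h => add_left_cancel h
      have h3 : (B.image fun y => (∑ _i : Fin k, x) + y) ⊆ ts A B k := by
        intro y hy
        rw [mem_image] at hy
        obtain ⟨z, hz, rfl⟩ := hy
        unfold ts
        rw [mem_image]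
        exact ⟨(fun _ => x, z), mem_product.2 ⟨Fintype.mem_piFinset.2 fun _ => hx, hz⟩, rfl⟩
      rw [← h2]
      exact_mod_cast card_le_card h3
    refine le_trans ?_ h1
    have h2 : k * a ≤ ε * b := by
      have h3 := mul_le_mul_of_nonneg_left hba.le hε.le
      have h4 : ε * (k / ε * a) = k * a := by field_simp
      rw [h4] at h3
      exact h3
    have h3 : (1 - ε) * (k * a + b) ≤ (1 - ε) * (ε * b + b) :=
      mul_le_mul_of_nonneg_left (by linarith) (by linarith)
    have h4 : 0 ≤ ε ^ 2 * b := by positivity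
    have h5 : (1 - ε) * (ε * b + b) = b - ε ^ 2 * b := by ring
    linarith

end Pool.Agent.T2H12.KF
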